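import Pool.Agent.Helper14.SP2.F.Base

/-!
# Project SP2: piece A5, the closure lemma
-/

set_option autoImplicit false

namespace Pool.Agent.Helper14.SP

open Finset Classical

namespace A5

variable {ι : Type} [Fintype ι]

/-- the elements over `κ` of `Ω` -/
noncomputable def ov {V Ξ : Type} (m : ι → ℕ) (Ω : Finset (Obj ι V × Ξ)) (κ : (ι → V) × Ξ) :
    Finset (Obj ι V × Ξ) := {ω ∈ Ω | (ends m ω.1, ω.2) = κ}

/-- the popular vertices -/
noncomputable def pop {V Ξ : Type} (m : ι → ℕ) (e : ℕ) (Ω : Finset (Obj ι V × Ξ))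
    (κ : (ι → V) × Ξ) : Finset V :=
  {β ∈ Ω.biUnion fun ω => inn m ω.1 |
    #{ω ∈ Ω | (ends m ω.1, ω.2) = κ} < e * #{ω ∈ Ω | (ends m ω.1, ω.2) = κ ∧ β ∈ inn m ω.1}}

theorem card_pop_le {V Ξ : Type} (m : ι → ℕ) (e : ℕ) (Ω : Finset (Obj ι V × Ξ))
    (κ : (ι → V) × Ξ) : #(pop m e Ω κ) ≤ e * (∑ c, m c + 1) := by
  set K := {ω ∈ Ω | (ends m ω.1, ω.2) = κ} with hK
  have hfil : ∀ β, ({ω ∈ Ω | (ends m ω.1, ω.2) = κ ∧ β ∈ inn m ω.1} :
      Finset (Obj ι V × Ξ)) = {ω ∈ K | β ∈ inn m ω.1} := by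
    intro β
    rw [hK, filter_filter]
  rcases Nat.eq_zero_or_pos #K with h0 | h0
  · have : pop m e Ω κ = ∅ := by
      rw [pop, filter_eq_empty_iff]
      intro β _ h
      rw [hfil, ← hK] at h
      have h1 : #{ω ∈ K | β ∈ inn m ω.1} ≤ #K := card_filter_le _ _
      rw [h0] at h1 h
      have : #{ω ∈ K | β ∈ inn m ω.1} = 0 := by omega
      rw [this] at h
      omega
    rw [this]
    simp
  · have h1 : #(pop m e Ω κ) * #K ≤ ∑ β ∈ pop m e Ω κ, e * #{ω ∈ K | β ∈ inn m ω.1} := by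
      rw [← smul_eq_mul, ← sum_const]
      refine sum_le_sum fun β hβ => ?_
      rw [pop, mem_filter] at hβ
      have := hβ.2
      rw [hfil, ← hK] at this
      exact this.le
    have h2 : ∑ β ∈ pop m e Ω κ, e * #{ω ∈ K | β ∈ inn m ω.1} ≤
        e * (#K * (∑ c, m c + 1)) := by
      rw [← mul_sum]
      refine Nat.mul_le_mul_left _ ?_
      have h3 : ∑ β ∈ pop m e Ω κ, #{ω ∈ K | β ∈ inn m ω.1} =
          ∑ ω ∈ K, #{β ∈ pop m e Ω κ | β ∈ inn m ω.1} := by
        simp_rw [card_filter]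
        exact sum_comm
      rw [h3, ← smul_eq_mul, ← sum_const]
      refine sum_le_sum fun ω _ => ?_
      refine le_trans (card_le_card ?_) (card_inn_le m ω.1)
      intro β hβ
      exact (mem_filter.1 hβ).2
    have h4 : #(pop m e Ω κ) * #K ≤ (e * (∑ c, m c + 1)) * #K := by
      refine (h1.trans h2).trans (le_of_eq ?_)
      ring
    exact Nat.le_of_mul_le_mul_right h4 h0

theorem not_pop {V Ξ : Type} (m : ι → ℕ) (e : ℕ) (Ω Ω2 : Finset (Obj ι V × Ξ)) (h : Ω2 ⊆ Ω)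
    (κ : (ι → V) × Ξ) (β : V) (hβ : β ∉ pop m e Ω κ) :
    e * #{ω ∈ Ω2 | (ends m ω.1, ω.2) = κ ∧ β ∈ inn m ω.1} ≤
      #{ω ∈ Ω | (ends m ω.1, ω.2) = κ} := by
  by_cases hb : β ∈ Ω.biUnion fun ω => inn m ω.1
  · have h1 : ¬ (#{ω ∈ Ω | (ends m ω.1, ω.2) = κ} <
        e * #{ω ∈ Ω | (ends m ω.1, ω.2) = κ ∧ β ∈ inn m ω.1}) := fun h' =>
      hβ (mem_filter.2 ⟨hb, h'⟩)
    push Not at h1
    refine le_trans (Nat.mul_le_mul_left _ (card_le_card ?_)) h1
    exact filter_subset_filter _ h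
  · have h1 : ({ω ∈ Ω2 | (ends m ω.1, ω.2) = κ ∧ β ∈ inn m ω.1} :
        Finset (Obj ι V × Ξ)) = ∅ := by
      rw [filter_eq_empty_iff]
      intro ω hω h'
      exact hb (mem_biUnion.2 ⟨ω, h hω, h'.2⟩)
    rw [h1]
    simp

/-- the conclusion -/
def Concl (m0 : ι → ℕ) (E : ℕ → ℕ) (Nm : ℕ) {V Ξ : Type} (Ω : Finset (Obj ι V × Ξ)) : Prop :=
  ∃ N, 1 ≤ N ∧ N ≤ Nm ∧
        ((∃ T : (ι → V) × Ξ → Finset V, (∀ ρ, #(T ρ) ≤ N) ∧
            #Ω ≤ N * #{ω ∈ Ω | ω.1.1 ∈ T (ends m0 ω.1, ω.2)}) ∨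
          ∃ (m : ι → ℕ) (Ω1 Ω2 : Finset (Obj ι V × Ξ)), (∀ c, 1 ≤ m c ∧ m c ≤ m0 c) ∧
            (∀ c c', m c = 1 → m c' = 1 → c = c') ∧ Ω1 ⊆ Ω ∧ Ω2 ⊆ Ω1 ∧ #Ω ≤ N * #Ω1 ∧
            #Ω1 ≤ 2 * #Ω2 ∧
            (∃ T : (ι → V) × Ξ → Finset (ι → V), (∀ ρ, #(T ρ) ≤ N) ∧
              ∀ ω ∈ Ω1, ends m ω.1 ∈ T (ends m0 ω.1, ω.2)) ∧
            ∀ (κ : (ι → V) × Ξ) (β : V),
              E N * #{ω ∈ Ω2 | (ends m ω.1, ω.2) = κ ∧ β ∈ inn m ω.1} ≤
                #{ω ∈ Ω1 | (ends m ω.1, ω.2) = κ})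

theorem Concl.mono {m0 : ι → ℕ} {E : ℕ → ℕ} {Nm Nm' : ℕ} {V Ξ : Type}
    {Ω : Finset (Obj ι V × Ξ)} (h : Concl m0 E Nm Ω) (hN : Nm ≤ Nm') : Concl m0 E Nm' Ω := by
  obtain ⟨N, h1, h2, h3⟩ := h
  exact ⟨N, h1, h2.trans hN, h3⟩

/-- the growth function -/
def gr (S C2 : ℕ) (E : ℕ → ℕ) (N : ℕ) : ℕ := N * (2 * S) * (E N + 1) * (C2 + 1)

theorem acl_ind (m0 : ι → ℕ) (C2 : ℕ) (E : ℕ → ℕ) (n : ℕ) :
    ∀ N, 1 ≤ N → ∃ Nm : ℕ, ∀ {V Ξ : Type} (Ω : Finset (Obj ι V × Ξ)), Ω.Nonempty →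
      (∀ c c', c ≠ c' → ∀ w w', #((Ω.filter fun ω => ω.1.2 c 1 = w ∧ ω.1.2 c' 1 = w').image
        fun ω => ω.1.1) ≤ C2) →
      ∀ (m : ι → ℕ) (Ω1 : Finset (Obj ι V × Ξ)), (∀ c, 1 ≤ m c ∧ m c ≤ m0 c) → ∑ c, m c < n →
        Ω1 ⊆ Ω → #Ω ≤ N * #Ω1 →
        (∃ T : (ι → V) × Ξ → Finset (ι → V), (∀ ρ, #(T ρ) ≤ N) ∧
              ∀ ω ∈ Ω1, ends m ω.1 ∈ T (ends m0 ω.1, ω.2)) → Concl m0 E Nm Ω := by
  induction n with
  | zero =>
    intro N _
    refine ⟨0, ?_⟩
    intro V Ξ Ω _ _ m Ω1 _ h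
    omega
  | succ n ih =>
    intro N hN
    set S := ∑ c, m0 c + 1 with hS
    have hS1 : 1 ≤ S := by omega
    have hgr : 1 ≤ gr S C2 E N := by
      unfold gr
      have : 0 < N * (2 * S) * (E N + 1) * (C2 + 1) := by positivity
      exact this
    obtain ⟨Nm, hNm⟩ := ih (gr S C2 E N) hgr
    refine ⟨max (gr S C2 E N) Nm, ?_⟩
    intro V Ξ Ω hne hC2 m Ω1 hm hsum hs1 hc1 hT
    obtain ⟨T, hT1, hT2⟩ := hT
    have hΩ1 : 0 < #Ω1 := by
      rcases Nat.eq_zero_or_pos #Ω1 with h | h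
      · rw [h] at hc1
        have := hne.card_pos
        omega
      · exact h
    have hmS : ∑ c, m c + 1 ≤ S := by
      have : ∑ c, m c ≤ ∑ c, m0 c := sum_le_sum fun c _ => (hm c).2
      omega
    have hpop : ∀ κ, #(pop m (E N) Ω1 κ) ≤ E N * S := fun κ =>
      (card_pop_le m (E N) Ω1 κ).trans (Nat.mul_le_mul_left _ hmS)
    set Ω2 := {ω ∈ Ω1 | Disjoint (inn m ω.1) (pop m (E N) Ω1 (ends m ω.1, ω.2))} with hΩ2
    have hs2 : Ω2 ⊆ Ω1 := filter_subset _ _
    have hNg : N ≤ gr S C2 E N := by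
      unfold gr
      calc N = N * 1 * 1 * 1 := by ring
        _ ≤ N * (2 * S) * (E N + 1) * (C2 + 1) := by
          gcongr <;> omega
    by_cases hA : #Ω1 ≤ 2 * #Ω2
    · by_cases h1 : ∀ c c', m c = 1 → m c' = 1 → c = c'
      · refine ⟨N, hN, le_max_of_le_left hNg, Or.inr ⟨m, Ω1, Ω2, hm, h1, hs1, hs2, hc1, hA,
          ⟨T, hT1, hT2⟩, ?_⟩⟩
        intro κ β
        by_cases hβ : β ∈ pop m (E N) Ω1 κ
        · have h2 : ({ω ∈ Ω2 | (ends m ω.1, ω.2) = κ ∧ β ∈ inn m ω.1} :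
              Finset (Obj ι V × Ξ)) = ∅ := by
            rw [filter_eq_empty_iff]
            rintro ω hω ⟨h3, h4⟩
            rw [hΩ2, mem_filter] at hω
            have h5 := hω.2
            rw [h3] at h5
            exact disjoint_left.1 h5 h4 hβ
          rw [h2]
          simp
        · exact not_pop m (E N) Ω1 Ω2 hs2 κ β hβ
      · push Not at h1
        obtain ⟨c, c', hc, hc', hcc⟩ := h1
        refine ⟨gr S C2 E N, hgr, le_max_left _ _, Or.inl
          ⟨fun ρ => (T ρ).biUnion fun κ => (Ω.filter fun ω => ω.1.2 c 1 = κ c ∧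
            ω.1.2 c' 1 = κ c').image fun ω => ω.1.1, ?_, ?_⟩⟩
        · intro ρ
          refine card_biUnion_le.trans ?_
          calc ∑ κ ∈ T ρ, #((Ω.filter fun ω => ω.1.2 c 1 = κ c ∧
              ω.1.2 c' 1 = κ c').image fun ω => ω.1.1)
              ≤ ∑ κ ∈ T ρ, C2 := sum_le_sum fun κ _ => hC2 c c' hcc _ _
            _ = #(T ρ) * C2 := by rw [sum_const, smul_eq_mul]
            _ ≤ N * 1 * 1 * (C2 + 1) := by
                have := hT1 ρ
                calc #(T ρ) * C2 ≤ N * (C2 + 1) := by gcongr; omega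
                  _ = _ := by ring
            _ ≤ gr S C2 E N := by
                unfold gr
                gcongr <;> omega
        · refine hc1.trans ?_
          refine Nat.mul_le_mul hNg (card_le_card ?_)
          intro ω hω
          rw [mem_filter]
          refine ⟨hs1 hω, ?_⟩
          rw [mem_biUnion]
          refine ⟨ends m ω.1, hT2 ω hω, ?_⟩
          rw [mem_image]
          refine ⟨ω, ?_, rfl⟩
          rw [mem_filter]
          refine ⟨hs1 hω, ?_, ?_⟩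
          · simp [ends, hc]
          · simp [ends, hc']
    · push Not at hA
      -- the blocked elements
      have hblk : #Ω1 ≤ 2 * #{ω ∈ Ω1 | ¬ Disjoint (inn m ω.1)
          (pop m (E N) Ω1 (ends m ω.1, ω.2))} := by
        have h2 := card_filter_add_card_filter_not (s := Ω1)
          (fun ω => Disjoint (inn m ω.1) (pop m (E N) Ω1 (ends m ω.1, ω.2)))
        rw [← hΩ2] at h2
        omega
      set P : ι → ℕ → Finset (Obj ι V × Ξ) := fun c a =>
        {ω ∈ Ω1 | ω.1.2 c a ∈ pop m (E N) Ω1 (ends m ω.1, ω.2)} with hP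
      set P0 : Finset (Obj ι V × Ξ) :=
        {ω ∈ Ω1 | ω.1.1 ∈ pop m (E N) Ω1 (ends m ω.1, ω.2)} with hP0
      have hcov : #{ω ∈ Ω1 | ¬ Disjoint (inn m ω.1) (pop m (E N) Ω1 (ends m ω.1, ω.2))} ≤
          #P0 + ∑ c, ∑ a ∈ Ico 1 (m c), #(P c a) := by
        have h3 : ({ω ∈ Ω1 | ¬ Disjoint (inn m ω.1) (pop m (E N) Ω1 (ends m ω.1, ω.2))} :
            Finset (Obj ι V × Ξ)) ⊆ P0 ∪ univ.biUnion fun c => (Ico 1 (m c)).biUnion fun a =>
              P c a := by
          intro ω hω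
          rw [mem_filter, not_disjoint_iff] at hω
          obtain ⟨hω1, β, hβ1, hβ2⟩ := hω
          rw [mem_inn] at hβ1
          rw [mem_union]
          rcases hβ1 with h | ⟨c, a, ha1, ha2, h⟩
          · left
            rw [hP0, mem_filter]
            exact ⟨hω1, h ▸ hβ2⟩
          · right
            rw [mem_biUnion]
            refine ⟨c, mem_univ _, ?_⟩
            rw [mem_biUnion]
            refine ⟨a, mem_Ico.2 ⟨ha1, ha2⟩, ?_⟩
            rw [hP, mem_filter]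
            exact ⟨hω1, h ▸ hβ2⟩
        refine (card_le_card h3).trans ((card_union_le _ _).trans (Nat.add_le_add_left ?_ _))
        refine card_biUnion_le.trans (sum_le_sum fun c _ => card_biUnion_le)
      have hgrow : ∀ x : ℕ, N * (2 * S * x) ≤ gr S C2 E N * x := by
        intro x
        unfold gr
        calc N * (2 * S * x) = N * (2 * S) * 1 * 1 * x := by ring
          _ ≤ N * (2 * S) * (E N + 1) * (C2 + 1) * x := by gcongr <;> omega
      have hgrow2 : N * (E N * S) ≤ gr S C2 E N := by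
        unfold gr
        calc N * (E N * S) = N * (1 * S) * E N * 1 := by ring
          _ ≤ N * (2 * S) * (E N + 1) * (C2 + 1) := by gcongr <;> omega
      -- pigeonhole
      have hpig : #Ω1 ≤ 2 * S * #P0 ∨ ∃ c a, 1 ≤ a ∧ a < m c ∧ #Ω1 ≤ 2 * S * #(P c a) := by
        by_contra hcon
        push Not at hcon
        obtain ⟨hc0, hca⟩ := hcon
        have h6 : 2 * S * (∑ c, ∑ a ∈ Ico 1 (m c), #(P c a)) ≤ (S - 1) * #Ω1 := by
          rw [mul_sum]
          calc ∑ c, 2 * S * ∑ a ∈ Ico 1 (m c), #(P c a)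
              ≤ ∑ c, m c * #Ω1 := by
                refine sum_le_sum fun c _ => ?_
                rw [mul_sum]
                calc ∑ a ∈ Ico 1 (m c), 2 * S * #(P c a) ≤ ∑ a ∈ Ico 1 (m c), #Ω1 := by
                      refine sum_le_sum fun a ha => ?_
                      rw [mem_Ico] at ha
                      exact (hca c a ha.1 ha.2).le
                  _ = (m c - 1) * #Ω1 := by rw [sum_const, Nat.card_Ico, smul_eq_mul]
                  _ ≤ m c * #Ω1 := by gcongr; omega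
            _ = (∑ c, m c) * #Ω1 := by rw [sum_mul]
            _ ≤ (S - 1) * #Ω1 := by gcongr; omega
        have h5 : 2 * S * (#P0 + ∑ c, ∑ a ∈ Ico 1 (m c), #(P c a)) < S * #Ω1 := by
          calc 2 * S * (#P0 + ∑ c, ∑ a ∈ Ico 1 (m c), #(P c a))
              = 2 * S * #P0 + 2 * S * (∑ c, ∑ a ∈ Ico 1 (m c), #(P c a)) := by ring
            _ < #Ω1 + (S - 1) * #Ω1 := by omega
            _ = S * #Ω1 := by
                obtain ⟨S', hS'⟩ : ∃ S', S = S' + 1 := ⟨S - 1, by omega⟩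
                rw [hS']
                simp only [Nat.add_sub_cancel]
                ring
        have h7 : S * #Ω1 ≤ 2 * S * (#P0 + ∑ c, ∑ a ∈ Ico 1 (m c), #(P c a)) := by
          calc S * #Ω1 ≤ S * (2 * (#P0 + ∑ c, ∑ a ∈ Ico 1 (m c), #(P c a))) := by
                gcongr
                exact hblk.trans (Nat.mul_le_mul_left _ hcov)
            _ = _ := by ring
        omega
      rcases hpig with h0 | ⟨c, a, ha1, ha2, hca⟩
      · -- the centre is popular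
        refine ⟨gr S C2 E N, hgr, le_max_left _ _, Or.inl
          ⟨fun ρ => (T ρ).biUnion fun κ => pop m (E N) Ω1 (κ, ρ.2), ?_, ?_⟩⟩
        · intro ρ
          refine card_biUnion_le.trans ?_
          calc ∑ κ ∈ T ρ, #(pop m (E N) Ω1 (κ, ρ.2)) ≤ ∑ κ ∈ T ρ, E N * S :=
                sum_le_sum fun κ _ => hpop _
            _ = #(T ρ) * (E N * S) := by rw [sum_const, smul_eq_mul]
            _ ≤ N * (E N * S) := Nat.mul_le_mul_right _ (hT1 ρ)
            _ ≤ gr S C2 E N := hgrow2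
        · calc #Ω ≤ N * #Ω1 := hc1
            _ ≤ N * (2 * S * #P0) := Nat.mul_le_mul_left _ h0
            _ ≤ gr S C2 E N * #P0 := hgrow _
            _ ≤ _ := by
              refine Nat.mul_le_mul_left _ (card_le_card ?_)
              intro ω hω
              rw [hP0, mem_filter] at hω
              rw [mem_filter]
              refine ⟨hs1 hω.1, ?_⟩
              rw [mem_biUnion]
              exact ⟨ends m ω.1, hT2 ω hω.1, hω.2⟩
      · -- an inner vertex is popular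
        have hm' : ∀ c', 1 ≤ Function.update m c a c' ∧ Function.update m c a c' ≤ m0 c' := by
          intro c'
          by_cases h : c' = c
          · subst h
            rw [Function.update_self]
            exact ⟨ha1, ha2.le.trans (hm c').2⟩
          · rw [Function.update_of_ne h]
            exact hm c'
        have hsum' : ∑ c', Function.update m c a c' < n := by
          have : ∑ c', Function.update m c a c' < ∑ c', m c' := by
            refine sum_lt_sum (fun c' _ => ?_) ⟨c, mem_univ _, ?_⟩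
            · by_cases h : c' = c
              · subst h
                rw [Function.update_self]
                exact ha2.le
              · rw [Function.update_of_ne h]
            · rw [Function.update_self]
              exact ha2
          omega
        refine (hNm Ω hne hC2 (Function.update m c a) (P c a) hm' hsum' ?_ ?_ ?_).mono
          (le_max_right _ _)
        · exact (filter_subset _ _).trans hs1
        · calc #Ω ≤ N * #Ω1 := hc1
            _ ≤ N * (2 * S * #(P c a)) := Nat.mul_le_mul_left _ hca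
            _ ≤ gr S C2 E N * #(P c a) := hgrow _
        · refine ⟨fun ρ => (T ρ).biUnion fun κ => (pop m (E N) Ω1 (κ, ρ.2)).image fun β =>
            Function.update κ c β, ?_, ?_⟩
          · intro ρ
            refine card_biUnion_le.trans ?_
            calc ∑ κ ∈ T ρ, #((pop m (E N) Ω1 (κ, ρ.2)).image fun β => Function.update κ c β)
                ≤ ∑ κ ∈ T ρ, E N * S := sum_le_sum fun κ _ => card_image_le.trans (hpop _)
              _ = #(T ρ) * (E N * S) := by rw [sum_const, smul_eq_mul]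
              _ ≤ N * (E N * S) := Nat.mul_le_mul_right _ (hT1 ρ)
              _ ≤ gr S C2 E N := hgrow2
          · intro ω hω
            rw [hP, mem_filter] at hω
            rw [mem_biUnion]
            refine ⟨ends m ω.1, hT2 ω hω.1, ?_⟩
            rw [mem_image]
            refine ⟨ω.1.2 c a, hω.2, ?_⟩
            funext c'
            by_cases h : c' = c
            · subst h
              simp [ends]
            · simp [ends, Function.update_of_ne h]

end A5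

theorem acl {ι : Type} [Fintype ι] (m0 : ι → ℕ) (hm0 : ∀ c, 1 ≤ m0 c) (C2 : ℕ) (E : ℕ → ℕ) :
    ∃ Nm : ℕ, ∀ {V Ξ : Type} (Ω : Finset (Obj ι V × Ξ)), Ω.Nonempty →
      (∀ c c', c ≠ c' → ∀ w w', #((Ω.filter fun ω => ω.1.2 c 1 = w ∧ ω.1.2 c' 1 = w').image
        fun ω => ω.1.1) ≤ C2) →
      ∃ N, 1 ≤ N ∧ N ≤ Nm ∧
        ((∃ T : (ι → V) × Ξ → Finset V, (∀ ρ, #(T ρ) ≤ N) ∧
            #Ω ≤ N * #{ω ∈ Ω | ω.1.1 ∈ T (ends m0 ω.1, ω.2)}) ∨
          ∃ (m : ι → ℕ) (Ω1 Ω2 : Finset (Obj ι V × Ξ)), (∀ c, 1 ≤ m c ∧ m c ≤ m0 c) ∧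
            (∀ c c', m c = 1 → m c' = 1 → c = c') ∧ Ω1 ⊆ Ω ∧ Ω2 ⊆ Ω1 ∧ #Ω ≤ N * #Ω1 ∧
            #Ω1 ≤ 2 * #Ω2 ∧
            (∃ T : (ι → V) × Ξ → Finset (ι → V), (∀ ρ, #(T ρ) ≤ N) ∧
              ∀ ω ∈ Ω1, ends m ω.1 ∈ T (ends m0 ω.1, ω.2)) ∧
            ∀ (κ : (ι → V) × Ξ) (β : V),
              E N * #{ω ∈ Ω2 | (ends m ω.1, ω.2) = κ ∧ β ∈ inn m ω.1} ≤
                #{ω ∈ Ω1 | (ends m ω.1, ω.2) = κ}) := by
  obtain ⟨Nm, h⟩ := A5.acl_ind m0 C2 E (∑ c, m0 c + 1) 1 le_rfl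
  refine ⟨Nm, ?_⟩
  intro V Ξ Ω hne hC
  refine h Ω hne hC m0 Ω (fun c => ⟨hm0 c, le_rfl⟩) (Nat.lt_succ_self _) (Subset.refl _)
    (by omega) ⟨fun ρ => {ρ.1}, fun ρ => by simp, fun ω _ => by simp⟩

end Pool.Agent.Helper14.SP
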