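import Pool.Agent.Helper14.SP2.F.G2

/-!
# Project SP2: the closure lemma without extra data
-/

set_option autoImplicit false

namespace Pool.Agent.Helper14.SP

open Finset Classical
open Pool.Agent.Helper97.RE (IsPath Rich PP Clean Cb)

theorem card_fst_unit {α : Type} [DecidableEq α] (S : Finset (α × Unit)) (p : α → Prop)
    [DecidablePred p] [DecidablePred fun ω : α × Unit => p ω.1] :
    #{x ∈ S.image Prod.fst | p x} = #{ω ∈ S | p ω.1} := by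
  have h : ({x ∈ S.image Prod.fst | p x} : Finset α) = ({ω ∈ S | p ω.1}).image Prod.fst := by
    ext x
    simp only [mem_filter, mem_image]
    constructor
    · rintro ⟨⟨ω, h1, h2⟩, h3⟩
      exact ⟨ω, ⟨h1, by rw [h2]; exact h3⟩, h2⟩
    · rintro ⟨ω, ⟨h1, h2⟩, h3⟩
      exact ⟨⟨ω, h1, h3⟩, by rw [← h3]; exact h2⟩
  rw [h, card_image_of_injective]
  rintro ⟨a, ⟨⟩⟩ ⟨b, ⟨⟩⟩ hab
  simpa using hab

theorem card_fst_unit' {α : Type} [DecidableEq α] (S : Finset (α × Unit)) :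
    #(S.image Prod.fst) = #S := by
  have := card_fst_unit S (fun _ => True)
  simpa using this

theorem acl_unit {ι : Type} [Fintype ι] (m0 : ι → ℕ) (hm0 : ∀ c, 1 ≤ m0 c) (C2 : ℕ)
    (E : ℕ → ℕ) : ∃ Nm : ℕ, ∀ {V : Type} (Ω : Finset (Obj ι V)), Ω.Nonempty →
      (∀ c c', c ≠ c' → ∀ w w', #((Ω.filter fun x => x.2 c 1 = w ∧ x.2 c' 1 = w').image
        Prod.fst) ≤ C2) →
      ∃ N, 1 ≤ N ∧ N ≤ Nm ∧
        ((∃ T : (ι → V) → Finset V, (∀ ρ, #(T ρ) ≤ N) ∧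
            #Ω ≤ N * #{x ∈ Ω | x.1 ∈ T (ends m0 x)}) ∨
          ∃ (m : ι → ℕ) (Ω1 Ω2 : Finset (Obj ι V)), (∀ c, 1 ≤ m c ∧ m c ≤ m0 c) ∧
            (∀ c c', m c = 1 → m c' = 1 → c = c') ∧ Ω1 ⊆ Ω ∧ Ω2 ⊆ Ω1 ∧ #Ω ≤ N * #Ω1 ∧
            #Ω1 ≤ 2 * #Ω2 ∧
            (∃ T : (ι → V) → Finset (ι → V), (∀ ρ, #(T ρ) ≤ N) ∧
              ∀ x ∈ Ω1, ends m x ∈ T (ends m0 x)) ∧
            ∀ (κ : ι → V) (β : V), E N * #{x ∈ Ω2 | ends m x = κ ∧ β ∈ inn m x} ≤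
                #{x ∈ Ω1 | ends m x = κ}) := by
  obtain ⟨Nm, h⟩ := acl m0 hm0 C2 E
  refine ⟨Nm, ?_⟩
  intro V Ω hne hC
  obtain ⟨N, hN1, hN2, h3⟩ := h (Ξ := Unit) (Ω.image fun x => (x, ())) (hne.image _) (by
    intro c c' hcc w w'
    refine le_trans (card_le_card ?_) (hC c c' hcc w w')
    intro u hu
    simp only [mem_image, mem_filter] at hu ⊢
    obtain ⟨ω, ⟨⟨x, hx, rfl⟩, h1, h2⟩, rfl⟩ := hu
    exact ⟨x, ⟨hx, h1, h2⟩, rfl⟩)
  have hcard : #(Ω.image fun x => (x, ())) = #Ω :=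
    card_image_of_injective _ (fun a b hab => by simpa using hab)
  refine ⟨N, hN1, hN2, ?_⟩
  rcases h3 with ⟨T, hT, h4⟩ | ⟨m, Ω1, Ω2, hm, hm1, hs1, hs2, hc1, hc2, ⟨T, hT, hT'⟩, hit⟩
  · left
    refine ⟨fun κ => T (κ, ()), fun κ => hT _, ?_⟩
    rw [hcard] at h4
    refine h4.trans (Nat.mul_le_mul_left _ ?_)
    rw [← card_fst_unit']
    refine card_le_card ?_
    intro x hx
    simp only [mem_image, mem_filter] at hx ⊢
    obtain ⟨ω, ⟨⟨y, hy, rfl⟩, h1⟩, rfl⟩ := hx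
    exact ⟨hy, h1⟩
  · right
    have hmem : ∀ S : Finset (Obj ι V × Unit), ∀ x, x ∈ S.image Prod.fst ↔ (x, ()) ∈ S := by
      intro S x
      rw [mem_image]
      constructor
      · rintro ⟨⟨a, ⟨⟩⟩, h1, rfl⟩
        exact h1
      · intro h1
        exact ⟨_, h1, rfl⟩
    refine ⟨m, Ω1.image Prod.fst, Ω2.image Prod.fst, hm, hm1, ?_, image_subset_image hs2, ?_, ?_,
      ⟨fun κ => T (κ, ()), fun κ => hT _, ?_⟩, ?_⟩
    · intro x hx
      rw [hmem] at hx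
      have := hs1 hx
      simpa using this
    · rw [card_fst_unit', ← hcard]
      exact hc1
    · rw [card_fst_unit', card_fst_unit']
      exact hc2
    · intro x hx
      rw [hmem] at hx
      exact hT' _ hx
    · intro κ β
      have := hit (κ, ()) β
      rw [card_fst_unit, card_fst_unit]
      simpa using this

end Pool.Agent.Helper14.SP
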