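import Pool.Agent.Helper14.SP2.F.Base

/-!
# Project SP2, piece B1: counting walk systems (fibres of truncation, all walk systems)
-/

set_option autoImplicit false

namespace Pool.Agent.Helper14.SP

open Finset Classical
open Pool.Agent.Helper97.RE (IsPath Rich PP Clean Cb)

variable {ι V : Type} [Fintype ι] [Fintype V]

omit [Fintype V] in
private theorem b1_sum_dn (j : ι → ℕ) (c : ι) (hc : 0 < j c) :
    ∑ a, dn j c a + 1 = ∑ a, j a := by
  unfold dn
  rw [← Finset.add_sum_erase univ _ (mem_univ c), ← Finset.add_sum_erase univ j (mem_univ c),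
    Function.update_self]
  have h : ∑ a ∈ univ.erase c, Function.update j c (j c - 1) a = ∑ a ∈ univ.erase c, j a := by
    refine sum_congr rfl fun a ha => ?_
    rw [Function.update_of_ne (ne_of_mem_erase ha)]
  rw [h]
  omega

omit [Fintype ι] in
private theorem dn_le (j : ι → ℕ) (c : ι) (a : ι) : dn j c a ≤ j a := by
  unfold dn
  by_cases h : a = c
  · subst h
    rw [Function.update_self]
    omega
  · rw [Function.update_of_ne h]

omit [Fintype ι] [Fintype V] in
private theorem wk_tr {G : SimpleGraph V} {i j : ι → ℕ} (hij : ∀ c, i c ≤ j c) {x : Obj ι V}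
    (h : Wk G j x) : Wk G i (tr i x) where
  can := tr_idem i x
  start c := by
    rw [tr_snd, Nat.zero_min]
    exact h.start c
  adj c m hm := by
    rw [tr_snd_le x hm.le, tr_snd_le x hm]
    exact h.adj c m (hm.trans_le (hij c))

omit [Fintype ι] in
/-- prolong leg `c` of `x` by one vertex `w` -/
private noncomputable def ext1 (j : ι → ℕ) (c : ι) (x : Obj ι V) (w : V) : Obj ι V :=
  (x.1, fun a m => if a = c ∧ j c ≤ m then w else x.2 a m)

private theorem fiber_le (G : SimpleGraph V) (Δ : ℕ) (hΔ : ∀ w, G.degree w ≤ Δ) (j : ι → ℕ)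
    (c : ι) (hc : 0 < j c) (y : Obj ι V) :
    #{x ∈ WK G j | tr (dn j c) x = y} ≤ Δ := by
  refine le_trans ?_ (hΔ (y.2 c (j c - 1)))
  rw [← SimpleGraph.card_neighborFinset_eq_degree]
  refine Finset.card_le_card_of_injOn (fun x => x.2 c (j c)) ?_ ?_
  · intro x hx
    rw [mem_coe, mem_filter, mem_WK] at hx
    obtain ⟨hx, hxy⟩ := hx
    rw [mem_coe, SimpleGraph.mem_neighborFinset]
    have h1 : y.2 c (j c - 1) = x.2 c (j c - 1) := by
      rw [← hxy]
      refine tr_snd_le x ?_
      unfold dn
      rw [Function.update_self]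
    rw [h1]
    have h2 := hx.adj c (j c - 1) (by omega)
    rwa [Nat.sub_add_cancel hc] at h2
  · intro x hx x' hx' he
    rw [mem_coe, mem_filter, mem_WK] at hx hx'
    obtain ⟨hx, hxy⟩ := hx
    obtain ⟨hx', hxy'⟩ := hx'
    have he' : x.2 c (j c) = x'.2 c (j c) := he
    have h1 : tr (dn j c) x = tr (dn j c) x' := by rw [hxy, hxy']
    rw [tr_eq_iff] at h1
    rw [← hx.can, ← hx'.can, tr_eq_iff]
    refine ⟨h1.1, fun a m hm => ?_⟩
    by_cases ha : a = c ∧ m = j c
    · obtain ⟨rfl, rfl⟩ := ha
      exact he'
    · refine h1.2 a m ?_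
      unfold dn
      by_cases hac : a = c
      · subst hac
        rw [Function.update_self]
        have : m ≠ j a := fun h => ha ⟨rfl, h⟩
        omega
      · rw [Function.update_of_ne hac]
        exact hm

theorem card_wk_fiber (G : SimpleGraph V) (Δ : ℕ) (hΔ : ∀ w, G.degree w ≤ Δ) (i j : ι → ℕ)
    (hij : ∀ c, i c ≤ j c) (y : Obj ι V) :
    #{x ∈ WK G j | tr i x = y} ≤ Δ ^ (∑ c, (j c - i c)) := by
  obtain ⟨n, hn⟩ : ∃ n, ∑ c, (j c - i c) = n := ⟨_, rfl⟩
  rw [hn]
  induction n generalizing j with
  | zero =>
    have h0 : ∀ c, j c = i c := by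
      intro c
      have h1 := (Finset.sum_eq_zero_iff.1 hn) c (mem_univ c)
      have h2 := hij c
      omega
    have hji : j = i := funext h0
    subst hji
    rw [pow_zero, Finset.card_le_one]
    intro x hx x' hx'
    rw [mem_filter, mem_WK] at hx hx'
    rw [← hx.1.can, ← hx'.1.can, hx.2, hx'.2]
  | succ n ih =>
    obtain ⟨c, hc⟩ : ∃ c, i c < j c := by
      by_contra hno
      push Not at hno
      have : ∑ c, (j c - i c) = 0 := Finset.sum_eq_zero fun c _ => by
        have := hno c
        omega
      omega
    have hij' : ∀ a, i a ≤ dn j c a := by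
      intro a
      unfold dn
      by_cases hac : a = c
      · subst hac
        rw [Function.update_self]
        omega
      · rw [Function.update_of_ne hac]
        exact hij a
    have hs : ∑ a, (dn j c a - i a) = n := by
      have h1 := Finset.add_sum_erase univ (fun a => j a - i a) (mem_univ c)
      have h2 := Finset.add_sum_erase univ (fun a => dn j c a - i a) (mem_univ c)
      have h3 : ∑ a ∈ univ.erase c, (dn j c a - i a) = ∑ a ∈ univ.erase c, (j a - i a) := by
        refine sum_congr rfl fun a ha => ?_
        unfold dn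
        rw [Function.update_of_ne (ne_of_mem_erase ha)]
      have h4 : dn j c c = j c - 1 := by
        unfold dn
        rw [Function.update_self]
      rw [h3] at h2
      simp only [h4] at h2
      rw [hn] at h1
      have h5 : (fun a => j a - i a) c = j c - i c := rfl
      omega
    have h := ih (dn j c) hij' hs
    have hle := Finset.card_le_mul_card_image (f := tr (dn j c))
      ({x ∈ WK G j | tr i x = y}) Δ (by
        intro b _
        refine le_trans (card_le_card ?_) (fiber_le G Δ hΔ j c (by omega) b)
        intro x hx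
        rw [mem_filter, mem_filter] at hx
        rw [mem_filter]
        exact ⟨hx.1.1, hx.2⟩)
    refine hle.trans ?_
    rw [pow_succ, mul_comm (Δ ^ n)]
    refine Nat.mul_le_mul_left Δ (le_trans (card_le_card ?_) h)
    intro x hx
    obtain ⟨x', hx', rfl⟩ := mem_image.1 hx
    rw [mem_filter, mem_WK] at hx'
    rw [mem_filter, mem_WK]
    refine ⟨wk_tr (dn_le j c) hx'.1, ?_⟩
    rw [tr_tr hij']
    exact hx'.2

theorem card_wk_le (G : SimpleGraph V) (Δ : ℕ) (hΔ : ∀ w, G.degree w ≤ Δ) (j : ι → ℕ)
    (C : Finset V) : #{x ∈ WK G j | x.1 ∈ C} ≤ #C * Δ ^ (∑ c, j c) := by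
  have hle := Finset.card_le_mul_card_image (f := tr (fun _ => 0))
    ({x ∈ WK G j | x.1 ∈ C}) (Δ ^ (∑ c, j c)) (by
      intro b _
      refine le_trans (card_le_card ?_)
        ((card_wk_fiber G Δ hΔ (fun _ => 0) j (fun _ => Nat.zero_le _) b).trans (le_of_eq ?_))
      · intro x hx
        rw [mem_filter, mem_filter] at hx
        rw [mem_filter]
        exact ⟨hx.1.1, hx.2⟩
      · simp)
  refine hle.trans ?_
  rw [mul_comm]
  refine Nat.mul_le_mul_right _ ?_
  refine le_trans (card_le_card ?_)
    (Finset.card_image_le (s := C) (f := fun u => ((u, fun _ _ => u) : Obj ι V)))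
  intro x hx
  obtain ⟨x', hx', rfl⟩ := mem_image.1 hx
  rw [mem_filter, mem_WK] at hx'
  refine mem_image.2 ⟨x'.1, hx'.2, ?_⟩
  refine Prod.ext rfl ?_
  funext c m
  change x'.1 = x'.2 c (min m 0)
  rw [Nat.min_zero, hx'.1.start c]

theorem card_wk_ge (G : SimpleGraph V) (d : ℕ) (hd : ∀ w, d ≤ G.degree w) (j : ι → ℕ)
    (u : V) : d ^ (∑ c, j c) ≤ #{x ∈ WK G j | x.1 = u} := by
  obtain ⟨n, hn⟩ : ∃ n, ∑ c, j c = n := ⟨_, rfl⟩
  rw [hn]
  induction n generalizing j with
  | zero =>
    rw [pow_zero, Nat.one_le_iff_ne_zero, Finset.card_ne_zero]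
    refine ⟨((u, fun _ _ => u) : Obj ι V), ?_⟩
    rw [mem_filter, mem_WK]
    refine ⟨⟨rfl, fun _ => rfl, fun c m hm => ?_⟩, rfl⟩
    have h1 := (Finset.sum_eq_zero_iff.1 hn) c (mem_univ c)
    omega
  | succ n ih =>
    obtain ⟨c, hc⟩ : ∃ c, 0 < j c := by
      by_contra hno
      push Not at hno
      have : ∑ c, j c = 0 := Finset.sum_eq_zero fun c _ => by
        have := hno c
        omega
      omega
    have hs : ∑ a, dn j c a = n := by
      have := b1_sum_dn j c hc
      omega
    have h := ih (dn j c) hs
    have hmaps : Set.MapsTo (tr (dn j c))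
        (({x ∈ WK G j | x.1 = u} : Finset (Obj ι V)) : Set (Obj ι V))
        (({x ∈ WK G (dn j c) | x.1 = u} : Finset (Obj ι V)) : Set (Obj ι V)) := by
      intro x hx
      rw [mem_coe, mem_filter, mem_WK] at hx ⊢
      exact ⟨wk_tr (dn_le j c) hx.1, hx.2⟩
    rw [Finset.card_eq_sum_card_fiberwise hmaps]
    have hfib : ∀ y ∈ ({x ∈ WK G (dn j c) | x.1 = u} : Finset (Obj ι V)),
        d ≤ #{x ∈ ({x ∈ WK G j | x.1 = u} : Finset (Obj ι V)) | tr (dn j c) x = y} := by
      intro y hy
      rw [mem_filter, mem_WK] at hy
      refine (hd (y.2 c (j c - 1))).trans ?_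
      rw [← SimpleGraph.card_neighborFinset_eq_degree]
      refine Finset.card_le_card_of_injOn (fun w => ext1 j c y w) ?_ ?_
      · intro w hw
        rw [mem_coe, SimpleGraph.mem_neighborFinset] at hw
        rw [mem_coe, mem_filter, mem_filter, mem_WK]
        have hdc : dn j c c = j c - 1 := by
          unfold dn
          rw [Function.update_self]
        refine ⟨⟨⟨?_, ?_, ?_⟩, hy.2⟩, ?_⟩
        · refine Prod.ext rfl ?_
          funext a m
          change (if a = c ∧ j c ≤ min m (j a) then w else y.2 a (min m (j a))) =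
            (if a = c ∧ j c ≤ m then w else y.2 a m)
          by_cases hac : a = c
          · subst hac
            by_cases hm : j a ≤ m
            · rw [if_pos ⟨rfl, by omega⟩, if_pos ⟨rfl, hm⟩]
            · rw [if_neg (fun h => hm (by omega)), if_neg (fun h => hm h.2),
                min_eq_left (by omega)]
          · rw [if_neg (fun h => hac h.1), if_neg (fun h => hac h.1)]
            have h1 := congrFun (congrFun (congrArg Prod.snd hy.1.can) a) m
            have h2 := congrFun (congrFun (congrArg Prod.snd hy.1.can) a) (min m (j a))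
            have h3 : dn j c a = j a := by
              unfold dn
              rw [Function.update_of_ne hac]
            change y.2 a (min m (dn j c a)) = y.2 a m at h1
            rw [h3] at h1
            exact h1
        · intro a
          change (if a = c ∧ j c ≤ 0 then w else y.2 a 0) = y.1
          rw [if_neg (fun h => by omega)]
          exact hy.1.start a
        · intro a m hm
          change G.Adj (if a = c ∧ j c ≤ m then w else y.2 a m)
            (if a = c ∧ j c ≤ m + 1 then w else y.2 a (m + 1))
          by_cases hac : a = c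
          · subst hac
            rw [if_neg (fun h => by omega)]
            by_cases hm1 : j a ≤ m + 1
            · rw [if_pos ⟨rfl, hm1⟩]
              have : m = j a - 1 := by omega
              rw [this]
              exact hw
            · rw [if_neg (fun h => hm1 h.2)]
              refine hy.1.adj a m ?_
              omega
          · rw [if_neg (fun h => hac h.1), if_neg (fun h => hac h.1)]
            refine hy.1.adj a m ?_
            unfold dn
            rw [Function.update_of_ne hac]
            exact hm
        · have h5 : tr (dn j c) (ext1 j c y w) = tr (dn j c) y := by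
            refine tr_eq_iff.2 ⟨rfl, fun a m hm => ?_⟩
            change (if a = c ∧ j c ≤ m then w else y.2 a m) = y.2 a m
            rw [if_neg ?_]
            rintro ⟨rfl, h2⟩
            omega
          exact h5.trans hy.1.can
      · intro w hw w' hw' he
        have h1 := congrFun (congrFun (congrArg Prod.snd he) c) (j c)
        change (if c = c ∧ j c ≤ j c then w else y.2 c (j c)) =
          (if c = c ∧ j c ≤ j c then w' else y.2 c (j c)) at h1
        rwa [if_pos ⟨rfl, le_rfl⟩, if_pos ⟨rfl, le_rfl⟩] at h1
    refine le_trans ?_ (Finset.card_nsmul_le_sum _ _ d hfib)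
    rw [smul_eq_mul, pow_succ]
    exact Nat.mul_le_mul_right d h

end Pool.Agent.Helper14.SP
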