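import Pool.Agent.Helper14.SP2.F.G1

/-!
# Project SP2: piece B2, walk systems through a given set, walk systems which are not copies
-/

set_option autoImplicit false

namespace Pool.Agent.Helper14.SP

open Finset Classical
open Pool.Agent.Helper97.RE (IsPath Rich PP Clean Cb)

variable {ι V : Type} [Fintype ι] [Fintype V]

omit [Fintype ι] [Fintype V] in
private theorem wk_tr2 {G : SimpleGraph V} {i j : ι → ℕ} (hij : ∀ c, i c ≤ j c) {x : Obj ι V}
    (h : Wk G j x) : Wk G i (tr i x) where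
  can := tr_idem i x
  start c := by
    rw [tr_snd_le x (Nat.zero_le _)]
    exact h.start c
  adj c m hm := by
    rw [tr_snd_le x hm.le, tr_snd_le x (Nat.succ_le_of_lt hm)]
    exact h.adj c m (hm.trans_le (hij c))

omit [Fintype V] in
private theorem sum_upd (j : ι → ℕ) (c : ι) (a : ℕ) :
    ∑ b, Function.update j c a b + j c = ∑ b, j b + a := by
  rw [← Finset.add_sum_erase univ _ (mem_univ c), ← Finset.add_sum_erase univ j (mem_univ c),
    Function.update_self]
  have h : ∑ b ∈ univ.erase c, Function.update j c a b = ∑ b ∈ univ.erase c, j b := by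
    refine sum_congr rfl fun b hb => ?_
    rw [Function.update_of_ne (ne_of_mem_erase hb)]
  rw [h]
  omega

omit [Fintype ι] in
private theorem upd_le {j : ι → ℕ} {c : ι} {a : ℕ} (h : a ≤ j c) (b : ι) :
    Function.update j c a b ≤ j b := by
  by_cases hb : b = c
  · subst hb
    rw [Function.update_self]
    exact h
  · rw [Function.update_of_ne hb]

/-- walk systems whose vertex at level `m` of leg `c` is determined by the rest of the system
below that level -/
theorem card_wk_det (G : SimpleGraph V) (Δ : ℕ) (hΔ : ∀ w, G.degree w ≤ Δ) (j : ι → ℕ)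
    (C : Finset V) (c : ι) (m : ℕ) (h1 : 1 ≤ m) (hm : m ≤ j c) (φ : Obj ι V → V)
    (hφ : ∀ x, φ (tr (Function.update j c (m - 1)) x) = φ x) :
    #{x ∈ WK G j | x.1 ∈ C ∧ x.2 c m = φ x} ≤ #C * Δ ^ (∑ c, j c - 1) := by
  set i0 : ι → ℕ := Function.update j c (m - 1) with hi0
  set i1 : ι → ℕ := Function.update j c m with hi1
  have hi0j : ∀ b, i0 b ≤ j b := upd_le (by omega)
  have hi1j : ∀ b, i1 b ≤ j b := upd_le hm
  have hs0 := sum_upd j c (m - 1)
  have hs1 := sum_upd j c m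
  rw [← hi0] at hs0
  rw [← hi1] at hs1
  have hsum1 : ∑ b, (j b - i1 b) = j c - m := by
    have h1 : ∑ b, j b = ∑ b, (j b - i1 b) + ∑ b, i1 b := by
      rw [← sum_add_distrib]
      exact sum_congr rfl fun b _ => by
        have := hi1j b
        omega
    omega
  have hA := card_le_mul_card_image_of_maps_to
    (s := {x ∈ WK G j | x.1 ∈ C ∧ x.2 c m = φ x}) (t := {x ∈ WK G i0 | x.1 ∈ C}) (f := tr i0)
    (by
      intro x hx
      simp only [mem_filter, mem_WK] at hx ⊢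
      exact ⟨wk_tr2 hi0j hx.1, hx.2.1⟩) (Δ ^ (j c - m)) (by
      intro y _
      rcases ({x ∈ {x ∈ WK G j | x.1 ∈ C ∧ x.2 c m = φ x} | tr i0 x = y}).eq_empty_or_nonempty
        with he | ⟨x₀, hx₀⟩
      · rw [he]
        simp
      · simp only [mem_filter, mem_WK] at hx₀
        rw [← hsum1]
        refine le_trans (card_le_card ?_) (card_wk_fiber G Δ hΔ i1 j hi1j (tr i1 x₀))
        intro x hx
        simp only [mem_filter, mem_WK] at hx ⊢
        refine ⟨hx.1.1, ?_⟩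
        have h0 : tr i0 x = tr i0 x₀ := hx.2.trans hx₀.2.symm
        rw [tr_eq_iff] at h0 ⊢
        refine ⟨h0.1, fun b l hl => ?_⟩
        by_cases hb : b = c
        · subst hb
          rw [hi1, Function.update_self] at hl
          rcases Nat.lt_or_ge l m with hlm | hlm
          · exact h0.2 b l (by rw [hi0, Function.update_self]; omega)
          · have hlm' : l = m := le_antisymm hl hlm
            subst hlm'
            rw [hx.1.2.2, hx₀.1.2.2, ← hφ x, ← hφ x₀, hx.2, hx₀.2]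
        · rw [hi1, Function.update_of_ne hb] at hl
          exact h0.2 b l (by rw [hi0, Function.update_of_ne hb]; exact hl))
  refine hA.trans ?_
  refine (Nat.mul_le_mul_left _ (card_wk_le G Δ hΔ i0 C)).trans (le_of_eq ?_)
  rw [mul_comm, mul_assoc, ← pow_add]
  congr 2
  omega

theorem card_wk_hit (G : SimpleGraph V) (Δ : ℕ) (hΔ : ∀ w, G.degree w ≤ Δ) (j : ι → ℕ)
    (C Y : Finset V) :
    #{x ∈ WK G j | x.1 ∈ C ∧ ∃ c m, 1 ≤ m ∧ m ≤ j c ∧ x.2 c m ∈ Y} ≤
      (∑ c, j c) * (#Y * (#C * Δ ^ (∑ c, j c - 1))) := by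
  have hsub : ({x ∈ WK G j | x.1 ∈ C ∧ ∃ c m, 1 ≤ m ∧ m ≤ j c ∧ x.2 c m ∈ Y} : Finset (Obj ι V)) ⊆
      univ.biUnion fun c => (Icc 1 (j c)).biUnion fun m => Y.biUnion fun y =>
        {x ∈ WK G j | x.1 ∈ C ∧ x.2 c m = y} := by
    intro x hx
    simp only [mem_filter] at hx
    obtain ⟨hw, hC, c, m, h1, hm, hy⟩ := hx
    simp only [mem_biUnion, mem_univ, true_and, mem_Icc, mem_filter]
    exact ⟨c, m, ⟨h1, hm⟩, _, hy, hw, hC, rfl⟩
  refine (card_le_card hsub).trans (card_biUnion_le.trans ?_)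
  rw [sum_mul]
  refine sum_le_sum fun c _ => card_biUnion_le.trans ?_
  have h2 : ∀ m ∈ Icc 1 (j c), #(Y.biUnion fun y => {x ∈ WK G j | x.1 ∈ C ∧ x.2 c m = y}) ≤
      #Y * (#C * Δ ^ (∑ c, j c - 1)) := by
    intro m hm
    rw [mem_Icc] at hm
    refine card_biUnion_le.trans ?_
    rw [← smul_eq_mul, ← sum_const]
    exact sum_le_sum fun y _ => card_wk_det G Δ hΔ j C c m hm.1 hm.2 (fun _ => y) fun _ => rfl
  refine (sum_le_sum h2).trans ?_
  rw [sum_const, Nat.card_Icc, smul_eq_mul, Nat.add_sub_cancel]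

theorem card_wk_not_sp (G : SimpleGraph V) (Δ : ℕ) (hΔ : ∀ w, G.degree w ≤ Δ) (j : ι → ℕ)
    (C : Finset V) :
    #{x ∈ WK G j | x.1 ∈ C ∧ ¬ Sp G j x} ≤
      (∑ c, (j c + 1)) ^ 2 * (#C * Δ ^ (∑ c, j c - 1)) := by
  set P : Finset (Σ _ : ι, ℕ) := univ.sigma fun c => range (j c + 1) with hP
  have hPc : #P = ∑ c, (j c + 1) := by
    rw [hP, card_sigma]
    exact sum_congr rfl fun c _ => card_range _
  have hsub : ({x ∈ WK G j | x.1 ∈ C ∧ ¬ Sp G j x} : Finset (Obj ι V)) ⊆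
      (P ×ˢ P).biUnion fun pq => {x ∈ WK G j | (1 ≤ pq.1.2 ∧ (pq.2.1 = pq.1.1 → pq.2.2 < pq.1.2)) ∧
        x.1 ∈ C ∧ x.2 pq.1.1 pq.1.2 = x.2 pq.2.1 pq.2.2} := by
    intro x hx
    simp only [mem_filter, mem_WK] at hx
    obtain ⟨hw, hC, hn⟩ := hx
    have h3 : ∃ c c' m m', 1 ≤ m ∧ m ≤ j c ∧ m' ≤ j c' ∧ x.2 c m = x.2 c' m' ∧
        ¬ (c = c' ∧ m = m') := by
      by_contra hcon
      push Not at hcon
      exact hn ⟨hw.start, hw.adj, fun c c' m m' h1 h2 h3 h4 => by
        by_contra h5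
        exact h5 (hcon c c' m m' h1 h2 h3 h4)⟩
    obtain ⟨c, c', m, m', h1, h2, h2', he, hne⟩ := h3
    simp only [mem_biUnion, mem_product, mem_filter, mem_WK]
    by_cases hs : c' = c ∧ m < m'
    · obtain ⟨rfl, hlt⟩ := hs
      refine ⟨(⟨c', m'⟩, ⟨c', m⟩), ⟨?_, ?_⟩, hw, ⟨?_, fun _ => hlt⟩, hC, he.symm⟩
      · rw [hP, mem_sigma]
        exact ⟨mem_univ _, mem_range.2 (Nat.lt_succ_of_le h2')⟩
      · rw [hP, mem_sigma]
        exact ⟨mem_univ _, mem_range.2 (Nat.lt_succ_of_le h2)⟩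
      · exact h1.trans hlt.le
    · refine ⟨(⟨c, m⟩, ⟨c', m'⟩), ⟨?_, ?_⟩, hw, ⟨h1, fun hcc => ?_⟩, hC, he⟩
      · rw [hP, mem_sigma]
        exact ⟨mem_univ _, mem_range.2 (Nat.lt_succ_of_le h2)⟩
      · rw [hP, mem_sigma]
        exact ⟨mem_univ _, mem_range.2 (Nat.lt_succ_of_le h2')⟩
      · change c' = c at hcc
        change m' < m
        have h6 : ¬ m < m' := fun h => hs ⟨hcc, h⟩
        have h7 : m ≠ m' := fun h => hne ⟨hcc.symm, h⟩
        omega
  refine (card_le_card hsub).trans (card_biUnion_le.trans ?_)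
  have h4 : ∀ pq ∈ P ×ˢ P,
      #{x ∈ WK G j | (1 ≤ pq.1.2 ∧ (pq.2.1 = pq.1.1 → pq.2.2 < pq.1.2)) ∧
        x.1 ∈ C ∧ x.2 pq.1.1 pq.1.2 = x.2 pq.2.1 pq.2.2} ≤ #C * Δ ^ (∑ c, j c - 1) := by
    rintro ⟨⟨c, m⟩, ⟨c', m'⟩⟩ hpq
    rw [mem_product, hP, mem_sigma, mem_sigma, mem_range, mem_range] at hpq
    obtain ⟨⟨_, hm⟩, ⟨_, hm'⟩⟩ := hpq
    change m < j c + 1 at hm
    change m' < j c' + 1 at hm'
    dsimp only
    by_cases hc : 1 ≤ m ∧ (c' = c → m' < m)
    · refine le_trans (card_le_card ?_) (card_wk_det G Δ hΔ j C c m hc.1 (by omega)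
        (fun x => x.2 c' m') ?_)
      · intro x hx
        simp only [mem_filter] at hx ⊢
        exact ⟨hx.1, hx.2.2⟩
      · intro x
        refine tr_snd_le x ?_
        by_cases hcc : c' = c
        · subst hcc
          rw [Function.update_self]
          have := hc.2 rfl
          omega
        · rw [Function.update_of_ne hcc]
          omega
    · rw [filter_false_of_mem]
      · simp
      · intro x _ hx
        exact hc hx.1
  refine (sum_le_sum h4).trans (le_of_eq ?_)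
  rw [sum_const, card_product, smul_eq_mul, hPc, sq]

end Pool.Agent.Helper14.SP
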