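import Pool.Agent.Helper14.SP2.F.G1

/-!
# Project SP2: piece B3, walk systems with a given window
-/

set_option autoImplicit false

namespace Pool.Agent.Helper14.SP

open Finset Classical
open Pool.Agent.Helper97.RE (IsPath Rich PP Clean Cb)

variable {ι V : Type} [Fintype ι] [Fintype V]

/-- the general bound: count the images under truncation -/
theorem card_le_image_tr (G : SimpleGraph V) (Δ : ℕ) (hΔ : ∀ w, G.degree w ≤ Δ) (i j : ι → ℕ)
    (hij : ∀ c, i c ≤ j c) (A : Finset (Obj ι V)) (hA : A ⊆ WK G j) :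
    #A ≤ #(A.image (tr i)) * Δ ^ (∑ c, j c - ∑ c, i c) := by
  have hsum : ∑ c, (j c - i c) = ∑ c, j c - ∑ c, i c := by
    have h1 : ∑ c, j c = ∑ c, (j c - i c) + ∑ c, i c := by
      rw [← sum_add_distrib]
      exact sum_congr rfl fun c _ => by
        have := hij c
        omega
    omega
  rw [← hsum, mul_comm]
  refine card_le_mul_card_image A _ fun y _ => ?_
  refine le_trans (card_le_card ?_) (card_wk_fiber G Δ hΔ i j hij y)
  intro x hx
  rw [mem_filter] at hx ⊢
  exact ⟨hA hx.1, hx.2⟩

/-- walks of length `o` (as legs) with prescribed last vertex -/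
theorem card_rev_le (G : SimpleGraph V) (Δ : ℕ) (hΔ : ∀ w, G.degree w ≤ Δ) (o : ℕ) (v : V)
    (Q : Finset (ℕ → V)) (hQ : ∀ q ∈ Q, (∀ m, q m = q (min m o)) ∧
      (∀ m, m < o → G.Adj (q m) (q (m + 1))) ∧ q o = v) : #Q ≤ Δ ^ o := by
  have h := card_wk_le (ι := Unit) G Δ hΔ (fun _ => o) {v}
  rw [card_singleton, one_mul] at h
  simp only [univ_unique, sum_const, card_singleton, smul_eq_mul, one_mul] at h
  refine le_trans ?_ h
  refine card_le_card_of_injOn (fun q => ((v, fun _ m => q (o - min m o)) : Obj Unit V)) ?_ ?_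
  · intro q hq
    obtain ⟨h1, h2, h3⟩ := hQ q hq
    simp only [coe_filter, Set.mem_ofPred_eq, mem_WK, mem_singleton, and_true]
    refine ⟨?_, ?_, ?_⟩
    · refine Prod.ext rfl ?_
      funext c m
      change q (o - min (min m o) o) = q (o - min m o)
      rw [min_assoc, min_self]
    · intro c
      change q (o - min 0 o) = v
      rw [Nat.zero_min, Nat.sub_zero, h3]
    · intro c m hm
      change G.Adj (q (o - min m o)) (q (o - min (m + 1) o))
      have hm' : m < o := hm
      have e1 : o - min m o = o - (m + 1) + 1 := by omega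
      have e2 : o - min (m + 1) o = o - (m + 1) := by omega
      rw [e1, e2]
      exact (h2 _ (by omega)).symm
  · intro q hq q' hq' he
    obtain ⟨h1, -, -⟩ := hQ q hq
    obtain ⟨h1', -, -⟩ := hQ q' hq'
    funext m
    rw [h1 m, h1' m]
    have h2 := congrFun (congrFun (congrArg Prod.snd he) ()) (o - min m o)
    change q (o - min (o - min m o) o) = q' (o - min (o - min m o) o) at h2
    have e : o - min (o - min m o) o = min m o := by omega
    rwa [e] at h2

theorem card_wk_win (G : SimpleGraph V) (Δ : ℕ) (hΔ : ∀ w, G.degree w ≤ Δ) (j : ι → ℕ)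
    (c : ι) (o m : ℕ) (h : o + m ≤ j c) (P : Finset (Fin (m + 1) → V)) :
    #{x ∈ WK G j | (fun a : Fin (m + 1) => x.2 c (o + a)) ∈ P} ≤ #P * Δ ^ (∑ c, j c - m) := by
  set A : Finset (Obj ι V) := {x ∈ WK G j | (fun a : Fin (m + 1) => x.2 c (o + a)) ∈ P} with hAdef
  set i : ι → ℕ := fun d => if d = c then o + m else 0 with hi
  have hij : ∀ d, i d ≤ j d := by
    intro d
    rw [hi]
    dsimp only
    split_ifs with hd
    · rw [hd]
      exact h
    · exact Nat.zero_le _
  have hic : i c = o + m := by rw [hi]; simp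
  have hid : ∀ d, d ≠ c → i d = 0 := fun d hd => by rw [hi]; simp [hd]
  have hisum : ∑ d, i d = o + m := by
    rw [hi]
    simp
  have hjc : j c ≤ ∑ d, j d := single_le_sum (f := j) (fun _ _ => Nat.zero_le _) (mem_univ c)
  have hA : A ⊆ WK G j := filter_subset _ _
  refine le_trans (card_le_image_tr G Δ hΔ i j hij A hA) ?_
  have hpow : Δ ^ (∑ d, j d - m) = Δ ^ o * Δ ^ (∑ d, j d - ∑ d, i d) := by
    rw [← pow_add, hisum]
    congr 1
    omega
  rw [hpow, ← mul_assoc]
  refine Nat.mul_le_mul_right _ ?_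
  -- the images
  have hmaps : ∀ z ∈ A.image (tr i), (fun a : Fin (m + 1) => z.2 c (o + a)) ∈ P := by
    intro z hz
    obtain ⟨x, hx, rfl⟩ := mem_image.1 hz
    have h1 := (mem_filter.1 hx).2
    have h2 : (fun a : Fin (m + 1) => (tr i x).2 c (o + a)) =
        fun a : Fin (m + 1) => x.2 c (o + a) := by
      funext a
      refine tr_snd_le x ?_
      rw [hic]
      have := a.2
      omega
    rw [h2]
    exact h1
  rw [mul_comm]
  refine card_le_mul_card_image_of_maps_to hmaps _ fun p _ => ?_
  -- the fibre over a window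
  set B : Finset (Obj ι V) := {z ∈ A.image (tr i) | (fun a : Fin (m + 1) => z.2 c (o + a)) = p}
    with hB
  have hinj : #B ≤ #(B.image fun z => fun a : ℕ => z.2 c (min a o)) := by
    refine (card_image_of_injOn ?_).ge
    intro z hz z' hz' he
    have hzB := mem_filter.1 (mem_coe.1 hz)
    have hzB' := mem_filter.1 (mem_coe.1 hz')
    obtain ⟨x, hx, rfl⟩ := mem_image.1 hzB.1
    obtain ⟨x', hx', rfl⟩ := mem_image.1 hzB'.1
    have hw := (mem_WK.1 (hA hx))
    have hw' := (mem_WK.1 (hA hx'))
    have hwin := hzB.2.trans hzB'.2.symm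
    have hlow : ∀ a, a ≤ o → x.2 c a = x'.2 c a := by
      intro a ha
      have h1 := congrFun he a
      change (tr i x).2 c (min a o) = (tr i x').2 c (min a o) at h1
      rw [min_eq_left ha, tr_snd_le x (by rw [hic]; omega), tr_snd_le x' (by rw [hic]; omega)] at h1
      exact h1
    have hhigh : ∀ a, a ≤ m → x.2 c (o + a) = x'.2 c (o + a) := by
      intro a ha
      have h1 := congrFun hwin ⟨a, Nat.lt_succ_of_le ha⟩
      change (tr i x).2 c (o + a) = (tr i x').2 c (o + a) at h1
      rw [tr_snd_le x (by rw [hic]; omega), tr_snd_le x' (by rw [hic]; omega)] at h1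
      exact h1
    have hcen : x.1 = x'.1 := by
      rw [← hw.start c, ← hw'.start c]
      exact hlow 0 (Nat.zero_le _)
    rw [tr_eq_iff]
    refine ⟨hcen, fun d a ha => ?_⟩
    by_cases hd : d = c
    · subst hd
      rw [hic] at ha
      rcases le_total a o with h1 | h1
      · exact hlow a h1
      · have h2 := hhigh (a - o) (by omega)
        rwa [Nat.add_sub_cancel' h1] at h2
    · rw [hid d hd] at ha
      have ha0 : a = 0 := by omega
      rw [ha0, hw.start d, hw'.start d, hcen]
  refine hinj.trans ?_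
  refine card_rev_le G Δ hΔ o (p 0) _ ?_
  intro q hq
  obtain ⟨z, hz, rfl⟩ := mem_image.1 hq
  have hzB := mem_filter.1 hz
  obtain ⟨x, hx, rfl⟩ := mem_image.1 hzB.1
  have hw := (mem_WK.1 (hA hx))
  refine ⟨fun a => ?_, fun a ha => ?_, ?_⟩
  · change (tr i x).2 c (min a o) = (tr i x).2 c (min (min a o) o)
    rw [min_assoc, min_self]
  · change G.Adj ((tr i x).2 c (min a o)) ((tr i x).2 c (min (a + 1) o))
    rw [min_eq_left ha.le, min_eq_left (Nat.succ_le_of_lt ha),
      tr_snd_le x (by rw [hic]; omega), tr_snd_le x (by rw [hic]; omega)]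
    exact hw.adj c a (by omega)
  · change (tr i x).2 c (min o o) = p 0
    have h1 := congrFun hzB.2 0
    rw [min_self, ← h1]
    rfl

theorem card_wk_cwin (G : SimpleGraph V) (Δ : ℕ) (hΔ : ∀ w, G.degree w ≤ Δ) (j : ι → ℕ)
    (c c' : ι) (hc : c ≠ c') (h : 1 ≤ j c) (h' : 1 ≤ j c') (P : Finset (Fin (2 + 1) → V)) :
    #{x ∈ WK G j | ![x.2 c 1, x.1, x.2 c' 1] ∈ P} ≤ #P * Δ ^ (∑ c, j c - 2) := by
  set A : Finset (Obj ι V) := {x ∈ WK G j | ![x.2 c 1, x.1, x.2 c' 1] ∈ P} with hAdef
  set i : ι → ℕ := fun d => if d = c then 1 else if d = c' then 1 else 0 with hi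
  have hij : ∀ d, i d ≤ j d := by
    intro d
    rw [hi]
    dsimp only
    split_ifs with hd hd'
    · rw [hd]
      exact h
    · rw [hd']
      exact h'
    · exact Nat.zero_le _
  have hic : i c = 1 := by rw [hi]; simp
  have hic' : i c' = 1 := by rw [hi]; simp
  have hid : ∀ d, d ≠ c → d ≠ c' → i d = 0 := fun d hd hd' => by rw [hi]; simp [hd, hd']
  have hisum : ∑ d, i d = 2 := by
    have h1 : ∀ d, i d = (if d = c then 1 else 0) + (if d = c' then 1 else 0) := by
      intro d
      rw [hi]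
      dsimp only
      by_cases hd : d = c
      · have hd' : d ≠ c' := fun h2 => hc (hd.symm.trans h2)
        rw [if_pos hd, if_pos hd, if_neg hd']
      · rw [if_neg hd, if_neg hd, zero_add]
    rw [sum_congr rfl fun d _ => h1 d, sum_add_distrib]
    simp
  have hA : A ⊆ WK G j := filter_subset _ _
  refine le_trans (card_le_image_tr G Δ hΔ i j hij A hA) ?_
  rw [hisum]
  refine Nat.mul_le_mul_right _ ?_
  refine card_le_card_of_injOn (fun z => ![z.2 c 1, z.1, z.2 c' 1]) ?_ ?_
  · intro z hz
    obtain ⟨x, hx, rfl⟩ := mem_image.1 (mem_coe.1 hz)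
    have h1 := (mem_filter.1 hx).2
    change ![(tr i x).2 c 1, (tr i x).1, (tr i x).2 c' 1] ∈ P
    rw [tr_snd_le x (by rw [hic]), tr_snd_le x (by rw [hic']), tr_fst]
    exact h1
  · intro z hz z' hz' he
    obtain ⟨x, hx, rfl⟩ := mem_image.1 (mem_coe.1 hz)
    obtain ⟨x', hx', rfl⟩ := mem_image.1 (mem_coe.1 hz')
    have hw := (mem_WK.1 (hA hx))
    have hw' := (mem_WK.1 (hA hx'))
    change ![(tr i x).2 c 1, (tr i x).1, (tr i x).2 c' 1] =
      ![(tr i x').2 c 1, (tr i x').1, (tr i x').2 c' 1] at he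
    rw [tr_snd_le x (by rw [hic]), tr_snd_le x (by rw [hic']), tr_fst,
      tr_snd_le x' (by rw [hic]), tr_snd_le x' (by rw [hic']), tr_fst] at he
    have e0 : x.2 c 1 = x'.2 c 1 := congrFun he 0
    have e1 : x.1 = x'.1 := congrFun he 1
    have e2 : x.2 c' 1 = x'.2 c' 1 := congrFun he 2
    have hz0 : ∀ d, x.2 d 0 = x'.2 d 0 := fun d => by rw [hw.start d, hw'.start d, e1]
    rw [tr_eq_iff]
    refine ⟨e1, fun d a ha => ?_⟩
    rcases Nat.eq_zero_or_pos a with ha0 | ha0
    · rw [ha0]
      exact hz0 d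
    · by_cases hd : d = c
      · subst hd
        rw [hic] at ha
        have : a = 1 := by omega
        rw [this]
        exact e0
      · by_cases hd' : d = c'
        · subst hd'
          rw [hic'] at ha
          have : a = 1 := by omega
          rw [this]
          exact e2
        · rw [hid d hd hd'] at ha
          omega

end Pool.Agent.Helper14.SP
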