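import Pool.Agent.Helper14.SP2.F.Base

/-!
# Project SP2, piece B4: clean paths and clean copies with given ends
-/

set_option autoImplicit false

namespace Pool.Agent.Helper14.SP

open Finset Classical
open Pool.Agent.Helper97.RE (IsPath Rich PP Clean Cb)

variable {ι V : Type} [Fintype ι] [Fintype V]

omit [Fintype ι] in
theorem card_cln_le (G : SimpleGraph V) (L : ℕ) (R : ℕ → ℕ) (n : ℕ) (hn : n ≤ L) (x y : V)
    (P : Finset (ℕ → V)) (hP : ∀ p ∈ P, (∀ m, p m = p (min m n)) ∧
      (∀ m, m < n → G.Adj (p m) (p (m + 1))) ∧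
      (∀ m m', m ≤ n → m' ≤ n → p m = p m' → m = m') ∧ Cln G L R n p ∧ p 0 = x ∧ p n = y) :
    #P ≤ Cb R n := by
  refine le_trans ?_ (Pool.Agent.Helper97.RE.cnt_le G L R n hn x y)
  unfold Pool.Agent.Helper97.RE.cnt
  refine card_le_card_of_injOn (fun p (a : Fin (n + 1)) => p (a : ℕ)) ?_ ?_
  · intro p hp
    obtain ⟨_, h2, h3, h4, h5, h6⟩ := hP p hp
    rw [mem_coe, mem_filter, Pool.Agent.Helper97.RE.mem_PP]
    refine ⟨⟨?_, ?_⟩, ?_, ?_, ?_⟩
    · intro a b hab
      exact Fin.ext (h3 a b (Nat.lt_succ_iff.1 a.2) (Nat.lt_succ_iff.1 b.2) hab)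
    · intro a
      exact h2 a a.2
    · intro o m h hm hL
      exact h4 o m h hm hL
    · exact h5
    · exact h6
  · intro p hp q hq h
    obtain ⟨h1, _⟩ := hP p hp
    obtain ⟨h1', _⟩ := hP q hq
    funext m
    rw [h1 m, h1' m]
    exact congrFun h ⟨min m n, Nat.lt_succ_of_le (min_le_right _ _)⟩

/-- copies extending a given copy `y` of type `i`, with given roots -/
theorem card_good_fiber (G : SimpleGraph V) (L : ℕ) (R : ℕ → ℕ) (i j : ι → ℕ)
    (hij : ∀ c, i c ≤ j c) (hL : ∀ c, j c ≤ L) (S : Finset (Obj ι V))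
    (hS : ∀ x ∈ S, Good G L R j x) (y : Obj ι V) (X : ι → V) :
    #{x ∈ S | tr i x = y ∧ ends j x = X} ≤ ∏ c, Cb R (j c - i c) := by
  set F : Finset (Obj ι V) := {x ∈ S | tr i x = y ∧ ends j x = X} with hF
  have hFm : ∀ x, x ∈ F ↔ x ∈ S ∧ tr i x = y ∧ ends j x = X := by
    intro x
    rw [hF, mem_filter]
  set P : ι → Finset (ℕ → V) := fun c =>
    F.image (fun x m => x.2 c (i c + min m (j c - i c))) with hPdef
  have h1 : #F ≤ #(Fintype.piFinset P) := by
    refine card_le_card_of_injOn (fun x c m => x.2 c (i c + min m (j c - i c))) ?_ ?_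
    · intro x hx
      rw [mem_coe, Fintype.mem_piFinset]
      intro c
      rw [hPdef]
      exact mem_image_of_mem _ hx
    · intro x hx x' hx' h
      have hx1 := (hFm x).1 hx
      have hx1' := (hFm x').1 hx'
      have hg := hS x hx1.1
      have hg' := hS x' hx1'.1
      rw [← hg.can, ← hg'.can, tr_eq_iff]
      have ht : tr i x = tr i x' := by rw [hx1.2.1, hx1'.2.1]
      rw [tr_eq_iff] at ht
      refine ⟨ht.1, fun c m hm => ?_⟩
      by_cases hmi : m ≤ i c
      · exact ht.2 c m hmi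
      · have h2 := congrFun (congrFun h c) (m - i c)
        simp only at h2
        have e1 : i c + min (m - i c) (j c - i c) = m := by omega
        rw [e1] at h2
        exact h2
  refine h1.trans ?_
  rw [Fintype.card_piFinset]
  refine prod_le_prod (fun _ _ => Nat.zero_le _) fun c _ => ?_
  refine card_cln_le G L R (j c - i c) ((Nat.sub_le _ _).trans (hL c)) (y.2 c (i c)) (X c)
    (P c) ?_
  intro p hp
  rw [hPdef] at hp
  rw [mem_image] at hp
  obtain ⟨x, hx, rfl⟩ := hp
  have hx1 := (hFm x).1 hx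
  have hg := hS x hx1.1
  have hc := hij c
  refine ⟨?_, ?_, ?_, ?_, ?_, ?_⟩
  · intro m
    simp only [min_assoc, min_self]
  · intro m hm
    simp only
    have e1 : i c + min m (j c - i c) = i c + m := by omega
    have e2 : i c + min (m + 1) (j c - i c) = i c + m + 1 := by omega
    rw [e1, e2]
    exact hg.sp.adj c (i c + m) (by omega)
  · intro m m' hm hm' h
    simp only at h
    have := hg.sp.inj_leg (c := c) (by omega) (by omega) h
    omega
  · intro o m hom h2 hmL
    simp only
    have e1 : i c + min o (j c - i c) = i c + o := by omega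
    have e2 : i c + min (o + m) (j c - i c) = i c + o + m := by omega
    rw [e1, e2]
    exact hg.cln c (i c + o) m (by omega) h2 hmL
  · simp only [Nat.zero_min, Nat.add_zero]
    rw [← hx1.2.1, tr_snd_le x le_rfl]
  · simp only [min_self]
    rw [← hx1.2.2]
    have e1 : i c + (j c - i c) = j c := by omega
    rw [e1]
    rfl

/-- copies with given centre and given roots -/
theorem card_good_le (G : SimpleGraph V) (L : ℕ) (R : ℕ → ℕ) (j : ι → ℕ) (hL : ∀ c, j c ≤ L)
    (S : Finset (Obj ι V)) (hS : ∀ x ∈ S, Good G L R j x) (u : V) (X : ι → V) :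
    #{x ∈ S | x.1 = u ∧ ends j x = X} ≤ ∏ c, Cb R (j c) := by
  have h := card_good_fiber G L R (fun _ => 0) j (fun _ => Nat.zero_le _) hL S hS
    (u, fun _ _ => u) X
  simp only [Nat.sub_zero] at h
  refine le_trans (card_le_card ?_) h
  intro x hx
  rw [mem_filter] at hx ⊢
  refine ⟨hx.1, ?_, hx.2.2⟩
  refine Prod.ext hx.2.1 ?_
  funext c m
  change x.2 c (min m 0) = u
  rw [Nat.min_zero, (hS x hx.1).sp.start c, hx.2.1]

omit [Fintype ι] [Fintype V] in
theorem Good.tr {G : SimpleGraph V} {L : ℕ} {R : ℕ → ℕ} {i j : ι → ℕ} {x : Obj ι V}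
    (h : Good G L R j x) (hi : ∀ c, 1 ≤ i c) (hij : ∀ c, i c ≤ j c) :
    Good G L R i (tr i x) where
  can := tr_idem i x
  sp := (h.sp.mono hij).tr
  cln c := by
    intro o m hom h2 hmL
    rw [tr_snd_le x (show o ≤ i c by omega), tr_snd_le x hom]
    exact h.cln c o m (hom.trans (hij c)) h2 hmL
  win c c' hc := by
    rw [tr_snd_le x (hi c), tr_snd_le x (hi c')]
    exact h.win c c' hc

end Pool.Agent.Helper14.SP
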