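import Mathlib

/-!
# Independence of cardinalities of the decidability instances
-/

set_option autoImplicit false

namespace Pool.Agent.Helper14.SP

open Finset

theorem card_filter_inst {α : Type} {p : α → Prop} {s : Finset α} {h1 h2 : DecidablePred p} :
    #(@filter α p h1 s) = #(@filter α p h2 s) := by
  rw [Subsingleton.elim h1 h2]

theorem card_filter_iff {α : Type} {p q : α → Prop} {s : Finset α} {h1 : DecidablePred p}
    {h2 : DecidablePred q} (h : ∀ a, p a ↔ q a) :
    #(@filter α p h1 s) = #(@filter α q h2 s) := by
  refine congrArg Finset.card (Finset.ext fun a => ?_)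
  rw [mem_filter, mem_filter, h a]

theorem card_image_inst {α β : Type} {f : α → β} {s : Finset α} {h1 h2 : DecidableEq β} :
    #(@image α β h1 f s) = #(@image α β h2 f s) := by
  rw [Subsingleton.elim h1 h2]

theorem degree_inst {V : Type} {G : SimpleGraph V} {w : V}
    {h1 h2 : Fintype (G.neighborSet w)} :
    @SimpleGraph.degree V G w h1 = @SimpleGraph.degree V G w h2 := by
  rw [Subsingleton.elim h1 h2]

end Pool.Agent.Helper14.SP
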