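import Pool.Agent.Helper14.SP2.Defs
import Pool.Agent.Helper14.SP2.F.Inst

/-!
# Project SP2: further definitions
-/

set_option autoImplicit false

namespace Pool.Agent.Helper14.SP

open Finset Classical
open Pool.Agent.Helper97.RE (IsPath Rich PP Clean Cb)

theorem Ext.anti {F V : Type} {G : SimpleGraph V} {J : F → ℕ} {z : F → V} {u : V}
    {Z Z' : Finset V} (h : Z ⊆ Z') (h' : Ext G J z u Z') : Ext G J z u Z := by
  obtain ⟨x, h1, h2, h3, h4⟩ := h'
  exact ⟨x, h1, h2, h3, fun f m a b hm => h4 f m a b (h hm)⟩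

/-- the size of the sets which have to be avoided in Lemma Z -/
def nmin {ι : Type} [Fintype ι] (j : ι → ℕ) (N0 : ℕ) : ℕ := N0 + 2 * (∑ c, (j c + 1) + 1)

/-- the richness needed for the long legs -/
def rmin {ι : Type} [Fintype ι] (j : ι → ℕ) (F : Type) [Fintype F] (k N0 : ℕ) : ℕ :=
  N0 + 5 * (∑ c, (j c + 1) + 2) + Fintype.card F * (k + 2) + k + 5

theorem Good.wk {ι V : Type} {G : SimpleGraph V} {L : ℕ} {R : ℕ → ℕ} {j : ι → ℕ} {x : Obj ι V}
    (h : Good G L R j x) : Wk G j x :=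
  ⟨h.can, h.sp.start, h.sp.adj⟩

/-- few `m`-paths have rich ends, for `2 ≤ m ≤ L` -/
def Rare {V : Type} [Fintype V] (G : SimpleGraph V) (E d L : ℕ) (R : ℕ → ℕ) : Prop :=
  ∀ m, 2 ≤ m → m ≤ L →
    E * #{p ∈ PP G m | Rich G m (R m) (p 0) (p (Fin.last m))} ≤ Fintype.card V * d ^ m

/-- every vertex of `W` is rich (length `l`) to all the neighbours `b i` of `v`, and the bipartite
graph between `W` and `A` has minimum degree at least `D` -/
structure Hub {V : Type} (G : SimpleGraph V) (l N D m : ℕ) (v : V) (b : Fin m → V)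
    (W A : Finset V) : Prop where
  inj : Function.Injective b
  adj : ∀ i, G.Adj v (b i)
  rich : ∀ w ∈ W, ∀ i, Rich G l N w (b i)
  degW : ∀ w ∈ W, D ≤ #{a ∈ A | G.Adj w a}
  degA : ∀ a ∈ A, D ≤ #{w ∈ W | G.Adj a w}

/-- If shorter rich windows are very rare and many `l`-paths have rich ends, then there are
flexible roots. -/
def World {ι : Type} [Fintype ι] (j : ι → ℕ) (N0 K l : ℕ) : Prop :=
  ∀ E : ℕ, ∃ E' : ℕ, ∀ R : ℕ → ℕ, ∃ r A : ℕ, ∀ (V : Type) [Fintype V] [Nonempty V]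
    (G : SimpleGraph V) (d : ℕ), (∀ w, d ≤ G.degree w ∧ G.degree w ≤ K * d) →
    A * Fintype.card V ^ (Fintype.card ι - 1) ≤ d ^ (∑ c, j c) →
    Rare G E' d (l - 1) R →
    Fintype.card V * d ^ l < E * #{p ∈ PP G l | Rich G l r (p 0) (p (Fin.last l))} →
    ∃ X : ι → V, Flex G j N0 X

/-- many clean `(k - m)`-paths starting at `y` end in a vertex which is rich (length `k`) to `u` -/
def Att {V : Type} [Fintype V] (G : SimpleGraph V) (k r B d : ℕ) (R : ℕ → ℕ) (m : ℕ) (u y : V) :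
    Prop :=
  d ^ (k - m) ≤ B * #{p ∈ PP G (k - m) | p 0 = y ∧ Clean G (k - 1) R p ∧
    Rich G k r u (p (Fin.last (k - m)))}

/-- many clean `(k - 1)`-paths starting at `u` end in a vertex `v` with `Att (k - 1) u v` -/
def VT {V : Type} [Fintype V] (G : SimpleGraph V) (k r B d : ℕ) (R : ℕ → ℕ) (u : V) : Prop :=
  d ^ (k - 1) ≤ B * #{p ∈ PP G (k - 1) | p 0 = u ∧ Clean G (k - 1) R p ∧
    Att G k r B d R (k - 1) u (p (Fin.last (k - 1)))}

/-- good copies with attachments -/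
structure GA {ι V : Type} [Fintype V] (G : SimpleGraph V) (k r B d : ℕ) (R : ℕ → ℕ) (i : ι → ℕ)
    (x : Obj ι V) : Prop where
  good : Good G (k - 1) R i x
  att : ∀ c m, 1 ≤ m → m ≤ i c → Att G k r B d R m x.1 (x.2 c m)
  vt : VT G k r B d R x.1

/-- pairs of an object of `T2` and a vertex `V` with `(roots, V) ∈ EE`, `V` off the object -/
noncomputable def Om {ι V : Type} [Fintype ι] [Fintype V] (i : ι → ℕ) (T2 : Finset (Obj ι V))
    (EE : Finset ((ι → V) × V)) : Finset (Obj ι V × V) :=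
  (T2 ×ˢ univ).filter fun ω => (ends i ω.1, ω.2) ∈ EE ∧ ω.2 ∉ inn i ω.1

structure Sys {ι V : Type} [Fintype V] (G : SimpleGraph V) (k r B d : ℕ) (R : ℕ → ℕ)
    (i : ι → ℕ) (b : ι) (T2 : Finset (Obj ι V)) (EE : Finset ((ι → V) × V)) : Prop where
  ga : ∀ x ∈ T2, GA G k r B d R i x
  uniq : ∀ x ∈ T2, ∀ x' ∈ T2, x.1 = x'.1 → ends i x = ends i x' → x = x'
  adj : ∀ e ∈ EE, G.Adj (e.1 b) e.2
  ne : ∀ e ∈ EE, ∀ c, e.2 ≠ e.1 c

/-- the fan of `(x, V)`: the elements of `Om` with the same centre, the same ends of the legs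
other than `b`, and the same `V` -/
noncomputable def fan {ι V : Type} [Fintype ι] [Fintype V] (i : ι → ℕ) (b : ι)
    (T2 : Finset (Obj ι V)) (EE : Finset ((ι → V) × V)) (ω : Obj ι V × V) : ℕ :=
  #{ω' ∈ Om i T2 EE | ω'.1.1 = ω.1.1 ∧
    Function.update (ends i ω'.1) b ω'.2 = Function.update (ends i ω.1) b ω.2}

/-- the vertices of leg `b` strictly between the centre and level `i b` -/
noncomputable def pth {ι V : Type} (i : ι → ℕ) (b : ι) (x : Obj ι V) : Finset V :=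
  (Ico 1 (i b)).image (x.2 b)

end Pool.Agent.Helper14.SP
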