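import Pool.Agent.Helper14.SP2.F.G2

/-!
# Project SP2, piece C3: the hub lemma
-/

set_option autoImplicit false

namespace Pool.Agent.Helper14.SP

open Finset Classical
open Pool.Agent.Helper97.RE (IsPath Rich PP Clean Cb)

/-- number of paths with a given first vertex -/
theorem card_paths_first {V : Type} [Fintype V] (G : SimpleGraph V) (Δ : ℕ)
    (hΔ : ∀ w, G.degree w ≤ Δ) (n : ℕ) (y : V) :
    #{p ∈ PP G n | p 0 = y} ≤ Δ ^ n := by
  have h := Pool.Agent.Helper97.RE.card_window G Δ hΔ 0 {fun _ => y} n 0 (by omega)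
  simp only [Nat.sub_zero, card_singleton, mul_one] at h
  refine le_trans (card_le_card ?_) h
  intro p hp
  rw [mem_filter] at hp ⊢
  refine ⟨hp.1, ?_⟩
  rw [mem_singleton]
  funext i
  obtain rfl : i = 0 := Fin.ext (by omega)
  rw [Pool.Agent.Helper97.RE.win_zero]
  exact hp.2

/-- the first inner vertices of rich paths -/
theorem rich_deg {V : Type} [Fintype V] {G : SimpleGraph V} {h r : ℕ} (hh : 1 ≤ h) {w b : V}
    (hr : Rich G (h + 1) r w b) :
    r ≤ #{a ∈ ((PP G h).filter fun p => p (Fin.last h) = b).image (fun p => p 0) |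
      G.Adj w a} := by
  by_contra hcon
  push Not at hcon
  obtain ⟨p, hp, hp0, hp1, hp2⟩ := hr _ hcon.le
  have hne : (⟨1, by omega⟩ : Fin (h + 1 + 1)) ≠ 0 := by
    intro he
    have := congrArg Fin.val he
    simp at this
  have hne' : (⟨1, by omega⟩ : Fin (h + 1 + 1)) ≠ Fin.last (h + 1) := by
    intro he
    have := congrArg Fin.val he
    simp only [Fin.val_last] at this
    omega
  refine hp2 _ hne hne' ?_
  rw [mem_filter, mem_image]
  refine ⟨⟨Fin.tail p, ?_, rfl⟩, ?_⟩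
  · rw [mem_filter, Pool.Agent.Helper97.RE.mem_PP]
    exact ⟨hp.tail, hp1⟩
  · rw [← hp0]
    exact hp.2 0

theorem hub (K h E m : ℕ) (hh : 1 ≤ h) (hm : 1 ≤ m) : ∃ E1 : ℕ, ∀ C1 D N : ℕ, ∃ r d0 : ℕ,
    ∀ {V : Type} [Fintype V] (G : SimpleGraph V) (d : ℕ), (∀ w, G.degree w ≤ K * d) → d0 ≤ d →
      ∀ (v : V) (Q : Finset (Fin (h + 1) → V)), (∀ p ∈ Q, IsPath G p ∧ p 0 = v) →
      (∀ w, #{p ∈ Q | p (Fin.last h) = w} ≤ C1) →
      d ^ (h + 1) ≤ E * #{q ∈ (G.neighborFinset v) ×ˢ Q |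
        Rich G (h + 1) r q.1 (q.2 (Fin.last h))} →
      ∃ (b : Fin m → V) (W A : Finset V), Hub G (h + 1) N D m v b W A ∧
        d ^ h ≤ E1 * #{p ∈ Q | p (Fin.last h) ∈ W} := by
  obtain ⟨E2, d0, hpick⟩ := pick (Fin m) K (K ^ h) E
  refine ⟨2 * E2, fun C1 D N => ?_⟩
  refine ⟨D + (2 * E2 * C1 * D * K ^ h + N + 1), d0 + 1, ?_⟩
  set r := D + (2 * E2 * C1 * D * K ^ h + N + 1) with hr
  intro V _ G d hdeg hd v Q hQ hC1 hcount
  have hd1 : 1 ≤ d := by omega
  have hM : 1 ≤ d ^ h := Nat.one_le_pow _ _ hd1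
  have hQcard : #Q ≤ K ^ h * d ^ h := by
    rw [← mul_pow]
    refine le_trans (card_le_card ?_) (card_paths_first G (K * d) hdeg h v)
    intro p hp
    rw [mem_filter, Pool.Agent.Helper97.RE.mem_PP]
    exact hQ p hp
  obtain ⟨b, hbinj, hbadj, hbcount⟩ := hpick (G.neighborFinset v) Q
    (fun a p => Rich G (h + 1) r a (p (Fin.last h))) d (d ^ h) (by omega)
    (by rw [SimpleGraph.card_neighborFinset_eq_degree]; exact hdeg v) hQcard
    (by rw [← pow_succ']; exact hcount) hM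
  set Q0 : Finset (Fin (h + 1) → V) :=
    {p ∈ Q | ∀ i, Rich G (h + 1) r (b i) (p (Fin.last h))} with hQ0
  have hQ0count : d ^ h ≤ E2 * #Q0 := by
    rw [hQ0]
    convert hbcount
  set W0 : Finset V := Q0.image (fun p => p (Fin.last h)) with hW0
  have i0 : Fin m := ⟨0, hm⟩
  set A0 : Finset V :=
    ((PP G h).filter fun p => p (Fin.last h) = b i0).image (fun p => p 0) with hA0
  have hA0card : #A0 ≤ K ^ h * d ^ h := by
    rw [← mul_pow]
    exact card_image_le.trans (Pool.Agent.Helper97.RE.card_paths_last G (K * d) hdeg h (b i0))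
  have hW0rich : ∀ w ∈ W0, ∀ i, Rich G (h + 1) r w (b i) := by
    intro w hw i
    rw [hW0, mem_image] at hw
    obtain ⟨p, hp, rfl⟩ := hw
    rw [hQ0, mem_filter] at hp
    exact Rich.symm (hp.2 i)
  obtain ⟨W, hWW0, A, hAA0, hdW, hdA, hprune⟩ := prune G W0 A0 D r (by omega)
    (fun w hw => rich_deg hh (hW0rich w hw i0))
  refine ⟨b, W, A, ⟨hbinj, fun i => ?_, fun w hw i => ?_, hdW, hdA⟩, ?_⟩
  · have := hbadj i
    rwa [SimpleGraph.mem_neighborFinset] at this
  · exact (hW0rich w (hWW0 hw) i).mono (by omega)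
  · -- counting
    have h1 : #Q0 ≤ #{p ∈ Q | p (Fin.last h) ∈ W} + C1 * #(W0 \ W) := by
      have h2 : #{p ∈ Q0 | p (Fin.last h) ∈ W0 \ W} ≤ C1 * #(W0 \ W) := by
        refine Finset.card_le_mul_card_image_of_maps_to
          (f := fun p : Fin (h + 1) → V => p (Fin.last h))
          (fun p hp => (mem_filter.1 hp).2) C1 ?_
        intro w _
        refine le_trans (card_le_card ?_) (hC1 w)
        intro p hp
        rw [mem_filter, mem_filter] at hp
        rw [mem_filter]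
        exact ⟨(mem_filter.1 hp.1.1).1, hp.2⟩
      have h3 : Q0 ⊆ ({p ∈ Q | p (Fin.last h) ∈ W} : Finset (Fin (h + 1) → V)) ∪
          {p ∈ Q0 | p (Fin.last h) ∈ W0 \ W} := by
        intro p hp
        rw [mem_union, mem_filter, mem_filter]
        by_cases hpW : p (Fin.last h) ∈ W
        · exact Or.inl ⟨(mem_filter.1 hp).1, hpW⟩
        · exact Or.inr ⟨hp, mem_sdiff.2 ⟨mem_image_of_mem _ hp, hpW⟩⟩
      calc #Q0 ≤ _ := card_le_card h3
        _ ≤ _ := card_union_le _ _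
        _ ≤ _ := Nat.add_le_add_left h2 _
    have h4 : (2 * E2 * C1 * D * K ^ h + N + 1) * #(W0 \ W) ≤ D * (K ^ h * d ^ h) := by
      have h5 : r - D = 2 * E2 * C1 * D * K ^ h + N + 1 := by omega
      rw [h5] at hprune
      exact hprune.trans (Nat.mul_le_mul_left _ hA0card)
    have h6 : 2 * E2 * C1 * #(W0 \ W) ≤ d ^ h := by
      rcases Nat.eq_zero_or_pos (D * K ^ h) with h0 | h0
      · have h7 : (2 * E2 * C1 * D * K ^ h + N + 1) * #(W0 \ W) ≤ 0 := by
          refine h4.trans (le_of_eq ?_)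
          rw [← mul_assoc, h0, zero_mul]
        have h8 : #(W0 \ W) = 0 := by
          have := Nat.le_zero.1 h7
          rcases Nat.mul_eq_zero.1 this with h9 | h9
          · omega
          · exact h9
        rw [h8, mul_zero]
        exact Nat.zero_le _
      · have h7 : (D * K ^ h) * (2 * E2 * C1 * #(W0 \ W)) ≤ (D * K ^ h) * d ^ h := by
          calc (D * K ^ h) * (2 * E2 * C1 * #(W0 \ W))
              = (2 * E2 * C1 * D * K ^ h) * #(W0 \ W) := by ring
            _ ≤ (2 * E2 * C1 * D * K ^ h + N + 1) * #(W0 \ W) :=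
              Nat.mul_le_mul_right _ (by omega)
            _ ≤ D * (K ^ h * d ^ h) := h4
            _ = (D * K ^ h) * d ^ h := by ring
        exact Nat.le_of_mul_le_mul_left h7 h0
    have h10 : d ^ h ≤ E2 * (#{p ∈ Q | p (Fin.last h) ∈ W} + C1 * #(W0 \ W)) :=
      hQ0count.trans (Nat.mul_le_mul_left _ h1)
    have h11 : 2 * (E2 * (#{p ∈ Q | p (Fin.last h) ∈ W} + C1 * #(W0 \ W))) =
        2 * E2 * #{p ∈ Q | p (Fin.last h) ∈ W} + 2 * E2 * C1 * #(W0 \ W) := by ring
    omega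

end Pool.Agent.Helper14.SP
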