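import Pool.Agent.Helper14.SP2.F.G1

/-!
# Project SP2: piece C7, two numerical lemmas
-/

set_option autoImplicit false

namespace Pool.Agent.Helper14.SP

theorem num_mid (s1 q e m A n d : ℕ) (hs : 1 ≤ s1) (hq : 1 ≤ q) (h : e * q ≤ s1 * m)
    (hd : 1 ≤ d) (hA : A ^ s1 * n ^ s1 ≤ d ^ e) : A * n ^ q ≤ d ^ m := by
  rcases Nat.eq_zero_or_pos A with rfl | hA0
  · simp
  · have h1 : (A * n ^ q) ^ s1 ≤ (d ^ m) ^ s1 := by
      calc (A * n ^ q) ^ s1 = A ^ s1 * n ^ (s1 * q) := by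
            rw [mul_pow, ← pow_mul, mul_comm q s1]
        _ ≤ A ^ (s1 * q) * n ^ (s1 * q) := by
            apply Nat.mul_le_mul_right
            exact Nat.pow_le_pow_right hA0 (Nat.le_mul_of_pos_right s1 hq)
        _ = (A ^ s1 * n ^ s1) ^ q := by
            rw [mul_pow, ← pow_mul, ← pow_mul]
        _ ≤ (d ^ e) ^ q := Nat.pow_le_pow_left hA q
        _ = d ^ (e * q) := by rw [← pow_mul]
        _ ≤ d ^ (s1 * m) := Nat.pow_le_pow_right hd h
        _ = (d ^ m) ^ s1 := by rw [← pow_mul, mul_comm]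
    exact (Nat.pow_le_pow_iff_left (by omega)).mp h1

/-- comparing exponents -/
theorem cmp (A d X a a0 c : ℕ) (hA : 1 ≤ A) (hAd : A ≤ d) (h : A ^ a0 * X ≤ d ^ a0)
    (h1 : a ≤ c) (h2 : a0 ≤ c) : A ^ a * X ≤ d ^ c := by
  have hd : 1 ≤ d := hA.trans hAd
  rcases le_total a a0 with hle | hle
  · calc A ^ a * X ≤ A ^ a0 * X := Nat.mul_le_mul_right _ (Nat.pow_le_pow_right hA hle)
      _ ≤ d ^ a0 := h
      _ ≤ d ^ c := Nat.pow_le_pow_right hd h2
  · obtain ⟨b, rfl⟩ := Nat.exists_eq_add_of_le hle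
    calc A ^ (a0 + b) * X = A ^ b * (A ^ a0 * X) := by rw [pow_add]; ring
      _ ≤ d ^ b * d ^ a0 := Nat.mul_le_mul (Nat.pow_le_pow_left hAd b) h
      _ = d ^ (a0 + b) := by rw [pow_add, mul_comm]
      _ ≤ d ^ c := Nat.pow_le_pow_right hd h1

theorem num_k (k q F T A n d : ℕ) (hk : 1 ≤ k) (hq : 1 ≤ q) (hF : 1 ≤ F) (hA : 1 ≤ A)
    (hT : (q - 1) * k + 1 ≤ T) (hn : 1 ≤ n)
    (h : A ^ (T + F * k) * n ^ (q - 1 + F) ≤ d ^ (T + F * k)) :
    A ≤ d ∧ A * n ^ (q - 1) ≤ d ^ T ∧ A * n ^ q ≤ d ^ (T + k) := by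
  obtain ⟨p, rfl⟩ : ∃ p, q = p + 1 := ⟨q - 1, by omega⟩
  obtain ⟨G, rfl⟩ : ∃ G, F = G + 1 := ⟨F - 1, by omega⟩
  simp only [Nat.add_sub_cancel] at hT h ⊢
  have hN : 1 ≤ T + (G + 1) * k := by omega
  have hT1 : 1 ≤ T := by omega
  have hAd : A ≤ d := by
    have h1 : A ^ (T + (G + 1) * k) ≤ d ^ (T + (G + 1) * k) :=
      (Nat.le_mul_of_pos_right _ (Nat.pow_pos hn)).trans h
    exact (Nat.pow_le_pow_iff_left (by omega)).mp h1
  refine ⟨hAd, ?_, ?_⟩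
  · have h1 : (A * n ^ p) ^ (p + (G + 1)) ≤ (d ^ T) ^ (p + (G + 1)) := by
      have h2 : A ^ ((T + (G + 1) * k) * p) * n ^ ((p + (G + 1)) * p) ≤
          d ^ ((T + (G + 1) * k) * p) := by
        have := Nat.pow_le_pow_left h p
        rwa [mul_pow, ← pow_mul, ← pow_mul, ← pow_mul] at this
      have h3 := cmp A d _ (p + (G + 1)) _ (T * (p + (G + 1))) hA hAd h2
        (Nat.le_mul_of_pos_left _ hT1) (by nlinarith [Nat.mul_le_mul_left (G + 1) hT])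
      calc (A * n ^ p) ^ (p + (G + 1)) = A ^ (p + (G + 1)) * n ^ ((p + (G + 1)) * p) := by
            rw [mul_pow, ← pow_mul, mul_comm p]
        _ ≤ d ^ (T * (p + (G + 1))) := h3
        _ = (d ^ T) ^ (p + (G + 1)) := by rw [← pow_mul]
    exact (Nat.pow_le_pow_iff_left (by omega)).mp h1
  · have h1 : (A * n ^ (p + 1)) ^ (p + (G + 1)) ≤ (d ^ (T + k)) ^ (p + (G + 1)) := by
      have h2 : A ^ ((T + (G + 1) * k) * (p + 1)) * n ^ ((p + (G + 1)) * (p + 1)) ≤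
          d ^ ((T + (G + 1) * k) * (p + 1)) := by
        have := Nat.pow_le_pow_left h (p + 1)
        rwa [mul_pow, ← pow_mul, ← pow_mul, ← pow_mul] at this
      have h3 := cmp A d _ (p + (G + 1)) _ ((T + k) * (p + (G + 1))) hA hAd h2
        (Nat.le_mul_of_pos_left _ (by omega)) (by nlinarith [Nat.mul_le_mul_left G hT])
      calc (A * n ^ (p + 1)) ^ (p + (G + 1)) =
            A ^ (p + (G + 1)) * n ^ ((p + (G + 1)) * (p + 1)) := by
            rw [mul_pow, ← pow_mul, mul_comm (p + 1)]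
        _ ≤ d ^ ((T + k) * (p + (G + 1))) := h3
        _ = (d ^ (T + k)) ^ (p + (G + 1)) := by rw [← pow_mul]
    exact (Nat.pow_le_pow_iff_left (by omega)).mp h1

end Pool.Agent.Helper14.SP
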