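import Pool.Agent.Helper14.SP2.F.G2

/-!
# Project SP2, piece B5: `card_centre_le`, `card_not_good`
-/

set_option autoImplicit false

namespace Pool.Agent.Helper14.SP

open Finset Classical
open Pool.Agent.Helper97.RE (IsPath Rich PP Clean Cb)

variable {ι V : Type} [Fintype ι] [Fintype V]

omit [Fintype ι] [Fintype V] in
/-- the path through the centre -/
theorem isPath_centre {G : SimpleGraph V} {j : ι → ℕ} {x : Obj ι V} (hx : Sp G j x)
    {c c' : ι} (hc : c ≠ c') (h : 1 ≤ j c) (h' : 1 ≤ j c') :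
    IsPath G (![x.2 c 1, x.1, x.2 c' 1] : Fin (2 + 1) → V) := by
  have h1 : x.2 c 1 ≠ x.1 := hx.ne_centre le_rfl h
  have h2 : x.2 c' 1 ≠ x.1 := hx.ne_centre le_rfl h'
  have h3 : x.2 c 1 ≠ x.2 c' 1 := fun he => hc (hx.inj c c' 1 1 le_rfl h h' he).1
  have a1 : G.Adj x.1 (x.2 c 1) := by
    have := hx.adj c 0 h
    rwa [hx.start] at this
  have a2 : G.Adj x.1 (x.2 c' 1) := by
    have := hx.adj c' 0 h'
    rwa [hx.start] at this
  refine ⟨?_, ?_⟩
  · intro a b hab
    fin_cases a <;> fin_cases b <;>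
      simp [h1, h1.symm, h2, h2.symm, h3, h3.symm] at hab ⊢
  · intro a
    fin_cases a
    · exact a1.symm
    · exact a2

omit [Fintype ι] in
theorem card_centre_le (G : SimpleGraph V) (L : ℕ) (R : ℕ → ℕ) (i : ι → ℕ) (hi : ∀ c, 1 ≤ i c)
    (S : Finset (Obj ι V)) (hS : ∀ x ∈ S, Good G L R i x) (c c' : ι) (hc : c ≠ c') (w w' : V) :
    #((S.filter fun x => x.2 c 1 = w ∧ x.2 c' 1 = w').image Prod.fst) ≤ R 2 := by
  rcases (S.filter fun x => x.2 c 1 = w ∧ x.2 c' 1 = w').eq_empty_or_nonempty with he | hne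
  · rw [he]; simp
  · obtain ⟨x0, hx0⟩ := hne
    rw [mem_filter] at hx0
    have hw := (hS x0 hx0.1).win c c' hc
    rw [hx0.2.1, hx0.2.2] at hw
    unfold Rich at hw
    push Not at hw
    obtain ⟨Z, hZ, hp⟩ := hw
    refine (card_le_card (?_ : _ ⊆ Z)).trans hZ
    intro u hu
    rw [mem_image] at hu
    obtain ⟨x, hx, rfl⟩ := hu
    rw [mem_filter] at hx
    have hg := hS x hx.1
    have hpath := isPath_centre hg.sp hc (hi c) (hi c')
    rw [hx.2.1, hx.2.2] at hpath
    obtain ⟨a, ha0, hal, haZ⟩ := hp _ hpath rfl rfl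
    fin_cases a
    · exact absurd rfl ha0
    · exact haZ
    · exact absurd rfl hal

omit [Fintype ι] [Fintype V] in
theorem isPath_win {G : SimpleGraph V} {j : ι → ℕ} {x : Obj ι V} (hx : Sp G j x)
    {c : ι} {o m : ℕ} (h : o + m ≤ j c) :
    IsPath G (fun a : Fin (m + 1) => x.2 c (o + a)) := by
  refine ⟨?_, ?_⟩
  · intro a b hab
    have h1 := a.isLt
    have h2 := b.isLt
    have := hx.inj_leg (m := o + a) (m' := o + b) (by omega) (by omega) hab
    exact Fin.ext (by omega)
  · intro a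
    have h1 := a.isLt
    have := hx.adj c (o + a) (by omega)
    exact this

/-- a bound for one window -/
theorem window_bound (n d K e m E b w : ℕ) (hm : m ≤ e) (h1 : E * b ≤ n * d ^ m)
    (h2 : w ≤ b * (K * d) ^ (e - m)) : E * w ≤ (K + 1) ^ e * (n * d ^ e) := by
  calc E * w ≤ E * (b * (K * d) ^ (e - m)) := Nat.mul_le_mul_left _ h2
    _ = (E * b) * (K * d) ^ (e - m) := by ring
    _ ≤ (n * d ^ m) * (K * d) ^ (e - m) := Nat.mul_le_mul_right _ h1
    _ = K ^ (e - m) * (n * (d ^ m * d ^ (e - m))) := by rw [mul_pow]; ring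
    _ = K ^ (e - m) * (n * d ^ e) := by rw [← pow_add, Nat.add_sub_cancel' hm]
    _ ≤ (K + 1) ^ e * (n * d ^ e) := by
        refine Nat.mul_le_mul_right _ ?_
        calc K ^ (e - m) ≤ (K + 1) ^ (e - m) := Nat.pow_le_pow_left (Nat.le_succ K) _
          _ ≤ (K + 1) ^ e := Nat.pow_le_pow_right (Nat.succ_pos K) (Nat.sub_le _ _)

/-- the walk systems which are copies but not good are few -/
theorem card_not_good (j : ι → ℕ) (hj : ∀ c, 1 ≤ j c) (L : ℕ) (hL : ∀ c, j c ≤ L)
    (hL2 : 2 ≤ L ∨ Subsingleton ι) (K : ℕ) : ∃ M : ℕ, ∀ {V : Type} [Fintype V]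
      (G : SimpleGraph V) (d E : ℕ) (R : ℕ → ℕ), (∀ w, G.degree w ≤ K * d) → 1 ≤ d →
      Rare G E d L R →
      E * #{x ∈ WK G j | Sp G j x ∧ ¬ Good G L R j x} ≤
        M * (Fintype.card V * d ^ (∑ c, j c)) := by
  refine ⟨(∑ c, (j c + 1) * (j c + 1) + Fintype.card ι * Fintype.card ι) *
    (K + 1) ^ (∑ c, j c), ?_⟩
  intro V _ G d E R hΔ _ hR
  set e := ∑ c, j c with he
  set B := (K + 1) ^ e * (Fintype.card V * d ^ e) with hB
  have hje : ∀ c, j c ≤ e := fun c => single_le_sum (f := j) (fun _ _ => Nat.zero_le _) (mem_univ c)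
  -- windows on legs
  let W : ι → ℕ → ℕ → Finset (Obj ι V) := fun c o m =>
    {x ∈ WK G j | Sp G j x ∧ o + m ≤ j c ∧ 2 ≤ m ∧ Rich G m (R m) (x.2 c o) (x.2 c (o + m))}
  let W' : ι → ι → Finset (Obj ι V) := fun c c' =>
    {x ∈ WK G j | Sp G j x ∧ c ≠ c' ∧ Rich G 2 (R 2) (x.2 c 1) (x.2 c' 1)}
  have hW : ∀ c o m, E * #(W c o m) ≤ B := by
    intro c o m
    by_cases hcond : o + m ≤ j c ∧ 2 ≤ m
    · obtain ⟨h1, h2⟩ := hcond
      have hmL : m ≤ L := by have := hL c; omega
      have hme : m ≤ e := by have := hje c; omega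
      refine window_bound _ d K e m E _ _ hme (hR m h2 hmL) ?_
      refine (card_le_card ?_).trans
        (card_wk_win G (K * d) hΔ j c o m h1 {p ∈ PP G m | Rich G m (R m) (p 0) (p (Fin.last m))})
      intro x hx
      simp only [W, mem_filter] at hx
      simp only [mem_filter, Pool.Agent.Helper97.RE.mem_PP]
      refine ⟨hx.1, isPath_win hx.2.1 h1, ?_⟩
      simpa using hx.2.2.2.2
    · have : W c o m = ∅ := by
        ext x
        simp only [W, mem_filter, notMem_empty, iff_false]
        rintro ⟨_, _, h1, h2, _⟩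
        exact hcond ⟨h1, h2⟩
      rw [this]; simp
  have hW' : ∀ c c', E * #(W' c c') ≤ B := by
    intro c c'
    by_cases hc : c ≠ c'
    · have h2L : 2 ≤ L := by
        rcases hL2 with h | h
        · exact h
        · exact absurd (Subsingleton.elim c c') hc
      have h2e : 2 ≤ e := by
        have h1 : j c + j c' ≤ e := by
          rw [← sum_pair hc]
          exact sum_le_sum_of_subset (subset_univ _)
        have := hj c
        have := hj c'
        omega
      refine window_bound _ d K e 2 E _ _ h2e (hR 2 le_rfl h2L) ?_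
      refine (card_le_card ?_).trans
        (card_wk_cwin G (K * d) hΔ j c c' hc (hj c) (hj c')
          {p ∈ PP G 2 | Rich G 2 (R 2) (p 0) (p (Fin.last 2))})
      intro x hx
      simp only [W', mem_filter] at hx
      simp only [mem_filter, Pool.Agent.Helper97.RE.mem_PP]
      exact ⟨hx.1, isPath_centre hx.2.1 hc (hj c) (hj c'), hx.2.2.2⟩
    · have : W' c c' = ∅ := by
        ext x
        simp only [W', mem_filter, notMem_empty, iff_false]
        rintro ⟨_, _, h1, _⟩
        exact hc h1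
      rw [this]; simp
  have hsub : ({x ∈ WK G j | Sp G j x ∧ ¬ Good G L R j x} : Finset (Obj ι V)) ⊆
      (univ.biUnion fun c => (range (j c + 1)).biUnion fun o => (range (j c + 1)).biUnion fun m =>
        W c o m) ∪ (univ.biUnion fun c => univ.biUnion fun c' => W' c c') := by
    intro x hx
    rw [mem_filter] at hx
    obtain ⟨hx1, hx2, hx3⟩ := hx
    rw [mem_union]
    by_cases h1 : ∀ c, Cln G L R (j c) (x.2 c)
    · right
      have h2 : ¬ ∀ c c', c ≠ c' → ¬ Rich G 2 (R 2) (x.2 c 1) (x.2 c' 1) :=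
        fun h2 => hx3 ⟨(mem_WK.1 hx1).can, hx2, h1, h2⟩
      push Not at h2
      obtain ⟨c, c', hc, hr⟩ := h2
      simp only [mem_biUnion, mem_univ, true_and]
      exact ⟨c, c', mem_filter.2 ⟨hx1, hx2, hc, hr⟩⟩
    · left
      unfold Cln at h1
      push Not at h1
      obtain ⟨c, o, m, hom, h2m, _, hr⟩ := h1
      simp only [mem_biUnion, mem_univ, true_and, mem_range]
      exact ⟨c, o, by omega, m, by omega, mem_filter.2 ⟨hx1, hx2, hom, h2m, hr⟩⟩
  calc E * #{x ∈ WK G j | Sp G j x ∧ ¬ Good G L R j x}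
      ≤ E * (#(univ.biUnion fun c => (range (j c + 1)).biUnion fun o =>
          (range (j c + 1)).biUnion fun m => W c o m) +
          #(univ.biUnion fun c => univ.biUnion fun c' => W' c c')) :=
        Nat.mul_le_mul_left _ ((card_le_card hsub).trans (card_union_le _ _))
    _ ≤ E * (∑ c, ∑ _o ∈ range (j c + 1), ∑ m ∈ range (j c + 1), #(W c _o m) +
          ∑ c, ∑ c', #(W' c c')) := by
        refine Nat.mul_le_mul_left _ (Nat.add_le_add ?_ ?_)
        · refine card_biUnion_le.trans (sum_le_sum fun c _ => ?_)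
          refine card_biUnion_le.trans (sum_le_sum fun o _ => ?_)
          exact card_biUnion_le
        · refine card_biUnion_le.trans (sum_le_sum fun c _ => ?_)
          exact card_biUnion_le
    _ = ∑ c, ∑ _o ∈ range (j c + 1), ∑ m ∈ range (j c + 1), E * #(W c _o m) +
          ∑ c, ∑ c', E * #(W' c c') := by
        rw [mul_add]
        simp only [mul_sum]
    _ ≤ ∑ c, ∑ _o ∈ range (j c + 1), ∑ _m ∈ range (j c + 1), B + ∑ _c : ι, ∑ _c' : ι, B :=
        Nat.add_le_add
          (sum_le_sum fun c _ => sum_le_sum fun o _ => sum_le_sum fun m _ => hW c o m)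
          (sum_le_sum fun c _ => sum_le_sum fun c' _ => hW' c c')
    _ = _ := by
        simp only [sum_const, card_range, card_univ, smul_eq_mul, hB]
        rw [add_mul, add_mul, sum_mul, sum_mul]
        congr 1
        · refine sum_congr rfl fun c _ => ?_
          ring
        · ring

end Pool.Agent.Helper14.SP
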