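import Pool.Agent.Helper14.SP2.F.Main

/-!
# Project SP2: many legs of length `k - 1`
-/

set_option autoImplicit false

namespace Pool.Agent.Helper14.SP

open Finset Classical
open Pool.Agent.Helper55.JS (BV pt blow)

/-- the numerical condition holds if there are many legs of length `k - 1` -/
theorem cond_of_many (s k : ℕ) (j : Fin s → ℕ) (hj : ∀ c, 1 ≤ j c ∧ j c ≤ k)
    (hk' : ∃ c, j c = k) (hb : (s - 1) * k < ∑ c, j c)
    (hm : ∀ c, k + 1 ≤ j c + #{c' | j c' = k - 1}) (l : ℕ) (hl : 2 ≤ l) (hlk : l < k)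
    (hc : ∃ c, j c < l) :
    (∑ c, j c) * #{c | j c < l} ≤ (s - 1) * (l - 2 + ∑ c with j c < l, j c) := by
  obtain ⟨c0, hc0⟩ := hc
  obtain ⟨c1, hc1⟩ := hk'
  have hs : 1 ≤ s := by
    have := c0.2
    omega
  set m := #{c' | j c' = k - 1} with hmdef
  set q := #{c | j c < l} with hq
  set T := ∑ c with j c < l, j c with hT
  have hm0 := hm c0
  -- the number of short legs
  have hqs : q + 1 ≤ s := by
    have h1 : ({c | j c < l} : Finset (Fin s)) ⊆ univ.erase c1 := by
      intro c hc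
      rw [mem_filter] at hc
      rw [mem_erase]
      refine ⟨?_, mem_univ _⟩
      rintro rfl
      omega
    have h2 := card_le_card h1
    rw [card_erase_of_mem (mem_univ _), card_univ, Fintype.card_fin] at h2
    omega
  -- the deficits
  have hsplit : ∑ c, (k - j c) = ∑ c with j c < l, (k - j c) + ∑ c with ¬ j c < l, (k - j c) :=
    (sum_filter_add_sum_filter_not univ (fun c => j c < l) fun c => k - j c).symm
  have h3 : ∑ c with j c < l, (k - j c) + T = q * k := by
    rw [hT, ← sum_add_distrib]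
    rw [sum_congr rfl fun c _ => (Nat.sub_add_cancel (hj c).2 : k - j c + j c = k)]
    rw [sum_const, smul_eq_mul]
  have h4 : ∑ c, (k - j c) + ∑ c, j c = s * k := by
    rw [← sum_add_distrib]
    rw [sum_congr rfl fun c _ => (Nat.sub_add_cancel (hj c).2 : k - j c + j c = k)]
    rw [sum_const, smul_eq_mul, card_univ, Fintype.card_fin]
  have h5 : m ≤ ∑ c with ¬ j c < l, (k - j c) := by
    have h6 : ({c' | j c' = k - 1} : Finset (Fin s)) ⊆ ({c | ¬ j c < l} : Finset (Fin s)) := by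
      intro c hc
      rw [mem_filter] at hc ⊢
      exact ⟨hc.1, by omega⟩
    calc m = ∑ c with j c = k - 1, 1 := by rw [hmdef, card_eq_sum_ones]
      _ = ∑ c with j c = k - 1, (k - j c) := by
          refine sum_congr rfl fun c hc => ?_
          rw [mem_filter] at hc
          omega
      _ ≤ _ := sum_le_sum_of_subset h6
  obtain ⟨s', rfl⟩ : ∃ s', s = s' + 1 := ⟨s - 1, by omega⟩
  simp only [Nat.add_sub_cancel] at hb ⊢
  obtain ⟨b, hbe⟩ : ∃ b, ∑ c, j c = s' * k + b := ⟨∑ c, j c - s' * k, by omega⟩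
  rw [hbe] at h4 ⊢
  have h7 : ∑ c, (k - j c) + b = k := by
    have : (s' + 1) * k = s' * k + k := by ring
    omega
  have h8 : q * k + b + m ≤ T + k := by omega
  have h9 : k + 2 ≤ l + m := by omega
  have h10 : q * k + b ≤ l - 2 + T := by omega
  have h11 : b * q ≤ s' * b := by
    rw [mul_comm]
    exact Nat.mul_le_mul_right _ (by omega)
  calc (s' * k + b) * q = s' * (q * k) + b * q := by ring
    _ ≤ s' * (q * k) + s' * b := Nat.add_le_add_left h11 _
    _ = s' * (q * k + b) := by ring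
    _ ≤ s' * (l - 2 + T) := Nat.mul_le_mul_left _ h10

theorem spider_many (s t k : ℕ) (hs : 2 ≤ s) (hk : 2 ≤ k) (j : Fin s → ℕ)
    (hj : ∀ c, 1 ≤ j c ∧ j c ≤ k) (hk' : ∃ c, j c = k) (hb : (s - 1) * k < ∑ c, j c)
    (hm : ∀ c, k + 1 ≤ j c + #{c' | j c' = k - 1}) :
    ∃ C : ℝ, ∀ n : ℕ, (SimpleGraph.extremalNumber n (blow s t j) : ℝ) ≤
      C * (n : ℝ) ^ (1 + ((s - 1 : ℕ) : ℝ) / ((∑ c, j c : ℕ) : ℝ)) :=
  spider s t k hs hk j hj hk' hb fun l hl hlk hc => cond_of_many s k j hj hk' hb hm l hl hlk hc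

end Pool.Agent.Helper14.SP
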