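import Pool.Agent.Helper14.SP2.F.G3

set_option autoImplicit false

namespace Pool.Agent.Helper14.SP

open Finset Classical
open Pool.Agent.Helper97.RE (IsPath Rich PP Clean Cb win card_window mem_PP win_apply unclean_count)


variable {V : Type}

/-- prefix of length `m` -/
def pre {k : ℕ} (m : ℕ) (hm : m ≤ k) (p : Fin (k + 1) → V) : Fin (m + 1) → V :=
  win p 0 m (by omega)

theorem pre_apply {k : ℕ} (m : ℕ) (hm : m ≤ k) (p : Fin (k + 1) → V) (i : ℕ) (hi : i ≤ m) :
    pre m hm p ⟨i, by omega⟩ = p ⟨i, by omega⟩ := by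
  unfold pre
  rw [win_apply]
  congr 1
  ext
  simp

section

variable [Fintype V]

theorem card_pre_fiber (G : SimpleGraph V) (Δ : ℕ) (hΔ : ∀ w, G.degree w ≤ Δ) (k m : ℕ)
    (hm : m ≤ k) (S : Finset (Fin (k + 1) → V)) (hS : ∀ p ∈ S, IsPath G p) :
    #S ≤ Δ ^ (k - m) * #(S.image (pre m hm)) := by
  refine card_le_mul_card_image _ _ ?_
  intro y _
  have h := card_window G Δ hΔ m {y} k 0 (by omega)
  rw [card_singleton, mul_one] at h
  refine le_trans (card_le_card ?_) h
  intro p hp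
  rw [mem_filter] at hp ⊢
  exact ⟨mem_PP.2 (hS p hp.1), mem_singleton.2 hp.2⟩

theorem card_start (G : SimpleGraph V) (Δ : ℕ) (hΔ : ∀ w, G.degree w ≤ Δ) (m : ℕ) (u : V)
    (S : Finset (Fin (m + 1) → V)) (hS : ∀ p ∈ S, IsPath G p ∧ p 0 = u) : #S ≤ Δ ^ m := by
  have h := card_window G Δ hΔ 0 {fun _ => u} m 0 (by omega)
  rw [card_singleton, mul_one, Nat.sub_zero] at h
  refine le_trans (card_le_card ?_) h
  intro p hp
  rw [mem_filter]
  refine ⟨mem_PP.2 (hS p hp).1, ?_⟩
  rw [mem_singleton]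
  funext i
  rw [win_apply, ← (hS p hp).2]
  congr 1
  ext
  simp

/-- few elements of `S` have few extensions of their prefix of length `m` -/
theorem card_def (G : SimpleGraph V) (K d k m B : ℕ) (hm : m ≤ k) (hK : 1 ≤ K) (hB : 1 ≤ B)
    (hΔ : ∀ w, G.degree w ≤ K * d) (u : V) (S : Finset (Fin (k + 1) → V))
    (hS : ∀ p ∈ S, IsPath G p ∧ p 0 = u) :
    B * #{q ∈ S | B * #{p ∈ S | pre m hm p = pre m hm q} < d ^ (k - m)} ≤ K ^ k * d ^ k := by
  set S' := {q ∈ S | B * #{p ∈ S | pre m hm p = pre m hm q} < d ^ (k - m)} with hS'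
  have h1 : #S' ≤ d ^ (k - m) / B * #(S'.image (pre m hm)) := by
    refine card_le_mul_card_image _ _ ?_
    intro y hy
    obtain ⟨q, hq, rfl⟩ := mem_image.1 hy
    rw [hS', mem_filter] at hq
    have h2 : #{p ∈ S' | pre m hm p = pre m hm q} ≤ #{p ∈ S | pre m hm p = pre m hm q} := by
      refine card_le_card ?_
      intro p hp
      rw [mem_filter] at hp ⊢
      exact ⟨(mem_filter.1 hp.1).1, hp.2⟩
    refine h2.trans ?_
    rw [Nat.le_div_iff_mul_le (by omega), mul_comm]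
    exact hq.2.le
  have h3 : #(S'.image (pre m hm)) ≤ (K * d) ^ m := by
    refine card_start G (K * d) hΔ m u _ ?_
    intro p hp
    obtain ⟨q, hq, rfl⟩ := mem_image.1 hp
    have hq' := hS q (mem_filter.1 hq).1
    refine ⟨hq'.1.win _ _ _, ?_⟩
    rw [← hq'.2]
    rfl
  calc B * #S' ≤ B * (d ^ (k - m) / B * #(S'.image (pre m hm))) := Nat.mul_le_mul_left _ h1
    _ = (B * (d ^ (k - m) / B)) * #(S'.image (pre m hm)) := by ring
    _ ≤ d ^ (k - m) * (K * d) ^ m := Nat.mul_le_mul (Nat.mul_div_le _ _) h3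
    _ = K ^ m * (d ^ m * d ^ (k - m)) := by rw [mul_pow]; ring
    _ = K ^ m * d ^ k := by rw [← pow_add, Nat.add_sub_cancel' hm]
    _ ≤ K ^ k * d ^ k := Nat.mul_le_mul_right _ (Nat.pow_le_pow_right hK hm)

/-- clean `k`-paths from `u` with rich ends -/
noncomputable def CR (G : SimpleGraph V) (k r : ℕ) (R : ℕ → ℕ) (u : V) :
    Finset (Fin (k + 1) → V) :=
  {p ∈ PP G k | p 0 = u ∧ Clean G (k - 1) R p ∧ Rich G k r u (p (Fin.last k))}

theorem att_of {G : SimpleGraph V} {k r B d : ℕ} {R : ℕ → ℕ} {u : V} {q : Fin (k + 1) → V}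
    (m : ℕ) (hm : m ≤ k)
    (h : d ^ (k - m) ≤ B * #{p ∈ CR G k r R u | pre m hm p = pre m hm q}) :
    Att G k r B d R m u (q ⟨m, by omega⟩) := by
  unfold Att
  refine h.trans (Nat.mul_le_mul_left _ ?_)
  refine card_le_card_of_injOn (fun p => win p m (k - m) (by omega)) ?_ ?_
  · intro p hp
    rw [mem_coe, mem_filter, CR, mem_filter] at hp
    rw [mem_coe, mem_filter]
    obtain ⟨⟨h1, h2, h3, h4⟩, h5⟩ := hp
    refine ⟨mem_PP.2 ((mem_PP.1 h1).win _ _ _), ?_, h3.win _ _ _, ?_⟩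
    · have h6 := congrFun h5 ⟨m, by omega⟩
      rw [pre_apply m hm p m le_rfl, pre_apply m hm q m le_rfl] at h6
      rw [← h6]
      rfl
    · have h6 : win p m (k - m) (by omega) (Fin.last (k - m)) = p (Fin.last k) := by
        rw [win_apply]
        congr 1
        ext
        simp only [Fin.val_last]
        omega
      change Rich G k r u (win p m (k - m) _ (Fin.last (k - m)))
      rw [h6]
      exact h4
  · intro p hp p' hp' hpp
    rw [mem_coe, mem_filter] at hp hp'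
    have h5 : pre m hm p = pre m hm p' := hp.2.trans hp'.2.symm
    funext i
    by_cases hi : (i : ℕ) ≤ m
    · have h6 := congrFun h5 ⟨i, by omega⟩
      rw [pre_apply m hm p i hi, pre_apply m hm p' i hi] at h6
      exact h6
    · have h6 := congrFun hpp ⟨i - m, by have := i.2; omega⟩
      simp only [win_apply] at h6
      have h7 : (⟨m + ((i : ℕ) - m), by have := i.2; omega⟩ : Fin (k + 1)) = i := by
        ext
        simp only
        omega
      rw [h7] at h6
      exact h6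

/-- the elements of `CR` all of whose prefixes have many extensions -/
noncomputable def ND (G : SimpleGraph V) (k r B d : ℕ) (R : ℕ → ℕ) (u : V) :
    Finset (Fin (k + 1) → V) :=
  {q ∈ CR G k r R u | ∀ m (hm : m ≤ k), m ≤ k - 1 →
    d ^ (k - m) ≤ B * #{p ∈ CR G k r R u | pre m hm p = pre m hm q}}

theorem card_ND (G : SimpleGraph V) (K d k r B E : ℕ) (R : ℕ → ℕ) (hK : 1 ≤ K)
    (hB : 8 * E * (k + 1) * K ^ k ≤ B) (hB1 : 1 ≤ B)
    (hΔ : ∀ w, G.degree w ≤ K * d) (u : V) (hu : d ^ k ≤ 4 * E * #(CR G k r R u)) :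
    d ^ k ≤ 8 * E * #(ND G k r B d R u) := by
  have hS : ∀ p ∈ CR G k r R u, IsPath G p ∧ p 0 = u := by
    intro p hp
    rw [CR, mem_filter] at hp
    exact ⟨mem_PP.1 hp.1, hp.2.1⟩
  set bad : ℕ → Finset (Fin (k + 1) → V) := fun m => if hm : m ≤ k then
    {q ∈ CR G k r R u | B * #{p ∈ CR G k r R u | pre m hm p = pre m hm q} < d ^ (k - m)} else ∅
    with hbad
  have h1 : CR G k r R u ⊆ ND G k r B d R u ∪ (range (k - 1 + 1)).biUnion bad := by
    intro q hq
    rw [mem_union]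
    by_cases h : q ∈ ND G k r B d R u
    · exact Or.inl h
    · right
      rw [ND, mem_filter] at h
      push Not at h
      obtain ⟨m, hm, hm1, h2⟩ := h hq
      rw [mem_biUnion]
      refine ⟨m, mem_range.2 (by omega), ?_⟩
      simp only [hbad, dif_pos hm, mem_filter]
      exact ⟨hq, h2⟩
  have h2 : ∀ m ∈ range (k - 1 + 1), B * #(bad m) ≤ K ^ k * d ^ k := by
    intro m hm
    have hmk : m ≤ k := by
      have := mem_range.1 hm
      omega
    simp only [hbad, dif_pos hmk]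
    exact card_def G K d k m B hmk hK hB1 hΔ u _ hS
  have h3 : B * #((range (k - 1 + 1)).biUnion bad) ≤ (k + 1) * (K ^ k * d ^ k) := by
    calc B * #((range (k - 1 + 1)).biUnion bad) ≤ B * ∑ m ∈ range (k - 1 + 1), #(bad m) :=
          Nat.mul_le_mul_left _ card_biUnion_le
      _ = ∑ m ∈ range (k - 1 + 1), B * #(bad m) := mul_sum _ _ _
      _ ≤ ∑ m ∈ range (k - 1 + 1), K ^ k * d ^ k := sum_le_sum h2
      _ = (k - 1 + 1) * (K ^ k * d ^ k) := by rw [sum_const, card_range, smul_eq_mul]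
      _ ≤ _ := Nat.mul_le_mul_right _ (by omega)
  have h4 : 8 * E * #((range (k - 1 + 1)).biUnion bad) ≤ d ^ k := by
    have hp : 0 < (k + 1) * K ^ k := Nat.mul_pos (by omega) (Nat.pow_pos hK)
    refine Nat.le_of_mul_le_mul_left ?_ hp
    calc (k + 1) * K ^ k * (8 * E * #((range (k - 1 + 1)).biUnion bad))
        = (8 * E * (k + 1) * K ^ k) * #((range (k - 1 + 1)).biUnion bad) := by ring
      _ ≤ B * #((range (k - 1 + 1)).biUnion bad) := Nat.mul_le_mul_right _ hB
      _ ≤ (k + 1) * (K ^ k * d ^ k) := h3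
      _ = (k + 1) * K ^ k * d ^ k := by ring
  have h5 := (card_le_card h1).trans (card_union_le _ _)
  have h6 : 8 * E * #(CR G k r R u) ≤ 8 * E * #(ND G k r B d R u) +
      8 * E * #((range (k - 1 + 1)).biUnion bad) := by
    rw [← mul_add]
    exact Nat.mul_le_mul_left _ h5
  have h7 : 8 * E * #(CR G k r R u) = 2 * (4 * E * #(CR G k r R u)) := by ring
  omega

theorem ND_att {G : SimpleGraph V} {k r B d : ℕ} {R : ℕ → ℕ} {u : V} {q : Fin (k + 1) → V}
    (hq : q ∈ ND G k r B d R u) (m : ℕ) (hm : m ≤ k) (hm1 : m ≤ k - 1) :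
    Att G k r B d R m u (q ⟨m, by omega⟩) := by
  rw [ND, mem_filter] at hq
  exact att_of m hm (hq.2 m hm hm1)

theorem card_image_pre (G : SimpleGraph V) (K d k r B E : ℕ) (R : ℕ → ℕ) (hK : 1 ≤ K)
    (hd : 1 ≤ d) (hΔ : ∀ w, G.degree w ≤ K * d) (u : V)
    (hu : d ^ k ≤ 8 * E * #(ND G k r B d R u)) (m : ℕ) (hm : m ≤ k) :
    d ^ m ≤ 8 * E * K ^ (k - m) * #((ND G k r B d R u).image (pre m hm)) := by
  have h1 := card_pre_fiber G (K * d) hΔ k m hm (ND G k r B d R u) (by
    intro p hp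
    rw [ND, mem_filter, CR, mem_filter] at hp
    exact mem_PP.1 hp.1.1)
  have hp : 0 < d ^ (k - m) := Nat.pow_pos hd
  refine Nat.le_of_mul_le_mul_left ?_ hp
  calc d ^ (k - m) * d ^ m = d ^ k := by rw [← pow_add, Nat.sub_add_cancel hm]
    _ ≤ 8 * E * #(ND G k r B d R u) := hu
    _ ≤ 8 * E * ((K * d) ^ (k - m) * #((ND G k r B d R u).image (pre m hm))) :=
      Nat.mul_le_mul_left _ h1
    _ = d ^ (k - m) * (8 * E * K ^ (k - m) * #((ND G k r B d R u).image (pre m hm))) := by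
      rw [mul_pow]; ring

theorem vt_of (G : SimpleGraph V) (K d k r B E : ℕ) (R : ℕ → ℕ) (hK : 1 ≤ K)
    (hd : 1 ≤ d) (hΔ : ∀ w, G.degree w ≤ K * d) (u : V) (hB : 8 * E * K ≤ B)
    (hu : d ^ k ≤ 8 * E * #(ND G k r B d R u)) : VT G k r B d R u := by
  unfold VT
  have h1 := card_image_pre G K d k r B E R hK hd hΔ u hu (k - 1) (by omega)
  have h2 : 8 * E * K ^ (k - (k - 1)) ≤ B := by
    refine le_trans (Nat.mul_le_mul_left _ ?_) hB
    calc K ^ (k - (k - 1)) ≤ K ^ 1 := Nat.pow_le_pow_right hK (by omega)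
      _ = K := pow_one _
  refine h1.trans (Nat.mul_le_mul h2 (card_le_card ?_))
  intro p hp
  obtain ⟨q, hq, rfl⟩ := mem_image.1 hp
  have hq' := hq
  rw [ND, mem_filter, CR, mem_filter] at hq'
  obtain ⟨⟨h3, h4, h5, h6⟩, h7⟩ := hq'
  rw [mem_filter]
  refine ⟨mem_PP.2 ((mem_PP.1 h3).win _ _ _), ?_, h5.win _ _ _, ?_⟩
  · rw [← h4]
    rfl
  · have h8 := ND_att hq (k - 1) (by omega) le_rfl
    have h9 : pre (k - 1) (by omega) q (Fin.last (k - 1)) = q ⟨k - 1, by omega⟩ :=
      pre_apply (k - 1) (by omega) q (k - 1) le_rfl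
    rw [h9]
    exact h8

end

/-- the centre is `u` and there are attachments along the legs -/
def AA {ι : Type} [Fintype V] (G : SimpleGraph V) (k r B d : ℕ)
    (R : ℕ → ℕ) (j : ι → ℕ) (u : V) (x : Obj ι V) : Prop :=
  x.1 = u ∧ ∀ c m, 1 ≤ m → m ≤ j c → Att G k r B d R m u (x.2 c m)

/-- walk systems with attachments at `u` -/
noncomputable def WA {ι : Type} [Fintype ι] [Fintype V] (G : SimpleGraph V) (k r B d : ℕ)
    (R : ℕ → ℕ) (j : ι → ℕ) (u : V) : Finset (Obj ι V) :=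
  {x ∈ WK G j | AA G k r B d R j u x}

theorem card_WA {ι : Type} [Fintype ι] [Fintype V] (G : SimpleGraph V) (K d k r B E : ℕ)
    (R : ℕ → ℕ) (hK : 1 ≤ K) (hd : 1 ≤ d) (hΔ : ∀ w, G.degree w ≤ K * d) (u : V)
    (hu : d ^ k ≤ 8 * E * #(ND G k r B d R u)) (j : ι → ℕ) (hj : ∀ c, j c < k) :
    d ^ (∑ c, j c) ≤ (8 * E * K ^ k) ^ (Fintype.card ι) * #(WA G k r B d R j u) := by
  set T : ∀ c : ι, Finset (Fin (j c + 1) → V) := fun c =>
    (ND G k r B d R u).image (pre (j c) (hj c).le) with hT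
  have h1 : ∏ c, #(T c) ≤ #(WA G k r B d R j u) := by
    rw [← Fintype.card_piFinset]
    refine card_le_card_of_injOn (fun g => ((u, fun c m => g c ⟨min m (j c), by omega⟩) :
      Obj ι V)) ?_ ?_
    · intro g hg
      rw [mem_coe, Fintype.mem_piFinset] at hg
      rw [mem_coe, WA, mem_filter, mem_WK]
      have hq : ∀ c, ∃ q ∈ ND G k r B d R u, pre (j c) (hj c).le q = g c := fun c =>
        mem_image.1 (hg c)
      have hval : ∀ c (q : Fin (k + 1) → V), pre (j c) (hj c).le q = g c → ∀ m (hm : m ≤ j c),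
          g c ⟨min m (j c), by omega⟩ = q ⟨m, by have := hj c; omega⟩ := by
        intro c q hqc m hm
        rw [← hqc]
        have h2 := pre_apply (j c) (hj c).le q m hm
        rw [← h2]
        congr 1
        ext
        exact min_eq_left hm
      refine ⟨⟨?_, ?_, ?_⟩, rfl, ?_⟩
      · refine Prod.ext rfl ?_
        funext c m
        change g c ⟨min (min m (j c)) (j c), _⟩ = g c ⟨min m (j c), _⟩
        congr 1
        ext
        simp
      · intro c
        obtain ⟨q, hq1, hq2⟩ := hq c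
        have h2 := hval c q hq2 0 (Nat.zero_le _)
        change g c ⟨min 0 (j c), _⟩ = u
        rw [h2]
        rw [ND, mem_filter, CR, mem_filter] at hq1
        exact hq1.1.2.1
      · intro c m hm
        obtain ⟨q, hq1, hq2⟩ := hq c
        have h2 := hval c q hq2 m hm.le
        have h3 := hval c q hq2 (m + 1) hm
        change G.Adj (g c ⟨min m (j c), _⟩) (g c ⟨min (m + 1) (j c), _⟩)
        rw [h2, h3]
        rw [ND, mem_filter, CR, mem_filter] at hq1
        exact (mem_PP.1 hq1.1.1).adj m (by have := hj c; omega)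
      · intro c m hm1 hm
        obtain ⟨q, hq1, hq2⟩ := hq c
        have h2 := hval c q hq2 m hm
        change Att G k r B d R m u (g c ⟨min m (j c), _⟩)
        rw [h2]
        exact ND_att hq1 m (by have := hj c; omega) (by have := hj c; omega)
    · intro g _ g' _ hgg
      funext c i
      have h2 := congrFun (congrFun (congrArg Prod.snd hgg) c) (i : ℕ)
      simp only at h2
      have h3 : (⟨min (i : ℕ) (j c), by omega⟩ : Fin (j c + 1)) = i := by
        ext
        simp only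
        have := i.2
        omega
      rw [h3] at h2
      exact h2
  have h2 : ∀ c, d ^ (j c) ≤ 8 * E * K ^ k * #(T c) := by
    intro c
    have h3 := card_image_pre G K d k r B E R hK hd hΔ u hu (j c) (hj c).le
    refine h3.trans (Nat.mul_le_mul_right _ (Nat.mul_le_mul_left _
      (Nat.pow_le_pow_right hK (by omega))))
  calc d ^ (∑ c, j c) = ∏ c, d ^ (j c) := (prod_pow_eq_pow_sum _ _ _).symm
    _ ≤ ∏ c, (8 * E * K ^ k * #(T c)) := prod_le_prod' fun c _ => h2 c
    _ = (8 * E * K ^ k) ^ (Fintype.card ι) * ∏ c, #(T c) := by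
      rw [prod_mul_distrib, prod_const, card_univ]
    _ ≤ _ := Nat.mul_le_mul_left _ h1

/-- SP2-D1 -/
theorem copies_k {ι : Type} [Fintype ι] (j : ι → ℕ) (k : ℕ) (hj1 : ∀ c, 1 ≤ j c)
    (hj : ∀ c, j c < k) (hk : 3 ≤ k ∨ Subsingleton ι) (K E : ℕ) (hK : 1 ≤ K) : ∃ B E' : ℕ,
    ∀ R : ℕ → ℕ, ∃ d0 : ℕ, ∀ {V : Type} [Fintype V] [Nonempty V] (G : SimpleGraph V) (d r : ℕ),
      (∀ w, d ≤ G.degree w ∧ G.degree w ≤ K * d) → d0 ≤ d → Rare G E' d (k - 1) R →
      Fintype.card V * d ^ k < E * #{p ∈ PP G k | Rich G k r (p 0) (p (Fin.last k))} →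
      Fintype.card V * d ^ (∑ c, j c) ≤ B * #{x ∈ WK G j | GA G k r B d R j x} := by
  obtain ⟨M3, hM3⟩ := card_not_good j hj1 (k - 1) (fun c => by have := hj c; omega)
    (hk.imp (fun h => by omega) id) K
  set M1 : ℕ := (k - 1 + 1) * (k + 1) * K ^ k with hM1
  set M2 : ℕ := (∑ c, (j c + 1)) ^ 2 with hM2
  set P : ℕ := (8 * E * K ^ k) ^ (Fintype.card ι) with hP
  set B : ℕ := 8 * E * (k + 1) * K ^ k + 8 * E * K + 16 * E * K ^ k * P + 1 with hB
  refine ⟨B, 2 * E * M1 + 16 * E * K ^ k * P * M3 + 1, fun R => ⟨2 * P * M2 * K ^ (∑ c, j c) + 1,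
    ?_⟩⟩
  intro V _ _ G d r hdeg hd0 hrare hmany
  have hd : 1 ≤ d := by omega
  have hΔ : ∀ w, G.degree w ≤ K * d := fun w => (hdeg w).2
  have hdk : 0 < d ^ k := Nat.pow_pos hd
  set n : ℕ := Fintype.card V with hn
  -- clean rich paths
  have hun : 2 * E * #{p ∈ PP G k | ¬ Clean G (k - 1) R p} ≤ n * d ^ k := by
    have h1 := unclean_count G (k - 1) K d (2 * E * M1 + 16 * E * K ^ k * P * M3 + 1) R hK hΔ
      (fun m h2 hm => hrare m h2 hm) k
    have hM1p : 0 < M1 := by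
      rw [hM1]
      exact Nat.mul_pos (Nat.mul_pos (by omega) (by omega)) (Nat.pow_pos hK)
    refine Nat.le_of_mul_le_mul_left ?_ hM1p
    calc M1 * (2 * E * #{p ∈ PP G k | ¬ Clean G (k - 1) R p})
        = (2 * E * M1) * #{p ∈ PP G k | ¬ Clean G (k - 1) R p} := by ring
      _ ≤ (2 * E * M1 + 16 * E * K ^ k * P * M3 + 1) *
          #{p ∈ PP G k | ¬ Clean G (k - 1) R p} := Nat.mul_le_mul_right _ (by omega)
      _ ≤ M1 * (n * d ^ k) := h1
  have hCR : n * d ^ k < 2 * E * ∑ u, #(CR G k r R u) := by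
    have h1 : ({p ∈ PP G k | Rich G k r (p 0) (p (Fin.last k))} : Finset (Fin (k + 1) → V)) ⊆
        {p ∈ PP G k | ¬ Clean G (k - 1) R p} ∪ univ.biUnion (CR G k r R) := by
      intro p hp
      rw [mem_filter] at hp
      rw [mem_union]
      by_cases hc : Clean G (k - 1) R p
      · right
        rw [mem_biUnion]
        refine ⟨p 0, mem_univ _, ?_⟩
        rw [CR, mem_filter]
        exact ⟨hp.1, rfl, hc, hp.2⟩
      · left
        rw [mem_filter]
        exact ⟨hp.1, hc⟩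
    have h2 := (card_le_card h1).trans (card_union_le _ _)
    have h3 : #(univ.biUnion (CR G k r R)) ≤ ∑ u, #(CR G k r R u) := card_biUnion_le
    have h4 : E * #{p ∈ PP G k | Rich G k r (p 0) (p (Fin.last k))} ≤
        E * (#{p ∈ PP G k | ¬ Clean G (k - 1) R p} + ∑ u, #(CR G k r R u)) :=
      Nat.mul_le_mul_left _ (h2.trans (Nat.add_le_add_left h3 _))
    have h5 : 2 * (n * d ^ k) < 2 * E * #{p ∈ PP G k | ¬ Clean G (k - 1) R p} +
        2 * E * ∑ u, #(CR G k r R u) := by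
      have h6 : 2 * (E * (#{p ∈ PP G k | ¬ Clean G (k - 1) R p} + ∑ u, #(CR G k r R u))) =
          2 * E * #{p ∈ PP G k | ¬ Clean G (k - 1) R p} + 2 * E * ∑ u, #(CR G k r R u) := by ring
      omega
    omega
  -- the good centres
  set U0 : Finset V := {u | d ^ k ≤ 4 * E * #(CR G k r R u)} with hU0
  have hCRle : ∀ u, #(CR G k r R u) ≤ (K * d) ^ k := fun u => by
    refine card_start G (K * d) hΔ k u _ ?_
    intro p hp
    rw [CR, mem_filter] at hp
    exact ⟨mem_PP.1 hp.1, hp.2.1⟩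
  have hU0card : n ≤ 4 * E * K ^ k * #U0 := by
    have h1 : ∀ u, 4 * E * #(CR G k r R u) ≤ d ^ k +
        (if u ∈ U0 then 4 * E * (K * d) ^ k else 0) := by
      intro u
      by_cases hu : u ∈ U0
      · rw [if_pos hu]
        exact (Nat.mul_le_mul_left _ (hCRle u)).trans (Nat.le_add_left _ _)
      · rw [if_neg hu]
        rw [hU0, mem_filter] at hu
        have : ¬ d ^ k ≤ 4 * E * #(CR G k r R u) := fun hc => hu ⟨mem_univ _, hc⟩
        omega
    have h2 : 4 * E * ∑ u, #(CR G k r R u) ≤ n * d ^ k + #U0 * (4 * E * (K * d) ^ k) := by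
      rw [mul_sum]
      refine (sum_le_sum fun u _ => h1 u).trans ?_
      rw [sum_add_distrib, sum_const, card_univ, smul_eq_mul, sum_ite_mem, univ_inter, sum_const,
        smul_eq_mul]
    have h3 : n * d ^ k < (4 * E * K ^ k * #U0) * d ^ k := by
      have h4 : #U0 * (4 * E * (K * d) ^ k) = (4 * E * K ^ k * #U0) * d ^ k := by
        rw [mul_pow]; ring
      have h5 : 4 * E * ∑ u, #(CR G k r R u) = 2 * (2 * E * ∑ u, #(CR G k r R u)) := by ring
      rw [h4, h5] at h2
      omega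
    exact (Nat.lt_of_mul_lt_mul_right h3).le
  -- at a good centre
  have hgood : ∀ u ∈ U0, VT G k r B d R u ∧
      d ^ (∑ c, j c) ≤ 2 * P * #{x ∈ WA G k r B d R j u | Sp G j x} := by
    intro u hu
    have hu' : d ^ k ≤ 4 * E * #(CR G k r R u) := (mem_filter.1 hu).2
    have h1 := card_ND G K d k r B E R hK (by omega) (by omega) hΔ u hu'
    refine ⟨vt_of G K d k r B E R hK hd hΔ u (by omega) h1, ?_⟩
    have h2 := card_WA G K d k r B E R hK hd hΔ u h1 j hj
    have h3 := card_wk_not_sp G (K * d) hΔ j {u}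
    rw [card_singleton, one_mul] at h3
    have h4 : #(WA G k r B d R j u) ≤ #{x ∈ WA G k r B d R j u | Sp G j x} +
        #{x ∈ WK G j | x.1 ∈ ({u} : Finset V) ∧ ¬ Sp G j x} := by
      refine le_trans (card_le_card ?_) (card_union_le _ _)
      intro x hx
      rw [mem_union]
      by_cases hs : Sp G j x
      · left
        rw [mem_filter]
        exact ⟨hx, hs⟩
      · right
        have hx' := hx
        rw [WA, mem_filter] at hx'
        rw [mem_filter]
        exact ⟨hx'.1, mem_singleton.2 hx'.2.1, hs⟩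
    have h5 : 2 * P * (M2 * (K * d) ^ (∑ c, j c - 1)) ≤ d ^ (∑ c, j c) := by
      rcases Nat.eq_zero_or_pos (∑ c, j c) with h0 | h0
      · have : M2 = 0 := by
          rw [hM2]
          have : ∑ c, (j c + 1) = 0 := by
            rw [sum_eq_zero_iff] at h0 ⊢
            intro c hc
            have h6 := h0 c hc
            have h7 := hj1 c
            omega
          rw [this]
          norm_num
        rw [this]
        simp
      · obtain ⟨e, he⟩ : ∃ e, ∑ c, j c = e + 1 := ⟨∑ c, j c - 1, by omega⟩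
        rw [he, Nat.add_sub_cancel, pow_succ d e]
        have h6 : 2 * P * M2 * K ^ (e + 1) ≤ d := by
          rw [he] at hd0
          omega
        calc 2 * P * (M2 * (K * d) ^ e) = (2 * P * M2 * K ^ e) * d ^ e := by
              rw [mul_pow]; ring
          _ ≤ (2 * P * M2 * K ^ (e + 1)) * d ^ e :=
            Nat.mul_le_mul_right _ (Nat.mul_le_mul_left _ (Nat.pow_le_pow_right hK (by omega)))
          _ ≤ d * d ^ e := Nat.mul_le_mul_right _ h6
          _ = d ^ e * d := by ring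
    have h7 : 2 * P * #(WA G k r B d R j u) ≤
        2 * P * #{x ∈ WA G k r B d R j u | Sp G j x} + 2 * P * (M2 * (K * d) ^ (∑ c, j c - 1)) := by
      rw [← mul_add]
      exact Nat.mul_le_mul_left _ (h4.trans (Nat.add_le_add_left h3 _))
    have h8 : 2 * P * #(WA G k r B d R j u) = 2 * (P * #(WA G k r B d R j u)) := by ring
    rw [← hP] at h2
    omega
  -- all of them
  have htot : #U0 * d ^ (∑ c, j c) ≤ 2 * P * #{x ∈ WK G j | Sp G j x ∧ x.1 ∈ U0 ∧
      AA G k r B d R j x.1 x} := by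
    have h1 : ({x ∈ WK G j | Sp G j x ∧ x.1 ∈ U0 ∧ AA G k r B d R j x.1 x} :
        Finset (Obj ι V)) = U0.biUnion fun u => {x ∈ WA G k r B d R j u | Sp G j x} := by
      ext x
      simp only [mem_filter, mem_biUnion, WA]
      constructor
      · rintro ⟨h1, h2, h3, h4⟩
        exact ⟨x.1, h3, ⟨h1, h4⟩, h2⟩
      · rintro ⟨u, h3, ⟨h1, h4⟩, h2⟩
        have h5 : x.1 = u := h4.1
        subst h5
        exact ⟨h1, h2, h3, h4⟩
    have h2 : #{x ∈ WK G j | Sp G j x ∧ x.1 ∈ U0 ∧ AA G k r B d R j x.1 x} =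
        ∑ u ∈ U0, #{x ∈ WA G k r B d R j u | Sp G j x} := by
      rw [h1, card_biUnion]
      intro u _ u' _ huu
      rw [Function.onFun, disjoint_left]
      intro x hx hx'
      simp only [mem_filter, WA] at hx hx'
      exact huu (hx.1.2.1.symm.trans hx'.1.2.1)
    rw [h2, mul_sum, ← smul_eq_mul, ← sum_const]
    exact sum_le_sum fun u hu => (hgood u hu).2
  have hng := hM3 G d (2 * E * M1 + 16 * E * K ^ k * P * M3 + 1) R hΔ hd hrare
  have hfin : #{x ∈ WK G j | Sp G j x ∧ x.1 ∈ U0 ∧ AA G k r B d R j x.1 x} ≤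
      #{x ∈ WK G j | GA G k r B d R j x} + #{x ∈ WK G j | Sp G j x ∧ ¬ Good G (k - 1) R j x} := by
    refine le_trans (card_le_card ?_) (card_union_le _ _)
    intro x hx
    rw [mem_filter] at hx
    rw [mem_union, mem_filter, mem_filter]
    by_cases hg : Good G (k - 1) R j x
    · exact Or.inl ⟨hx.1, hg, hx.2.2.2.2, (hgood x.1 hx.2.2.1).1⟩
    · exact Or.inr ⟨hx.1, hx.2.1, hg⟩
  have hng2 : 16 * E * K ^ k * P * #{x ∈ WK G j | Sp G j x ∧ ¬ Good G (k - 1) R j x} ≤
      n * d ^ (∑ c, j c) := by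
    rcases Nat.eq_zero_or_pos M3 with h0 | h0
    · rw [h0, zero_mul] at hng
      have h1 : #{x ∈ WK G j | Sp G j x ∧ ¬ Good G (k - 1) R j x} = 0 := by
        rcases Nat.eq_zero_or_pos #{x ∈ WK G j | Sp G j x ∧ ¬ Good G (k - 1) R j x} with h | h
        · exact h
        · have := Nat.mul_pos (show 0 < 2 * E * M1 + 16 * E * K ^ k * P * M3 + 1 by omega) h
          rw [h0] at this
          omega
      rw [h1]
      simp
    · refine Nat.le_of_mul_le_mul_left ?_ h0
      calc M3 * (16 * E * K ^ k * P * #{x ∈ WK G j | Sp G j x ∧ ¬ Good G (k - 1) R j x})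
          = (16 * E * K ^ k * P * M3) * #{x ∈ WK G j | Sp G j x ∧ ¬ Good G (k - 1) R j x} := by
            ring
        _ ≤ (2 * E * M1 + 16 * E * K ^ k * P * M3 + 1) *
            #{x ∈ WK G j | Sp G j x ∧ ¬ Good G (k - 1) R j x} := Nat.mul_le_mul_right _ (by omega)
        _ ≤ M3 * (n * d ^ (∑ c, j c)) := hng
  have h1 : 2 * (n * d ^ (∑ c, j c)) ≤ 16 * E * K ^ k * P *
      #{x ∈ WK G j | Sp G j x ∧ x.1 ∈ U0 ∧ AA G k r B d R j x.1 x} := by
    calc 2 * (n * d ^ (∑ c, j c)) ≤ 2 * ((4 * E * K ^ k * #U0) * d ^ (∑ c, j c)) :=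
          Nat.mul_le_mul_left _ (Nat.mul_le_mul_right _ hU0card)
      _ = 8 * E * K ^ k * (#U0 * d ^ (∑ c, j c)) := by ring
      _ ≤ 8 * E * K ^ k * (2 * P * #{x ∈ WK G j | Sp G j x ∧ x.1 ∈ U0 ∧
          AA G k r B d R j x.1 x}) := Nat.mul_le_mul_left _ htot
      _ = _ := by ring
  have h2 : 16 * E * K ^ k * P * #{x ∈ WK G j | Sp G j x ∧ x.1 ∈ U0 ∧ AA G k r B d R j x.1 x} ≤
      16 * E * K ^ k * P * #{x ∈ WK G j | GA G k r B d R j x} +
      16 * E * K ^ k * P * #{x ∈ WK G j | Sp G j x ∧ ¬ Good G (k - 1) R j x} := by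
    rw [← mul_add]
    exact Nat.mul_le_mul_left _ hfin
  have h3 : n * d ^ (∑ c, j c) ≤ 16 * E * K ^ k * P * #{x ∈ WK G j | GA G k r B d R j x} := by
    omega
  exact h3.trans (Nat.mul_le_mul_right _ (by omega))

end Pool.Agent.Helper14.SP
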