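import Pool.Agent.Helper14.SP2.F.G4

/-!
# Project SP2, piece D11: the flexible family at the end (5.7)
-/

set_option autoImplicit false

namespace Pool.Agent.Helper14.SP

open Finset Classical
open Pool.Agent.Helper97.RE (IsPath Rich PP Clean Cb)

namespace D11

/-- the object without leg `b` -/
def rs {ι V : Type} (b : ι) (x : Obj ι V) : Obj {c : ι // c ≠ b} V := (x.1, fun c => x.2 c.1)

/-- the type without leg `b` -/
def ri {ι : Type} (b : ι) (i : ι → ℕ) : {c : ι // c ≠ b} → ℕ := fun c => i c.1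

theorem Sp_rs {ι V : Type} {G : SimpleGraph V} {i : ι → ℕ} (b : ι) {x : Obj ι V}
    (h : Sp G i x) : Sp G (ri b i) (rs b x) where
  start c := h.start c.1
  adj c m hm := h.adj c.1 m hm
  inj c c' m m' h1 h2 h3 h4 := by
    have := h.inj c.1 c'.1 m m' h1 h2 h3 h4
    exact ⟨Subtype.ext this.1, this.2⟩

theorem sum_ri_le {ι : Type} [Fintype ι] (b : ι) (i : ι → ℕ) :
    ∑ c, (ri b i c + 1) + (i b + 1) = ∑ c, (i c + 1) := by
  have h := Fintype.sum_eq_add_sum_subtype_ne (fun c => i c + 1) b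
  rw [h, add_comm]
  congr 1

theorem card_sub_le {ι : Type} [Fintype ι] (b : ι) :
    Fintype.card {c : ι // c ≠ b} ≤ Fintype.card ι := Fintype.card_subtype_le _

theorem inn_rs_subset {ι V : Type} [Fintype ι] (b : ι) (i : ι → ℕ) (x : Obj ι V) :
    inn (ri b i) (rs b x) ⊆ inn i x := by
  intro v hv
  rw [mem_inn] at hv ⊢
  rcases hv with h | ⟨c, m, h1, h2, h3⟩
  · exact Or.inl h
  · exact Or.inr ⟨c.1, m, h1, h2, h3⟩

/-- pairs -/
structure Pr (V : Type) where
  a : V
  b : V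

/-- the key map -/
def ph {ι V : Type} (b : ι) (i : ι → ℕ) (ω : Obj ι V × V) :
    Obj {c : ι // c ≠ b} V × Pr V := (rs b ω.1, ⟨ω.1.2 b (i b), ω.2⟩)

/-- moving leg `b` from the short to the long legs -/
noncomputable def eqv {ι : Type} (F : Type) (b : ι) : ι ⊕ F ≃ {c : ι // c ≠ b} ⊕ (Unit ⊕ F) where
  toFun := fun a => match a with
    | Sum.inl c => if h : c = b then Sum.inr (Sum.inl ()) else Sum.inl ⟨c, h⟩
    | Sum.inr f => Sum.inr (Sum.inr f)
  invFun := fun a => match a with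
    | Sum.inl c => Sum.inl c.1
    | Sum.inr (Sum.inl _) => Sum.inl b
    | Sum.inr (Sum.inr f) => Sum.inr f
  left_inv := by
    rintro (c | f)
    · by_cases h : c = b
      · simp [h]
      · simp [h]
    · rfl
  right_inv := by
    rintro (c | (u | f))
    · simp [c.2]
    · simp
    · rfl

end D11

open D11

/-- the flexible family at the end -/
theorem stepD_flex {ι F V : Type} [Fintype ι] [Fintype F] [Fintype V] (G : SimpleGraph V)
    (i j : ι → ℕ) (b : ι) (k N0 r : ℕ) (hi : ∀ c, 1 ≤ i c ∧ i c ≤ j c) (hk : 1 ≤ k)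
    (hi1 : ∀ c c', i c = 1 → i c' = 1 → c = c') (hr : rmin j F k N0 ≤ r)
    (Ω : Finset (Obj ι V × V)) (zb : Obj ι V × V → V) (ζ : V → F → V) (hne : Ω.Nonempty)
    (hzb : ∀ ω ∈ Ω, zb ω = if Even (j b - i b) then ω.1.2 b (i b) else ω.2)
    (hΩ : ∀ ω ∈ Ω, tr i ω.1 = ω.1 ∧ Sp G i ω.1 ∧ ω.2 ∉ vs i ω.1)
    (huniq : ∀ ω ∈ Ω, ∀ ω' ∈ Ω, ω.1.1 = ω'.1.1 → ends i ω.1 = ends i ω'.1 → ω.1 = ω'.1)
    (hζ : ∀ ω ∈ Ω, Function.Injective (ζ (ω.1.2 b (i b))) ∧
      ∀ f, Rich G k r ω.1.1 (ζ (ω.1.2 b (i b)) f) ∧ ζ (ω.1.2 b (i b)) f ∉ insert ω.2 (vs i ω.1))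
    (hleg : ∀ ω ∈ Ω, ∀ Z : Finset V, #Z ≤ rmin j F k N0 → Disjoint (pth i b ω.1) Z →
      ω.1.1 ∉ Z → ∃ q : ℕ → V, q 0 = ω.1.1 ∧ q (j b) = zb ω ∧
        (∀ m, m < j b → G.Adj (q m) (q (m + 1))) ∧
        (∀ m m', m ≤ j b → m' ≤ j b → q m = q m' → m = m') ∧
        ∀ m, 1 ≤ m → m < j b → q m ∉ Z)
    (hcov : ∀ T : (ι → V) → V → Finset V, (∀ W v, #(T W v) ≤ nmin j N0) →
      2 * #{ω ∈ Ω | ¬ Disjoint (inn i ω.1) (T (ends i ω.1) ω.2)} ≤ #Ω)
    (hst : ∀ l, l ≠ b → i l < j l → 2 * (Fintype.card ι * (nmin j N0 *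
      #(Ω.image fun ω => (tr (Function.update (dn i l) b 0) ω.1, ω.1.2 b (i b), ω.2)))) < #Ω) :
    ∃ X : ι ⊕ F → V, Flex G (Sum.elim j fun _ => k) N0 X := by
  -- the map is injective on `Ω`
  have hinj : Set.InjOn (ph b i) (Ω : Set (Obj ι V × V)) := by
    intro ω hω ω' hω' he
    have hω1 := mem_coe.1 hω
    have hω1' := mem_coe.1 hω'
    simp only [ph, rs, Prod.mk.injEq, Pr.mk.injEq] at he
    obtain ⟨⟨h1, h2⟩, h3, h4⟩ := he
    refine Prod.ext (huniq ω hω1 ω' hω1' h1 ?_) h4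
    funext c
    by_cases hc : c = b
    · subst hc
      exact h3
    · exact congrFun (congrFun h2 ⟨c, hc⟩) (i c)
  set Ω' : Finset (Obj {c : ι // c ≠ b} V × Pr V) := Ω.image (ph b i) with hΩ'
  have hcard : #Ω' = #Ω := card_image_of_injOn hinj
  obtain ⟨Blk, hBlk⟩ : ∃ Blk : Obj {c : ι // c ≠ b} V × Pr V → Finset V → Prop,
      ∀ ω' B, Blk ω' B ↔ ∃ ω ∈ Ω, ph b i ω = ω' ∧ ¬ Disjoint (inn i ω.1) B :=
    ⟨fun ω' B => ∃ ω ∈ Ω, ph b i ω = ω' ∧ ¬ Disjoint (inn i ω.1) B, fun _ _ => Iff.rfl⟩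
  have hSle : ∑ c, (ri b j c + 1) + (j b + 1) = ∑ c, (j c + 1) := sum_ri_le b j
  have hnm : nmin j N0 = N0 + 2 * (∑ c, (j c + 1) + 1) := rfl
  -- the flexible family
  obtain ⟨Fam, hFΩ, hFne, hFa, hFb⟩ := ff (ri b i) (ri b j) (fun c => (hi c.1).1) (nmin j N0) 1 Ω' Blk
    (by
      intro T hT
      have h := hcov (fun W v => T (fun c => W c.1, ⟨W b, v⟩)) (fun W v => hT _)
      rw [hcard]
      refine le_trans (Nat.mul_le_mul_left 2 ?_) h
      have hsub : (Ω'.filter fun ω => Blk ω (T (ends (ri b i) ω.1, ω.2))) ⊆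
          (Ω.filter fun ω => ¬ Disjoint (inn i ω.1)
            (T (fun c => ends i ω.1 c.1, ⟨ends i ω.1 b, ω.2⟩))).image (ph b i) := by
        intro ω' hω'
        rw [mem_filter, hBlk] at hω'
        obtain ⟨-, ω, hω, rfl, hd⟩ := hω'
        refine mem_image.2 ⟨ω, mem_filter.2 ⟨hω, ?_⟩, rfl⟩
        exact hd
      exact (card_le_card hsub).trans card_image_le)
    (by
      intro y
      refine card_le_one.2 ?_
      intro a ha a' ha'
      have key : ∀ ω' ∈ Ω', (tr (ri b i) ω'.1, ω'.2) = ω' := by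
        intro ω' hω'
        obtain ⟨ω, hω, rfl⟩ := mem_image.1 hω'
        refine Prod.ext (Prod.ext rfl ?_) rfl
        funext c m
        have h := (hΩ ω hω).1
        have h2 : (tr i ω.1).2 c.1 m = ω.1.2 c.1 m := by rw [h]
        exact h2
      have ha1 := (@mem_filter _ _ _ _ _).1 ha
      have ha1' := (@mem_filter _ _ _ _ _).1 ha'
      rw [← key a ha1.1, ← key a' ha1'.1, ha1.2, ha1'.2])
    (by
      intro l hl
      have h := hst l.1 l.2 hl
      rw [hcard]
      refine lt_of_le_of_lt ?_ h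
      refine Nat.mul_le_mul_left 2 (Nat.mul_le_mul (card_sub_le b) ?_)
      rw [mul_one]
      refine Nat.mul_le_mul_left _ ?_
      have hsub : (Ω'.image fun ω => (tr (dn (ri b i) l) ω.1, ω.2)) ⊆
          (Ω.image fun ω => (tr (Function.update (dn i l.1) b 0) ω.1, ω.1.2 b (i b), ω.2)).image
            (fun y => (rs b y.1, Pr.mk y.2.1 y.2.2)) := by
        intro y hy
        obtain ⟨ω', hω', rfl⟩ := mem_image.1 hy
        obtain ⟨ω, hω, rfl⟩ := mem_image.1 hω'
        refine mem_image.2 ⟨_, mem_image.2 ⟨ω, hω, rfl⟩, ?_⟩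
        refine Prod.ext (Prod.ext rfl ?_) rfl
        funext c m
        change ω.1.2 c.1 (min m (Function.update (dn i l.1) b 0 c.1)) =
          ω.1.2 c.1 (min m (dn (ri b i) l c))
        unfold dn
        by_cases hc : c = l
        · subst hc
          unfold Function.update
          rw [dif_neg c.2, dif_pos rfl, dif_pos rfl]
          rfl
        · have hc' : c.1 ≠ l.1 := fun h => hc (Subtype.ext h)
          unfold Function.update
          rw [dif_neg c.2, dif_neg hc, dif_neg hc']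
          rfl
      exact (card_le_card hsub).trans card_image_le)
    (hne.image _)
  -- one value
  obtain ⟨ω0', hω0'⟩ := hFne
  obtain ⟨ω0, hω0, rfl⟩ := mem_image.1 (hFΩ hω0')
  set Wb : V := ω0.1.2 b (i b) with hWb
  set v0 : V := ω0.2 with hv0
  set zb0 : V := if Even (j b - i b) then Wb else v0 with hzb0
  set Y : Finset V := insert zb0 (univ.image (ζ Wb)) with hY
  set F0 : Set (Obj {c : ι // c ≠ b} V) := {x | (x, Pr.mk Wb v0) ∈ Fam} with hF0
  set J : Unit ⊕ F → ℕ := Sum.elim (fun _ : Unit => j b) (fun _ : F => k) with hJ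
  set zz : Unit ⊕ F → V := Sum.elim (fun _ : Unit => zb0) (ζ Wb) with hzz
  set Ψ : V → Finset V → Prop := fun u Z => Ext G J zz u Z with hΨ
  -- facts on the members of `F0`
  have hmem : ∀ x ∈ F0, ∃ ω ∈ Ω, rs b ω.1 = x ∧ ω.1.2 b (i b) = Wb ∧ ω.2 = v0 := by
    intro x hx
    obtain ⟨ω, hω, he⟩ := mem_image.1 (hFΩ hx)
    simp only [ph, Prod.mk.injEq, Pr.mk.injEq] at he
    exact ⟨ω, hω, he.1, he.2.1, he.2.2⟩
  have hzvs : ∀ ω ∈ Ω, ω.1.2 b (i b) = Wb → ω.2 = v0 → zb0 ∈ insert ω.2 (vs i ω.1) := by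
    intro ω hω h1 h2
    rw [mem_insert, mem_vs, hzb0]
    split_ifs
    · exact Or.inr (Or.inr ⟨b, i b, le_rfl, h1⟩)
    · exact Or.inl h2.symm
  have hζne : ∀ f, ζ Wb f ≠ zb0 := by
    intro f he
    have h1 := hzvs ω0 hω0 rfl rfl
    rw [← he] at h1
    exact ((hζ ω0 hω0).2 f).2 h1
  -- vertices of the short legs are off `Y`
  have hoffY : ∀ x ∈ F0, x.1 ∉ Y ∧ ∀ c m, m ≤ ri b i c → x.2 c m ∉ Y := by
    intro x hx
    obtain ⟨ω, hω, rfl, hw, hv⟩ := hmem x hx
    have hsp := (hΩ ω hω).2.1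
    have hnv := (hΩ ω hω).2.2
    have hz := (hζ ω hω).2
    rw [hw] at hz
    have hgen : ∀ w ∈ vs i ω.1, w ≠ ω.1.2 b (i b) → w ∉ Y := by
      intro w hw1 hw2 hwY
      rw [hY, mem_insert, mem_image] at hwY
      rcases hwY with h | ⟨f, -, h⟩
      · rw [hzb0] at h
        split_ifs at h
        · exact hw2 (h.trans hw.symm)
        · rw [h, ← hv] at hw1
          exact hnv hw1
      · have := (hz f).2
        rw [h, mem_insert] at this
        exact this (Or.inr hw1)
    constructor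
    · refine hgen _ (mem_vs.2 (Or.inl rfl)) ?_
      intro he
      exact hsp.ne_centre (hi b).1 le_rfl he.symm
    · intro c m hm
      refine hgen _ (mem_vs.2 (Or.inr ⟨c.1, m, hm, rfl⟩)) ?_
      intro he
      have he' : ω.1.2 b (i b) = ω.1.2 c.1 m := he.symm
      exact c.2 (hsp.inj b c.1 (i b) m (hi b).1 le_rfl hm he').1.symm
  -- Lemma Z
  obtain ⟨X, hXY, hX⟩ := lemZ G (ri b i) (ri b j) (fun c => hi c.1)
    (fun c c' h h' => Subtype.ext (hi1 c.1 c'.1 h h')) (nmin j N0) N0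
    (by rw [hnm]; omega) Y Ψ
    (fun u Z Z' hZ h => Ext.anti hZ h) F0
    ⟨rs b ω0.1, hω0'⟩
    (by
      intro x hx
      obtain ⟨ω, hω, h1, hw, hv⟩ := hmem x hx
      refine ⟨?_, hoffY x hx⟩
      rw [← h1]
      exact Sp_rs b (hΩ ω hω).2.1)
    (by
      intro x hx B hB
      obtain ⟨ω', hω', h1, h2, h3⟩ := hFa _ hx B hB
      have hy : ω'.1 ∈ F0 := by
        change (ω'.1, Pr.mk Wb v0) ∈ Fam
        have : ω'.2 = Pr.mk Wb v0 := h1
        rw [← this]
        exact hω'
      refine ⟨ω'.1, hy, fun c => congrFun h2 c, ?_⟩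
      obtain ⟨ω, hω, hph⟩ := mem_image.1 (hFΩ hω')
      have hdis : Disjoint (inn i ω.1) B := by
        by_contra hcon
        exact h3 ((hBlk _ _).2 ⟨ω, hω, hph, hcon⟩)
      have hrs : rs b ω.1 = ω'.1 := by rw [← hph]; rfl
      have hw : ω.1.2 b (i b) = Wb := by
        have : ω'.2.a = Wb := by rw [h1]
        rw [← this, ← hph]; rfl
      have hv : ω.2 = v0 := by
        have : ω'.2.b = v0 := by rw [h1]
        rw [← this, ← hph]; rfl
      have hsp := (hΩ ω hω).2.1
      rw [← hrs]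
      refine ⟨disjoint_of_subset_left (inn_rs_subset b i ω.1) hdis, ?_⟩
      have hz := hζ ω hω
      rw [hw] at hz
      -- the leg
      have hcI : ω.1.1 ∈ inn i ω.1 := mem_inn.2 (Or.inl rfl)
      have hcB : ω.1.1 ∉ B := fun h => (disjoint_left.1 hdis) hcI h
      have hcV : ω.1.1 ∈ vs i ω.1 := mem_vs.2 (Or.inl rfl)
      have hcard1 : #(vs (ri b i) (rs b ω.1)) ≤ ∑ c, (j c + 1) := by
        refine (card_vs_le _ _).trans ?_
        have h4 := sum_ri_le b i
        have h5 : ∑ c, (i c + 1) ≤ ∑ c, (j c + 1) :=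
          sum_le_sum fun c _ => Nat.add_le_add_right (hi c).2 1
        omega
      have hcard2 : #(univ.image (ζ Wb)) ≤ Fintype.card F := card_image_le
      set Z : Finset V := (B ∪ vs (ri b i) (rs b ω.1)) with hZdef
      have hZc : #Z ≤ nmin j N0 + ∑ c, (j c + 1) := (card_union_le _ _).trans (Nat.add_le_add hB hcard1)
      have hFk : Fintype.card F ≤ Fintype.card F * (k + 2) :=
        Nat.le_mul_of_pos_right _ (by omega)
      have hrm : rmin j F k N0 = N0 + 5 * (∑ c, (j c + 1) + 2) + Fintype.card F * (k + 2) + k + 5 :=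
        rfl
      obtain ⟨q, hq0, hqj, hqa, hqi, hqZ⟩ := hleg ω hω ((Z ∪ univ.image (ζ Wb)).erase ω.1.1)
        (by
          refine (card_erase_le).trans ((card_union_le _ _).trans ?_)
          rw [hrm]
          rw [hnm] at hZc
          omega)
        (by
          rw [disjoint_left]
          intro w hwp hwZ
          rw [mem_erase, mem_union, hZdef, mem_union] at hwZ
          obtain ⟨hwne, hwZ⟩ := hwZ
          obtain ⟨m, hm, rfl⟩ := mem_image.1 hwp
          rw [mem_Ico] at hm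
          have hwI : ω.1.2 b m ∈ inn i ω.1 := mem_inn.2 (Or.inr ⟨b, m, hm.1, hm.2, rfl⟩)
          rcases hwZ with (h | h) | h
          · exact (disjoint_left.1 hdis) hwI h
          · rw [mem_vs] at h
            rcases h with h | ⟨c, m', hm', h⟩
            · exact hwne h
            · have h' : ω.1.2 b m = ω.1.2 c.1 m' := h.symm
              exact c.2 (hsp.inj b c.1 m m' hm.1 hm.2.le hm' h').1.symm
          · obtain ⟨f, -, h⟩ := mem_image.1 h
            have := (hz.2 f).2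
            rw [h, mem_insert] at this
            exact this (Or.inr (inn_subset_vs _ _ hwI)))
        (fun h => (mem_erase.1 h).1 rfl)
      have hzb' : zb ω = zb0 := by rw [hzb ω hω, hw, hv]
      have hjb : 1 ≤ j b := (hi b).1.trans (hi b).2
      have hqne : ∀ m, 1 ≤ m → m < j b → q m ≠ ω.1.1 := by
        intro m h4 h5 h6
        rw [← hq0] at h6
        have := hqi m 0 h5.le (Nat.zero_le _) h6
        omega
      have hsum1 : ∑ _f : F, (k + 2) = Fintype.card F * (k + 2) := by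
        rw [sum_const, smul_eq_mul, card_univ]
      have hjS : j b + 1 ≤ ∑ c, (j c + 1) := by omega
      refine ext_cons G (j b) hjb (fun _ : F => k) (fun _ => hk) zb0 (ζ Wb) hz.1 hζne
        ω.1.1 Z q hq0 (hqj.trans hzb') hqa hqi ?_ r ?_ (fun f => (hz.2 f).1)
      · intro m h4 h5
        have h6 := hqZ m h4 h5
        rw [mem_erase, not_and] at h6
        have h7 := h6 (hqne m h4 h5)
        rw [mem_union, not_or] at h7
        refine ⟨h7.1, fun f hf => h7.2 (mem_image.2 ⟨f, mem_univ _, hf.symm⟩)⟩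
      · rw [hsum1]
        rw [hrm] at hr
        rw [hnm] at hZc
        omega)
    (by
      intro x hx l hl B hB
      obtain ⟨ω', hω', h1, h2, h3⟩ := hFb _ hx l hl B hB
      have hy : ω'.1 ∈ F0 := by
        change (ω'.1, Pr.mk Wb v0) ∈ Fam
        have : ω'.2 = Pr.mk Wb v0 := h1
        rw [← this]
        exact hω'
      have h4 := tr_eq_iff.1 h2
      refine ⟨ω'.1, hy, h4.1, ?_, h3⟩
      intro c m hm hml
      refine h4.2 c m ?_
      unfold dn
      by_cases hc : c = l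
      · subst hc
        unfold Function.update
        rw [dif_pos rfl]
        have := hml rfl
        change m ≤ ri b i c - 1
        omega
      · unfold Function.update
        rw [dif_neg hc]
        exact hm)
  -- the end
  have hflex := flex_of_short G (ri b j) J (fun c => (hi c.1).1.trans (hi c.1).2)
    (by
      rintro (u | f)
      · exact (hi b).1.trans (hi b).2
      · exact hk) X zz Y
    (by
      rintro (u | f)
      · exact mem_insert_self _ _
      · exact mem_insert_of_mem (mem_image.2 ⟨f, mem_univ _, rfl⟩)) hXY N0 hX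
  refine ⟨fun a => Sum.elim X zz (eqv F b a), ?_⟩
  have h := Flex.congr hflex (eqv F b)
  have he : (fun a => Sum.elim (ri b j) J (eqv F b a)) = Sum.elim j fun _ : F => k := by
    funext a
    rcases a with c | f
    · by_cases hc : c = b
      · subst hc
        simp [eqv, J]
      · simp [eqv, hc, ri]
    · simp [eqv, J]
  rw [he] at h
  exact h

end Pool.Agent.Helper14.SP
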