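import Pool.Agent.Helper14.SP2.F.G5

/-!
# Project SP2: the end of the case `i b < j b` (piece D12, `stepD`)
-/

set_option autoImplicit false

namespace Pool.Agent.Helper14.SP

open Finset Classical
open Pool.Agent.Helper97.RE (IsPath Rich PP Clean Cb)

/-- the edge of the bipartite graph which belongs to `(x, V)` -/
noncomputable def edg {ι V : Type} (i : ι → ℕ) (b : ι) (ω : Obj ι V × V) :
    Obj ι V × (V × (ι → V)) :=
  (ω.1, (ω.1.1, Function.update (ends i ω.1) b ω.2))

theorem edg_inj {ι V : Type} (i : ι → ℕ) (b : ι) :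
    Function.Injective (edg (V := V) i b) := by
  intro ω ω' h
  unfold edg at h
  simp only [Prod.mk.injEq] at h
  obtain ⟨h1, -, h2⟩ := h
  refine Prod.ext h1 ?_
  have := congrFun h2 b
  simpa using this

theorem mem_Om {ι V : Type} [Fintype ι] [Fintype V] {i : ι → ℕ} {T2 : Finset (Obj ι V)}
    {EE : Finset ((ι → V) × V)} {ω : Obj ι V × V} :
    ω ∈ Om i T2 EE ↔ ω.1 ∈ T2 ∧ (ends i ω.1, ω.2) ∈ EE ∧ ω.2 ∉ inn i ω.1 := by
  unfold Om
  rw [mem_filter, mem_product]
  simp

theorem card_edg_fan {ι V : Type} [Fintype ι] [Fintype V] (i : ι → ℕ) (b : ι)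
    (T2 : Finset (Obj ι V)) (EE : Finset ((ι → V) × V)) (ω : Obj ι V × V) :
    #{e' ∈ (Om i T2 EE).image (edg i b) | e'.2 = (edg i b ω).2} = fan i b T2 EE ω := by
  unfold fan
  rw [filter_image, card_image_of_injective _ (edg_inj i b)]
  congr 1
  apply filter_congr
  intro ω' _
  unfold edg
  simp only [Prod.mk.injEq]

theorem card_pth_le {ι V : Type} (i : ι → ℕ) (b : ι) (x : Obj ι V) : #(pth i b x) ≤ i b := by
  unfold pth
  refine card_image_le.trans ?_
  rw [Nat.card_Ico]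
  omega

theorem mem_vs_iff_inn {ι V : Type} [Fintype ι] {i : ι → ℕ} {x : Obj ι V} {v : V}
    (hst : ∀ c, x.2 c 0 = x.1) (h : v ∈ vs i x) : v ∈ inn i x ∨ ∃ c, v = ends i x c := by
  rw [mem_vs] at h
  rcases h with h | ⟨c, m, hm, h⟩
  · left
    rw [mem_inn]
    exact Or.inl h
  · rcases Nat.eq_zero_or_pos m with h0 | h0
    · left
      rw [mem_inn]
      left
      rw [← h, h0, hst c]
    · rcases hm.lt_or_eq with hm | hm
      · left
        rw [mem_inn]
        exact Or.inr ⟨c, m, h0, hm, h⟩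
      · right
        refine ⟨c, ?_⟩
        unfold ends
        rw [← hm, h]

theorem stepD {ι : Type} [Fintype ι] (F : Type) [Fintype F] (i j : ι → ℕ) (b : ι)
    (k K B N0 M3 : ℕ) (R : ℕ → ℕ) (hi : ∀ c, 1 ≤ i c ∧ i c ≤ j c) (hj : ∀ c, j c < k)
    (hi1 : ∀ c c', i c = 1 → i c' = 1 → c = c') (hb : 2 ≤ i b) (hbj : i b < j b) :
    ∃ f0 M1 M2 d0 : ℕ, ∀ {V : Type} [Fintype V] [Nonempty V] (G : SimpleGraph V) (d r : ℕ),
      (∀ w, G.degree w ≤ K * d) → d0 ≤ d → rmin j F k N0 ≤ r →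
      ∀ (T2 : Finset (Obj ι V)) (EE : Finset ((ι → V) × V)), Sys G k r B d R i b T2 EE →
      M1 * (Fintype.card V * d ^ (∑ c, i c)) ≤ #(Om i T2 EE) →
      (∀ Tc : (ι → V) → V → Finset V, (∀ W v, #(Tc W v) ≤ nmin j N0) →
        M2 * #{ω ∈ Om i T2 EE | ¬ Disjoint (inn i ω.1) (Tc (ends i ω.1) ω.2)} ≤
          #(Om i T2 EE)) →
      #(Om i T2 EE) ≤ M3 * #{ω ∈ Om i T2 EE | f0 < fan i b T2 EE ω} →
      ∃ X : ι ⊕ F → V, Flex G (Sum.elim j fun _ => k) N0 X := by
  have hibk : i b < k := hbj.trans (hj b)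
  obtain ⟨M4, f0, M1', hker⟩ := kernel_clean k (2 * (rmin j F k N0 + (j b - i b)) + 2)
    (4 * (rmin j F k N0 + (j b - i b)) + 4) M3
  obtain ⟨C, d0, hatt⟩ := attach F k (i b) K B (∑ c, (i c + 1) + 2) R (by omega) hibk
  refine ⟨f0, M1' * K ^ (∑ c, i c) +
    M4 * C * (2 * (Fintype.card ι * (nmin j N0 * K ^ (∑ c, i c))) + 1) + 1,
    2 * (M4 * C), max d0 1, ?_⟩
  intro V _ _ G d r hdeg hd hr T2 EE hsys hM1 hM2 hfan
  have hd1 : 1 ≤ d := (le_max_right _ _).trans hd
  have hd0 : d0 ≤ d := (le_max_left _ _).trans hd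
  have hnd : 0 < Fintype.card V * d ^ (∑ c, i c) :=
    Nat.mul_pos Fintype.card_pos (Nat.pow_pos hd1)
  have hOm0 : 0 < #(Om i T2 EE) := by
    refine lt_of_lt_of_le ?_ hM1
    exact Nat.mul_pos (by omega) hnd
  -- the bipartite graph
  have hEcard : #((Om i T2 EE).image (edg i b)) = #(Om i T2 EE) :=
    card_image_of_injective _ (edg_inj i b)
  have hA : ∀ e ∈ (Om i T2 EE).image (edg i b), #(pth i b e.1) ≤ k := fun e _ =>
    (card_pth_le i b e.1).trans hibk.le
  have hfan' : #((Om i T2 EE).image (edg i b)) ≤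
      M3 * #{e ∈ (Om i T2 EE).image (edg i b) |
        f0 < #{e' ∈ (Om i T2 EE).image (edg i b) | e'.2 = e.2}} := by
    rw [hEcard]
    refine hfan.trans (le_of_eq ?_)
    congr 1
    rw [filter_image, card_image_of_injective _ (edg_inj i b)]
    congr 1
    apply filter_congr
    intro ω _
    rw [card_edg_fan]
  have hWK : ∀ x ∈ T2, Wk G i x := fun x hx => (hsys.ga x hx).good.wk
  have himg : M1' * #(((Om i T2 EE).image (edg i b)).image Prod.fst) ≤
      #((Om i T2 EE).image (edg i b)) := by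
    have h1 : ((Om i T2 EE).image (edg i b)).image Prod.fst ⊆
        {x ∈ WK G i | x.1 ∈ (univ : Finset V)} := by
      intro x hx
      rw [mem_image] at hx
      obtain ⟨e, he, rfl⟩ := hx
      rw [mem_image] at he
      obtain ⟨ω, hω, rfl⟩ := he
      rw [mem_filter]
      refine ⟨?_, mem_univ _⟩
      rw [mem_WK]
      exact hWK _ (mem_Om.1 hω).1
    have h2 := (card_le_card h1).trans (card_wk_le G (K * d) hdeg i univ)
    rw [card_univ, mul_pow] at h2
    rw [hEcard]
    calc M1' * #(((Om i T2 EE).image (edg i b)).image Prod.fst)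
        ≤ M1' * (Fintype.card V * (K ^ (∑ c, i c) * d ^ (∑ c, i c))) :=
          Nat.mul_le_mul_left _ h2
      _ = M1' * K ^ (∑ c, i c) * (Fintype.card V * d ^ (∑ c, i c)) := by ring
      _ ≤ (M1' * K ^ (∑ c, i c) +
        M4 * C * (2 * (Fintype.card ι * (nmin j N0 * K ^ (∑ c, i c))) + 1) + 1) *
          (Fintype.card V * d ^ (∑ c, i c)) := Nat.mul_le_mul_right _ (by omega)
      _ ≤ _ := hM1
  obtain ⟨E', hE'E, Ker, hEE', hD1, hD2, hKer, hKer2⟩ := hker _ (pth i b) hA
    (hfan'.trans (Nat.mul_le_mul_left _ (le_of_eq (card_filter_iff fun _ =>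
      Iff.of_eq (congrArg (fun c => f0 < c) card_filter_inst)))))
    ((Nat.mul_le_mul_left _ (le_of_eq card_image_inst)).trans himg)
  rw [hEcard] at hEE'
  have hmem : ∀ e ∈ E', ∃ ω ∈ Om i T2 EE, edg i b ω = e := fun e he => mem_image.1 (hE'E he)
  have hsp : ∀ ω ∈ Om i T2 EE, Sp G i ω.1 := fun ω hω => (hsys.ga _ (mem_Om.1 hω).1).good.sp
  have hE1 : ∀ e ∈ E', Sp G i e.1 ∧ e.2.1 = e.1.1 ∧ (∀ c, c ≠ b → e.2.2 c = e.1.2 c (i c)) ∧
      G.Adj (e.1.2 b (i b)) (e.2.2 b) ∧ e.2.2 b ∉ inn i e.1 := by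
    intro e he
    obtain ⟨ω, hω, rfl⟩ := hmem e he
    obtain ⟨h1, h2, h3⟩ := mem_Om.1 hω
    refine ⟨hsp ω hω, rfl, ?_, ?_, ?_⟩
    · intro c hc
      change Function.update (ends i ω.1) b ω.2 c = _
      rw [Function.update_of_ne hc]
      rfl
    · change G.Adj _ (Function.update (ends i ω.1) b ω.2 b)
      rw [Function.update_self]
      exact hsys.adj _ h2
    · change Function.update (ends i ω.1) b ω.2 b ∉ _
      rw [Function.update_self]
      exact h3
  have hE2 : ∀ e ∈ E', ∀ e' ∈ E', e.1.1 = e'.1.1 → ends i e.1 = ends i e'.1 → e.1 = e'.1 := by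
    intro e he e' he' h1 h2
    obtain ⟨ω, hω, rfl⟩ := hmem e he
    obtain ⟨ω', hω', rfl⟩ := hmem e' he'
    exact hsys.uniq _ (mem_Om.1 hω).1 _ (mem_Om.1 hω').1 h1 h2
  -- the pairs of an object and a vertex
  have hΩcard : #{ω ∈ Om i T2 EE | edg i b ω ∈ E'} = #E' := by
    rw [← card_image_of_injective {ω ∈ Om i T2 EE | edg i b ω ∈ E'} (edg_inj i b)]
    congr 1
    ext e
    rw [mem_image]
    constructor
    · rintro ⟨ω, hω, rfl⟩
      exact (mem_filter.1 hω).2
    · intro he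
      obtain ⟨ω, hω, rfl⟩ := hmem e he
      exact ⟨ω, mem_filter.2 ⟨hω, he⟩, rfl⟩
  obtain ⟨ζ, hζ⟩ := hatt G d r hdeg hd0 {ω ∈ Om i T2 EE | edg i b ω ∈ E'}
    (fun ω => ω.1.1) (fun ω => ω.1.2 b (i b)) (fun ω => insert ω.2 (vs i ω.1)) (by
      intro ω hω
      refine ⟨?_, ?_⟩
      · exact (hsys.ga _ (mem_Om.1 (mem_filter.1 hω).1).1).att b (i b) (by omega) le_rfl
      · refine (card_insert_le _ _).trans ?_
        have := card_vs_le i ω.1
        omega)
  set Ω5 : Finset (Obj ι V × V) := {ω ∈ {ω ∈ Om i T2 EE | edg i b ω ∈ E'} |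
    Function.Injective (ζ (ω.1.2 b (i b))) ∧
      ∀ f, Rich G k r ω.1.1 (ζ (ω.1.2 b (i b)) f) ∧
        ζ (ω.1.2 b (i b)) f ∉ insert ω.2 (vs i ω.1)} with hΩ5
  have h5 : #(Om i T2 EE) ≤ M4 * C * #Ω5 := by
    refine hEE'.trans ?_
    rw [mul_assoc]
    refine Nat.mul_le_mul_left _ ?_
    rw [← hΩcard]
    exact hζ
  have h50 : 0 < M4 * C * #Ω5 := lt_of_lt_of_le hOm0 h5
  have hMC : 0 < M4 * C := Nat.pos_of_mul_pos_right h50
  have h5' : 0 < #Ω5 := Nat.pos_of_mul_pos_left h50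
  have hin : ∀ ω ∈ Ω5, ω ∈ Om i T2 EE ∧ edg i b ω ∈ E' := by
    intro ω hω
    rw [hΩ5, mem_filter, mem_filter] at hω
    exact hω.1
  refine stepD_flex G i j b k N0 r hi (by omega) hi1 hr Ω5
    (fun ω => if Even (j b - i b) then ω.1.2 b (i b) else ω.2) ζ (card_pos.1 h5')
    (fun _ _ => rfl) ?_ ?_ ?_ ?_ ?_ ?_
  · intro ω hω
    have h1 := (hin ω hω).1
    refine ⟨(hWK _ (mem_Om.1 h1).1).can, hsp ω h1, ?_⟩
    intro h2
    rcases mem_vs_iff_inn (hsp ω h1).start h2 with h3 | ⟨c, h3⟩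
    · exact (mem_Om.1 h1).2.2 h3
    · exact hsys.ne _ (mem_Om.1 h1).2.1 c h3
  · intro ω hω ω' hω' h1 h2
    exact hsys.uniq _ (mem_Om.1 (hin ω hω).1).1 _ (mem_Om.1 (hin ω' hω').1).1 h1 h2
  · intro ω hω
    rw [hΩ5, mem_filter] at hω
    exact hω.2
  · intro ω hω Z hZ hdis hu
    obtain ⟨h1, h2⟩ := hin ω hω
    obtain ⟨q, hq0, hqe, hqa, hqi, hqZ⟩ := leg_walk G i b (by omega) (j b - i b)
      (rmin j F k N0) E' Ker hE1 hE2
      (fun e he => by
        refine le_trans ?_ (hD1 e he) |>.trans (le_of_eq card_filter_inst)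
        omega)
      (fun e he => (hD2 e he).trans (le_of_eq card_filter_inst)) hKer
      (fun e he z hz => ((Nat.mul_le_mul_left _ (le_of_eq card_filter_inst)).trans (hKer2 e he z hz)).trans
        (le_of_eq card_filter_inst))
      (edg i b ω) h2 Z hZ hdis hu
    have hadd : i b + (j b - i b) = j b := by omega
    rw [hadd] at hqe hqa hqi hqZ
    refine ⟨q, hq0, ?_, hqa, hqi, hqZ⟩
    rw [hqe]
    by_cases hev : Even (j b - i b)
    · rw [if_pos hev, if_pos hev]
      rfl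
    · rw [if_neg hev, if_neg hev]
      change Function.update (ends i ω.1) b ω.2 b = _
      rw [Function.update_self]
  · intro T hT
    have h1 := hM2 T hT
    have h2 : #{ω ∈ Ω5 | ¬ Disjoint (inn i ω.1) (T (ends i ω.1) ω.2)} ≤
        #{ω ∈ Om i T2 EE | ¬ Disjoint (inn i ω.1) (T (ends i ω.1) ω.2)} := by
      refine card_le_card ?_
      intro ω hω
      rw [mem_filter] at hω ⊢
      exact ⟨(hin ω hω.1).1, hω.2⟩
    have h3 : M4 * C * (2 * #{ω ∈ Ω5 | ¬ Disjoint (inn i ω.1) (T (ends i ω.1) ω.2)}) ≤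
        M4 * C * #Ω5 := by
      calc M4 * C * (2 * #{ω ∈ Ω5 | ¬ Disjoint (inn i ω.1) (T (ends i ω.1) ω.2)})
          = 2 * (M4 * C) * #{ω ∈ Ω5 | ¬ Disjoint (inn i ω.1) (T (ends i ω.1) ω.2)} := by ring
        _ ≤ 2 * (M4 * C) *
            #{ω ∈ Om i T2 EE | ¬ Disjoint (inn i ω.1) (T (ends i ω.1) ω.2)} :=
            Nat.mul_le_mul_left _ h2
        _ ≤ #(Om i T2 EE) := h1
        _ ≤ _ := h5
    exact Nat.le_of_mul_le_mul_left h3 hMC
  · intro l hlb hl
    -- the stems
    have hsub : (Ω5.image fun ω => (tr (Function.update (dn i l) b 0) ω.1, ω.1.2 b (i b), ω.2)) ⊆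
        (({y ∈ WK G (dn i l) | y.1 ∈ (univ : Finset V)}.biUnion fun y =>
          (G.neighborFinset (y.2 b (i b))).image fun v => (y, v)).image fun p =>
            (tr (Function.update (dn i l) b 0) p.1, p.1.2 b (i b), p.2)) := by
      intro t ht
      rw [mem_image] at ht
      obtain ⟨ω, hω, rfl⟩ := ht
      have h1 := (hin ω hω).1
      have hwk := hWK _ (mem_Om.1 h1).1
      have hdn : ∀ c, dn i l c ≤ i c := by
        intro c
        unfold dn
        by_cases hc : c = l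
        · subst hc
          rw [Function.update_self]
          omega
        · rw [Function.update_of_ne hc]
      have hdnb : dn i l b = i b := by
        unfold dn
        rw [Function.update_of_ne (Ne.symm hlb)]
      have hyb : (tr (dn i l) ω.1).2 b (i b) = ω.1.2 b (i b) :=
        tr_snd_le ω.1 (le_of_eq hdnb.symm)
      rw [mem_image]
      refine ⟨(tr (dn i l) ω.1, ω.2), ?_, ?_⟩
      · rw [mem_biUnion]
        refine ⟨tr (dn i l) ω.1, ?_, ?_⟩
        · rw [mem_filter, mem_WK]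
          refine ⟨⟨tr_idem _ _, ?_, ?_⟩, mem_univ _⟩
          · intro c
            rw [tr_snd_le ω.1 (Nat.zero_le _)]
            exact hwk.start c
          · intro c m hm
            rw [tr_snd_le ω.1 hm.le, tr_snd_le ω.1 (by omega : m + 1 ≤ dn i l c)]
            exact hwk.adj c m (hm.trans_le (hdn c))
        · rw [mem_image]
          refine ⟨ω.2, ?_, rfl⟩
          rw [SimpleGraph.mem_neighborFinset, hyb]
          exact hsys.adj _ (mem_Om.1 h1).2.1
      · simp only
        rw [hyb, tr_tr]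
        intro c
        by_cases hc : c = b
        · subst hc
          rw [Function.update_self]
          exact Nat.zero_le _
        · rw [Function.update_of_ne hc]
    have hsum : ∑ c, dn i l c + 1 = ∑ c, i c := by
      unfold dn
      rw [Finset.sum_update_of_mem (mem_univ l), ← Finset.add_sum_erase _ _ (mem_univ l),
        Finset.sdiff_singleton_eq_erase]
      have := (hi l).1
      omega
    have hcard : #(Ω5.image fun ω =>
        (tr (Function.update (dn i l) b 0) ω.1, ω.1.2 b (i b), ω.2)) ≤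
        Fintype.card V * (K * d) ^ (∑ c, i c) := by
      refine (card_le_card hsub).trans (card_image_le.trans (card_biUnion_le.trans ?_))
      calc ∑ y ∈ {y ∈ WK G (dn i l) | y.1 ∈ (univ : Finset V)},
            #((G.neighborFinset (y.2 b (i b))).image fun v => (y, v))
          ≤ ∑ _y ∈ {y ∈ WK G (dn i l) | y.1 ∈ (univ : Finset V)}, K * d := by
            refine sum_le_sum fun y _ => card_image_le.trans ?_
            rw [SimpleGraph.card_neighborFinset_eq_degree]
            exact hdeg _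
        _ = #{y ∈ WK G (dn i l) | y.1 ∈ (univ : Finset V)} * (K * d) := by
            rw [sum_const, smul_eq_mul]
        _ ≤ (#(univ : Finset V) * (K * d) ^ (∑ c, dn i l c)) * (K * d) :=
            Nat.mul_le_mul_right _ (card_wk_le G (K * d) hdeg (dn i l) univ)
        _ = Fintype.card V * (K * d) ^ (∑ c, i c) := by
            rw [card_univ, ← hsum, pow_succ]
            ring
    rw [mul_pow] at hcard
    have h6 : M4 * C * ((2 * (Fintype.card ι * (nmin j N0 * K ^ (∑ c, i c))) + 1) *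
        (Fintype.card V * d ^ (∑ c, i c))) ≤ M4 * C * #Ω5 := by
      refine le_trans ?_ (hM1.trans h5)
      rw [← mul_assoc]
      exact Nat.mul_le_mul_right _ (by omega)
    have h7 := Nat.le_of_mul_le_mul_left h6 hMC
    calc 2 * (Fintype.card ι * (nmin j N0 * #(Ω5.image fun ω =>
          (tr (Function.update (dn i l) b 0) ω.1, ω.1.2 b (i b), ω.2))))
        ≤ 2 * (Fintype.card ι * (nmin j N0 *
          (Fintype.card V * (K ^ (∑ c, i c) * d ^ (∑ c, i c))))) :=
          Nat.mul_le_mul_left _ (Nat.mul_le_mul_left _ (Nat.mul_le_mul_left _ hcard))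
      _ = 2 * (Fintype.card ι * (nmin j N0 * K ^ (∑ c, i c))) *
          (Fintype.card V * d ^ (∑ c, i c)) := by ring
      _ < (2 * (Fintype.card ι * (nmin j N0 * K ^ (∑ c, i c))) + 1) *
          (Fintype.card V * d ^ (∑ c, i c)) := by
          rw [add_mul, one_mul]
          omega
      _ ≤ #Ω5 := h7

end Pool.Agent.Helper14.SP
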