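import Pool.Agent.Helper14.SP2.F.G3

/-!
# SP2-D7: the bipartite system
-/

set_option autoImplicit false

namespace Pool.Agent.Helper14.SP

open Finset Classical
open Pool.Agent.Helper97.RE (IsPath Rich PP Clean Cb)

namespace BipAux

theorem exists_sel {α β : Type} (s : Finset α) (f : α → β) :
    ∃ t ⊆ s, (∀ x ∈ t, ∀ y ∈ t, f x = f y → x = y) ∧ ∀ x ∈ s, ∃ y ∈ t, f y = f x := by
  have h : ∀ b ∈ s.image f, ∃ x ∈ s, f x = b := fun b hb => by
    simpa using mem_image.1 hb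
  choose g hg1 hg2 using h
  refine ⟨(s.image f).attach.image (fun b => g b.1 b.2), ?_, ?_, ?_⟩
  · intro x hx
    obtain ⟨b, _, rfl⟩ := mem_image.1 hx
    exact hg1 b.1 b.2
  · intro x hx y hy hxy
    obtain ⟨b, _, rfl⟩ := mem_image.1 hx
    obtain ⟨c, _, rfl⟩ := mem_image.1 hy
    rw [hg2 b.1 b.2, hg2 c.1 c.2] at hxy
    rw [Subtype.ext hxy]
  · intro x hx
    have hb : f x ∈ s.image f := mem_image_of_mem _ hx
    exact ⟨g (f x) hb, mem_image_of_mem (fun b : {b // b ∈ s.image f} => g b.1 b.2)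
      (mem_attach _ ⟨f x, hb⟩), hg2 _ hb⟩

theorem dn_le {ι : Type} (i : ι → ℕ) (b c : ι) : dn i b c ≤ i c := by
  unfold dn
  by_cases h : c = b
  · subst h; rw [Function.update_self]; omega
  · rw [Function.update_of_ne h]

theorem dn_self {ι : Type} (i : ι → ℕ) (b : ι) : dn i b b = i b - 1 := by
  unfold dn; rw [Function.update_self]

theorem dn_ne {ι : Type} (i : ι → ℕ) {b c : ι} (h : c ≠ b) : dn i b c = i c := by
  unfold dn; rw [Function.update_of_ne h]

theorem sum_dn {ι : Type} [Fintype ι] (i : ι → ℕ) (b : ι) (hb : 1 ≤ i b) :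
    ∑ c, dn i b c = ∑ c, i c - 1 := by
  unfold dn
  rw [sum_update_of_mem (mem_univ b), sum_eq_add_sum_sdiff_singleton b i (fun h => absurd (mem_univ b) h)]
  omega

theorem wk_tr {ι V : Type} {G : SimpleGraph V} {i : ι → ℕ} {x : Obj ι V} (h : Sp G i x) (b : ι) :
    Wk G (dn i b) (tr (dn i b) x) where
  can := tr_idem _ _
  start c := by
    rw [tr_snd_le x (Nat.zero_le _)]
    exact h.start c
  adj c m hm := by
    rw [tr_snd_le x hm.le, tr_snd_le x hm]
    exact h.adj c m (hm.trans_le (dn_le i b c))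

/-- the ends and the last but one vertex of leg `b` -/
def ev {ι V : Type} (i : ι → ℕ) (b : ι) (x : Obj ι V) : (ι → V) × V :=
  (ends i x, x.2 b (i b - 1))

theorem stem_eq {ι V : Type} {i : ι → ℕ} {b : ι} {x x' : Obj ι V}
    (h : tr (dn i b) x' = tr (dn i b) x) :
    Function.update (ends i x') b (x'.2 b (i b - 1)) =
      Function.update (ends i x) b (x.2 b (i b - 1)) := by
  rw [tr_eq_iff] at h
  obtain ⟨_, h2⟩ := h
  funext c
  by_cases hc : c = b
  · subst hc
    rw [Function.update_self, Function.update_self]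
    exact h2 c _ (by rw [dn_self])
  · rw [Function.update_of_ne hc, Function.update_of_ne hc]
    exact h2 c _ (by rw [dn_ne i hc])

theorem stem_inj {ι V : Type} {i : ι → ℕ} {b : ι} {x x' : Obj ι V}
    (hx : tr i x = x) (hx' : tr i x' = x')
    (h : tr (dn i b) x' = tr (dn i b) x) (he : ends i x' = ends i x) : x' = x := by
  rw [← hx, ← hx', tr_eq_iff]
  rw [tr_eq_iff] at h
  obtain ⟨h1, h2⟩ := h
  refine ⟨h1, fun c m hm => ?_⟩
  by_cases hc : c = b
  · subst hc
    by_cases hm' : m ≤ i c - 1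
    · exact h2 c m (by rw [dn_self]; exact hm')
    · have : m = i c := by omega
      subst this
      exact congrFun he c
  · exact h2 c m (by rw [dn_ne i hc]; exact hm)

end BipAux

open BipAux

theorem bip {ι : Type} [Fintype ι] (i : ι → ℕ) (b : ι) (hb : 2 ≤ i b) (hi : ∀ c, 1 ≤ i c)
    (k : ℕ) (hik : ∀ c, i c < k) (K B C5 C6 M0 M1 M2 N' : ℕ) (R : ℕ → ℕ) : ∃ E2 A0 : ℕ,
    ∀ {V : Type} [Fintype V] [Nonempty V] (G : SimpleGraph V) (d r T : ℕ),
      (∀ w, G.degree w ≤ K * d) → A0 ≤ d →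
      A0 * Fintype.card V ^ (Fintype.card ι) ≤ d ^ (T + k) → ∀ T1 : Finset (Obj ι V),
      (∀ x ∈ T1, GA G k r B d R i x) →
      (∀ (W : ι → V) (β : V), E2 * #{x ∈ T1 | ends i x = W ∧ β ∈ inn i x} ≤
        #{x ∈ T1 | ends i x = W}) →
      (∀ x ∈ T1, d ^ T ≤ C5 * (Fintype.card V ^ (Fintype.card ι - 1) *
        #{x' ∈ T1 | ends i x' = ends i x})) →
      Fintype.card V * d ^ (∑ c, i c) ≤ C6 * #T1 →
      ∃ (T2 : Finset (Obj ι V)) (EE : Finset ((ι → V) × V)), Sys G k r B d R i b T2 EE ∧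
        M0 * (#(EE.image fun e => Function.update e.1 b e.2) * Fintype.card V) ≤
          d ^ (k - 1) * #(Om i T2 EE) ∧
        M1 * (Fintype.card V * d ^ (∑ c, i c)) ≤ #(Om i T2 EE) ∧
        ∀ Tc : (ι → V) → V → Finset V, (∀ W v, #(Tc W v) ≤ N') →
          M2 * #{ω ∈ Om i T2 EE | ¬ Disjoint (inn i ω.1) (Tc (ends i ω.1) ω.2)} ≤
            #(Om i T2 EE) := by
  set C0 : ℕ := ∏ c, Cb R (i c) with hC0
  have hC0pos : 1 ≤ C0 := Finset.one_le_prod' (fun c _ => Pool.Agent.Helper97.RE.Cb_pos R (i c))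
  set σ : ℕ := ∑ c, i c with hσ
  have hσ1 : 1 ≤ σ := le_trans (hi b) (single_le_sum (f := i) (fun _ _ => Nat.zero_le _) (mem_univ b))
  set P : ℕ := K ^ (σ - 1) with hP
  set C7 : ℕ := 2 * C6 * P + 1 with hC7
  have hk1 : 1 ≤ k := by have := hik b; omega
  have hq1 : 1 ≤ Fintype.card ι := Fintype.card_pos_iff.2 ⟨b⟩
  refine ⟨2 * C0 + 4 * C6 * C0 * M1 + 2 * (N' + 1) * C0 * M2, 2 * M0 * C7 * C5 * C0 + 1, ?_⟩
  intro V _ _ G d r T hdeg hd hnd T1 hGA hspread hdT hn
  set E2 : ℕ := 2 * C0 + 4 * C6 * C0 * M1 + 2 * (N' + 1) * C0 * M2 with hE2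
  set n : ℕ := Fintype.card V with hnV
  set q : ℕ := Fintype.card ι with hq
  have hd1 : 1 ≤ d := by omega
  have hn1 : 1 ≤ n := Fintype.card_pos
  obtain ⟨T2, hT2s, hT2i, hT2c⟩ := exists_sel T1 (fun x : Obj ι V => (x.1, ends i x))
  have hgood : ∀ x ∈ T1, Good G (k - 1) R i x := fun x hx => (hGA x hx).good
  -- T1 versus T2
  have h12 : ∀ W : ι → V, #{x ∈ T1 | ends i x = W} ≤ C0 * #{x ∈ T2 | ends i x = W} := by
    intro W
    have hsub : ({x ∈ T1 | ends i x = W} : Finset (Obj ι V)) ⊆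
        ({x ∈ T2 | ends i x = W} : Finset (Obj ι V)).biUnion
          (fun y => ({x ∈ T1 | x.1 = y.1 ∧ ends i x = W} : Finset (Obj ι V))) := by
      intro x hx
      rw [mem_filter] at hx
      obtain ⟨y, hy, hyx⟩ := hT2c x hx.1
      simp only [Prod.mk.injEq] at hyx
      rw [mem_biUnion]
      refine ⟨y, mem_filter.2 ⟨hy, hyx.2.trans hx.2⟩, mem_filter.2 ⟨hx.1, hyx.1.symm, hx.2⟩⟩
    refine (card_le_card hsub).trans (card_biUnion_le.trans ?_)
    refine (sum_le_card_nsmul _ _ C0 ?_).trans ?_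
    · intro y _
      exact card_good_le G (k - 1) R i (fun c => by have := hik c; omega) T1 hgood y.1 W
    · rw [smul_eq_mul, mul_comm]
  -- T3
  set T3 : Finset (Obj ι V) :=
    {x ∈ T1 | d ≤ C7 * #{x' ∈ T1 | tr (dn i b) x' = tr (dn i b) x}} with hT3
  set T1' : Finset (Obj ι V) :=
    {x ∈ T1 | ¬ d ≤ C7 * #{x' ∈ T1 | tr (dn i b) x' = tr (dn i b) x}} with hT1'
  have hsplit : #T3 + #T1' = #T1 := card_filter_add_card_filter_not _
  have hT1'le : C7 * #T1' ≤ n * (P * d ^ σ) := by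
    have h1 : C7 * #T1' ≤ d * #(T1'.image (tr (dn i b))) := by
      rw [card_eq_sum_card_image (tr (dn i b)) T1', mul_sum]
      refine (sum_le_card_nsmul _ _ d ?_).trans ?_
      · intro s hs
        obtain ⟨x, hx, rfl⟩ := mem_image.1 hs
        rw [hT1', mem_filter, not_le] at hx
        refine le_trans (Nat.mul_le_mul_left _ (card_le_card ?_)) hx.2.le
        intro y hy
        rw [mem_filter] at hy
        rw [mem_filter]
        exact ⟨(mem_filter.1 hy.1).1, hy.2⟩
      · rw [smul_eq_mul, mul_comm]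
    have h2 : #(T1'.image (tr (dn i b))) ≤ n * (K * d) ^ (σ - 1) := by
      have h3 := card_wk_le G (K * d) hdeg (dn i b) univ
      rw [sum_dn i b (hi b)] at h3
      refine le_trans (card_le_card ?_) h3
      intro y hy
      obtain ⟨x, hx, rfl⟩ := mem_image.1 hy
      rw [mem_filter, mem_WK]
      exact ⟨wk_tr (hgood x (mem_filter.1 hx).1).sp b, mem_univ _⟩
    calc C7 * #T1' ≤ d * (n * (K * d) ^ (σ - 1)) := h1.trans (Nat.mul_le_mul_left _ h2)
      _ = n * (P * (d ^ (σ - 1) * d)) := by rw [mul_pow, hP]; ring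
      _ = n * (P * d ^ σ) := by rw [← pow_succ]; congr 3; omega
  have hhalf : 2 * #T1' ≤ #T1 := by
    have h1 : C7 * #T1' ≤ (C6 * P) * #T1 := by
      calc C7 * #T1' ≤ n * (P * d ^ σ) := hT1'le
        _ = P * (n * d ^ σ) := by ring
        _ ≤ P * (C6 * #T1) := Nat.mul_le_mul_left _ hn
        _ = (C6 * P) * #T1 := by ring
    rcases Nat.eq_zero_or_pos (C6 * P) with h0 | h0
    · rw [h0, zero_mul] at h1
      have : C7 * #T1' = 0 := Nat.le_zero.1 h1
      have h7 : 1 ≤ C7 := by omega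
      have : #T1' = 0 := by
        rcases Nat.mul_eq_zero.1 this with h | h
        · omega
        · exact h
      omega
    · have h2 : (C6 * P) * (2 * #T1') ≤ (C6 * P) * #T1 := by
        refine le_trans ?_ h1
        rw [hC7]
        nlinarith
      exact Nat.le_of_mul_le_mul_left h2 h0
  have hT13 : #T1 ≤ 2 * #T3 := by omega
  have hT3s : T3 ⊆ T1 := filter_subset _ _
  -- EE
  set EE : Finset ((ι → V) × V) := T3.image (ev i b) with hEE
  have hinnV : ∀ x ∈ T1, x.2 b (i b - 1) ∈ inn i x := by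
    intro x _
    rw [mem_inn]
    exact Or.inr ⟨b, i b - 1, by omega, by omega, rfl⟩
  have hsys : Sys G k r B d R i b T2 EE := by
    refine ⟨fun x hx => hGA x (hT2s hx), ?_, ?_, ?_⟩
    · intro x hx x' hx' h1 h2
      exact hT2i x hx x' hx' (by simp only [h1, h2])
    · intro e he
      obtain ⟨x, hx, rfl⟩ := mem_image.1 he
      have hsp := (hgood x (hT3s hx)).sp
      have := hsp.adj b (i b - 1) (by omega)
      rw [Nat.sub_add_cancel (hi b)] at this
      exact this.symm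
    · intro e he c
      obtain ⟨x, hx, rfl⟩ := mem_image.1 he
      have hsp := (hgood x (hT3s hx)).sp
      intro heq
      have := hsp.inj b c (i b - 1) (i c) (by omega) (by omega) le_rfl heq
      obtain ⟨h1, h2⟩ := this
      subst h1
      omega
  -- S
  set S : ℕ := ∑ e ∈ EE, #{x ∈ T2 | ends i x = e.1} with hS
  have hE2a : 2 * C0 ≤ E2 := by rw [hE2]; omega
  have hfib : ∀ (e : (ι → V) × V), ∀ ω ∈ Om i T2 EE, (ends i ω.1, ω.2) = e →
      ω.1 ∈ T2 ∧ ends i ω.1 = e.1 ∧ ω.2 = e.2 ∧ e.2 ∉ inn i ω.1 := by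
    intro e ω hω he
    rw [Om, mem_filter, mem_product] at hω
    subst he
    exact ⟨hω.1.1, rfl, rfl, hω.2.2⟩
  have hmaps : ∀ ω ∈ Om i T2 EE, (ends i ω.1, ω.2) ∈ EE := by
    intro ω hω
    rw [Om, mem_filter] at hω
    exact hω.2.1
  have hSOm : S ≤ 2 * #(Om i T2 EE) := by
    have h1 : #(Om i T2 EE) = ∑ e ∈ EE, #{ω ∈ Om i T2 EE | (ends i ω.1, ω.2) = e} :=
      card_eq_sum_card_fiberwise hmaps
    rw [h1, mul_sum, hS]
    refine sum_le_sum fun e he => ?_
    have h2 : #{x ∈ T2 | ends i x = e.1 ∧ ¬ e.2 ∈ inn i x} ≤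
        #{ω ∈ Om i T2 EE | (ends i ω.1, ω.2) = e} := by
      refine card_le_card_of_injOn (fun x => (x, e.2)) ?_ ?_
      · intro x hx
        rw [mem_coe, mem_filter] at hx
        rw [mem_coe, mem_filter]
        refine ⟨?_, ?_⟩
        · rw [Om, mem_filter, mem_product]
          refine ⟨⟨hx.1, mem_univ _⟩, ?_, hx.2.2⟩
          change (ends i x, e.2) ∈ EE
          rw [hx.2.1]
          exact he
        · change (ends i x, e.2) = e
          rw [hx.2.1]
      · intro x _ y _ hxy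
        exact congrArg Prod.fst hxy
    have h3 : #{x ∈ T2 | ends i x = e.1 ∧ e.2 ∈ inn i x} +
        #{x ∈ T2 | ends i x = e.1 ∧ ¬ e.2 ∈ inn i x} = #{x ∈ T2 | ends i x = e.1} := by
      rw [← filter_filter, ← filter_filter]
      exact card_filter_add_card_filter_not _
    have h4 : E2 * #{x ∈ T2 | ends i x = e.1 ∧ e.2 ∈ inn i x} ≤
        C0 * #{x ∈ T2 | ends i x = e.1} := by
      refine le_trans (Nat.mul_le_mul_left _ (card_le_card ?_)) ((hspread e.1 e.2).trans (h12 e.1))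
      exact filter_subset_filter _ hT2s
    have h5 : C0 * (2 * #{x ∈ T2 | ends i x = e.1 ∧ e.2 ∈ inn i x}) ≤
        C0 * #{x ∈ T2 | ends i x = e.1} := by
      refine le_trans ?_ h4
      calc C0 * (2 * #{x ∈ T2 | ends i x = e.1 ∧ e.2 ∈ inn i x})
          = (2 * C0) * #{x ∈ T2 | ends i x = e.1 ∧ e.2 ∈ inn i x} := by ring
        _ ≤ _ := Nat.mul_le_mul_right _ hE2a
    have h6 := Nat.le_of_mul_le_mul_left h5 (by omega)
    omega
  refine ⟨T2, EE, hsys, ?_, ?_, ?_⟩
  · -- first estimate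
    have hKK : d * #(EE.image fun e => Function.update e.1 b e.2) ≤ C7 * #EE := by
      rw [card_eq_sum_card_image (fun e : (ι → V) × V => Function.update e.1 b e.2) EE, mul_sum,
        mul_comm, ← smul_eq_mul, ← sum_const]
      refine sum_le_sum fun κ hκ => ?_
      obtain ⟨e0, he0, rfl⟩ := mem_image.1 hκ
      obtain ⟨x, hx, rfl⟩ := mem_image.1 he0
      have hx' := hx
      rw [hT3, mem_filter] at hx'
      refine hx'.2.trans (Nat.mul_le_mul_left _ ?_)
      refine card_le_card_of_injOn (ev i b) ?_ ?_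
      · intro y hy
        rw [mem_coe, mem_filter] at hy
        rw [mem_coe, mem_filter]
        refine ⟨mem_image_of_mem _ ?_, stem_eq hy.2⟩
        rw [hT3, mem_filter, hy.2]
        exact ⟨hy.1, hx'.2⟩
      · intro y hy z hz hyz
        rw [mem_coe, mem_filter] at hy hz
        exact stem_inj (hgood z hz.1).can (hgood y hy.1).can (hy.2.trans hz.2.symm)
          (congrArg Prod.fst hyz)
    have hEES : d ^ T * #EE ≤ C5 * (n ^ (q - 1) * (C0 * S)) := by
      rw [hS, mul_sum, mul_sum, mul_sum, mul_comm, ← smul_eq_mul, ← sum_const]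
      refine sum_le_sum fun e he => ?_
      obtain ⟨x, hx, rfl⟩ := mem_image.1 he
      refine (hdT x (hT3s hx)).trans ?_
      exact Nat.mul_le_mul_left _ (Nat.mul_le_mul_left _ (h12 (ends i x)))
    set kk := #(EE.image fun e => Function.update e.1 b e.2) with hkk
    set O := #(Om i T2 EE) with hO
    have hpos : 0 < d ^ (T + 1) := pow_pos (by omega) _
    refine Nat.le_of_mul_le_mul_left ?_ hpos
    have e1 : d ^ T * (d * kk) ≤ C7 * (C5 * (n ^ (q - 1) * (C0 * (2 * O)))) := by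
      calc d ^ T * (d * kk) ≤ d ^ T * (C7 * #EE) := Nat.mul_le_mul_left _ hKK
        _ = C7 * (d ^ T * #EE) := by ring
        _ ≤ C7 * (C5 * (n ^ (q - 1) * (C0 * S))) := Nat.mul_le_mul_left _ hEES
        _ ≤ _ := by gcongr
    have e2 : n ^ (q - 1) * n = n ^ q := by rw [← pow_succ]; congr 1; omega
    have e3 : d ^ (T + 1) * d ^ (k - 1) = d ^ (T + k) := by rw [← pow_add]; congr 1; omega
    calc d ^ (T + 1) * (M0 * (kk * n)) = M0 * n * (d ^ T * (d * kk)) := by rw [pow_succ]; ring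
      _ ≤ M0 * n * (C7 * (C5 * (n ^ (q - 1) * (C0 * (2 * O))))) := Nat.mul_le_mul_left _ e1
      _ = (2 * M0 * C7 * C5 * C0) * ((n ^ (q - 1) * n) * O) := by ring
      _ = (2 * M0 * C7 * C5 * C0) * (n ^ q * O) := by rw [e2]
      _ ≤ (2 * M0 * C7 * C5 * C0 + 1) * (n ^ q * O) := Nat.mul_le_mul_right _ (by omega)
      _ = ((2 * M0 * C7 * C5 * C0 + 1) * n ^ q) * O := by ring
      _ ≤ d ^ (T + k) * O := Nat.mul_le_mul_right _ hnd
      _ = d ^ (T + 1) * (d ^ (k - 1) * O) := by rw [← e3]; ring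
  · -- second estimate
    have h1 : E2 * #T3 ≤ C0 * S := by
      rw [card_eq_sum_card_image (ev i b) T3, mul_sum, hS, mul_sum]
      refine sum_le_sum fun e _ => ?_
      refine le_trans (Nat.mul_le_mul_left _ (card_le_card ?_)) ((hspread e.1 e.2).trans (h12 e.1))
      intro x hx
      rw [mem_filter] at hx
      obtain ⟨hx1, hx2⟩ := hx
      subst hx2
      rw [mem_filter]
      exact ⟨hT3s hx1, rfl, hinnV x (hT3s hx1)⟩
    have h2 : E2 * (n * d ^ σ) ≤ 4 * C6 * C0 * #(Om i T2 EE) := by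
      calc E2 * (n * d ^ σ) ≤ E2 * (C6 * #T1) := Nat.mul_le_mul_left _ hn
        _ ≤ E2 * (C6 * (2 * #T3)) := by gcongr
        _ = 2 * C6 * (E2 * #T3) := by ring
        _ ≤ 2 * C6 * (C0 * S) := Nat.mul_le_mul_left _ h1
        _ ≤ 2 * C6 * (C0 * (2 * #(Om i T2 EE))) := by gcongr
        _ = _ := by ring
    rcases Nat.eq_zero_or_pos C6 with h0 | h0
    · exfalso
      rw [h0, zero_mul] at hn
      have : 0 < n * d ^ σ := Nat.mul_pos (by omega) (pow_pos (by omega) _)
      omega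
    · have h3 : 0 < 4 * C6 * C0 := by positivity
      refine Nat.le_of_mul_le_mul_left ?_ h3
      refine le_trans ?_ h2
      rw [← mul_assoc]
      refine Nat.mul_le_mul_right _ ?_
      rw [hE2]
      omega
  · -- third estimate
    intro Tc hTc
    have h1 : #{ω ∈ Om i T2 EE | ¬ Disjoint (inn i ω.1) (Tc (ends i ω.1) ω.2)} =
        ∑ e ∈ EE, #{ω ∈ ({ω ∈ Om i T2 EE | ¬ Disjoint (inn i ω.1) (Tc (ends i ω.1) ω.2)} :
          Finset (Obj ι V × V)) | (ends i ω.1, ω.2) = e} :=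
      card_eq_sum_card_fiberwise (fun ω hω => hmaps ω (mem_filter.1 hω).1)
    have h2 : E2 * #{ω ∈ Om i T2 EE | ¬ Disjoint (inn i ω.1) (Tc (ends i ω.1) ω.2)} ≤
        (N' + 1) * C0 * S := by
      rw [h1, mul_sum, hS, mul_sum]
      refine sum_le_sum fun e _ => ?_
      have h3 : #{ω ∈ ({ω ∈ Om i T2 EE | ¬ Disjoint (inn i ω.1) (Tc (ends i ω.1) ω.2)} :
          Finset (Obj ι V × V)) | (ends i ω.1, ω.2) = e} ≤
          #((Tc e.1 e.2).biUnion fun β => ({x ∈ T1 | ends i x = e.1 ∧ β ∈ inn i x} :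
            Finset (Obj ι V))) := by
        refine card_le_card_of_injOn (fun ω => ω.1) ?_ ?_
        · intro ω hω
          rw [mem_coe, mem_filter, mem_filter] at hω
          obtain ⟨⟨ho, hdis⟩, he⟩ := hω
          obtain ⟨ha, hb1, hb2, _⟩ := hfib e ω ho he
          rw [not_disjoint_iff] at hdis
          obtain ⟨β, hβ1, hβ2⟩ := hdis
          rw [mem_coe, mem_biUnion]
          rw [hb1, hb2] at hβ2
          exact ⟨β, hβ2, mem_filter.2 ⟨hT2s ha, hb1, hβ1⟩⟩
        · intro ω hω ω' hω' hh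
          rw [mem_coe, mem_filter, mem_filter] at hω hω'
          obtain ⟨_, _, hb2, _⟩ := hfib e ω hω.1.1 hω.2
          obtain ⟨_, _, hb2', _⟩ := hfib e ω' hω'.1.1 hω'.2
          exact Prod.ext hh (hb2.trans hb2'.symm)
      have h4 : E2 * #((Tc e.1 e.2).biUnion fun β => ({x ∈ T1 | ends i x = e.1 ∧ β ∈ inn i x} :
            Finset (Obj ι V))) ≤ N' * (C0 * #{x ∈ T2 | ends i x = e.1}) := by
        refine (Nat.mul_le_mul_left _ card_biUnion_le).trans ?_
        rw [mul_sum]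
        refine (sum_le_card_nsmul _ _ (C0 * #{x ∈ T2 | ends i x = e.1}) ?_).trans ?_
        · intro β _
          exact (hspread e.1 β).trans (h12 e.1)
        · rw [smul_eq_mul]
          exact Nat.mul_le_mul_right _ (hTc _ _)
      calc _ ≤ E2 * #((Tc e.1 e.2).biUnion fun β => ({x ∈ T1 | ends i x = e.1 ∧ β ∈ inn i x} :
            Finset (Obj ι V))) := Nat.mul_le_mul_left _ h3
        _ ≤ N' * (C0 * #{x ∈ T2 | ends i x = e.1}) := h4
        _ ≤ (N' + 1) * C0 * #{x ∈ T2 | ends i x = e.1} := by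
          rw [mul_assoc]
          exact Nat.mul_le_mul_right _ (by omega)
    have h3 : 0 < 2 * (N' + 1) * C0 := by positivity
    refine Nat.le_of_mul_le_mul_left ?_ h3
    calc 2 * (N' + 1) * C0 * (M2 *
          #{ω ∈ Om i T2 EE | ¬ Disjoint (inn i ω.1) (Tc (ends i ω.1) ω.2)})
        = (2 * (N' + 1) * C0 * M2) *
          #{ω ∈ Om i T2 EE | ¬ Disjoint (inn i ω.1) (Tc (ends i ω.1) ω.2)} := by ring
      _ ≤ E2 * #{ω ∈ Om i T2 EE | ¬ Disjoint (inn i ω.1) (Tc (ends i ω.1) ω.2)} :=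
          Nat.mul_le_mul_right _ (by rw [hE2]; omega)
      _ ≤ (N' + 1) * C0 * S := h2
      _ ≤ (N' + 1) * C0 * (2 * #(Om i T2 EE)) := Nat.mul_le_mul_left _ hSOm
      _ = 2 * (N' + 1) * C0 * #(Om i T2 EE) := by ring

end Pool.Agent.Helper14.SP
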