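import Pool.Agent.Helper14.SP2.F.G1

/-!
# Project SP2, piece D9: kernels
-/

set_option autoImplicit false

namespace Pool.Agent.Helper14.SP

open Finset Classical

/-- kernel of a family of small sets -/
theorem kernel_exists {ε γ : Type} (A : ε → Finset γ) (L' : ℕ) (hL : 1 ≤ L') : ∀ (a : ℕ)
    (N : Finset ε) (K0 : Finset γ), (∀ w ∈ N, K0 ⊆ A w) → (∀ w ∈ N, #(A w \ K0) ≤ a) →
    ∃ N' ⊆ N, ∃ K : Finset γ, (∀ w ∈ N', K ⊆ A w) ∧ #N ≤ L' ^ a * #N' ∧
      ∀ z, z ∉ K → L' * #{w ∈ N' | z ∈ A w} ≤ #N' := by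
  intro a
  induction a with
  | zero =>
    intro N K0 h1 h2
    refine ⟨N, Subset.refl _, K0, h1, by simp, ?_⟩
    intro z hz
    have h3 : ({w ∈ N | z ∈ A w} : Finset ε) = ∅ := by
      rw [filter_eq_empty_iff]
      intro w hw hzw
      have h4 := h2 w hw
      rw [Nat.le_zero, card_eq_zero] at h4
      have h5 : z ∈ A w \ K0 := mem_sdiff.mpr ⟨hzw, hz⟩
      rw [h4] at h5
      exact notMem_empty _ h5
    rw [h3]
    simp
  | succ a ih =>
    intro N K0 h1 h2
    by_cases hc : ∀ z, z ∉ K0 → L' * #{w ∈ N | z ∈ A w} ≤ #N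
    · refine ⟨N, Subset.refl _, K0, h1, ?_, hc⟩
      exact Nat.le_mul_of_pos_left _ (Nat.pow_pos hL)
    · push Not at hc
      obtain ⟨z, hz, hlt⟩ := hc
      obtain ⟨N', hN', K, hK1, hK2, hK3⟩ := ih (N.filter fun w => z ∈ A w) (insert z K0) (by
          intro w hw
          rw [mem_filter] at hw
          exact insert_subset hw.2 (h1 w hw.1)) (by
          intro w hw
          rw [mem_filter] at hw
          have h4 := h2 w hw.1
          have h5 : A w \ insert z K0 = (A w \ K0).erase z := by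
            ext y
            simp only [mem_sdiff, mem_insert, mem_erase]
            tauto
          have h6 : z ∈ A w \ K0 := mem_sdiff.mpr ⟨hw.2, hz⟩
          rw [h5, card_erase_of_mem h6]
          omega)
      refine ⟨N', hN'.trans (filter_subset _ _), K, hK1, ?_, hK3⟩
      calc #N ≤ L' * #(N.filter fun w => z ∈ A w) := hlt.le
        _ ≤ L' * (L' ^ a * #N') := Nat.mul_le_mul_left _ hK2
        _ = L' ^ (a + 1) * #N' := by ring

/-- the potential of the cleaning -/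
noncomputable def pot {α β : Type} (E1 : Finset (α × β)) (D : ℕ) (F : Finset (α × β)) : ℤ :=
  (∑ v ∈ E1.image Prod.snd, max 0 (2 * (#{e ∈ F | e.2 = v} : ℤ) - (#{e ∈ E1 | e.2 = v} : ℤ))) -
    2 * D * #(F.image Prod.fst)

theorem pot_left {α β : Type} (E1 : Finset (α × β)) (D : ℕ) (F : Finset (α × β)) (hF : F ⊆ E1)
    (e : α × β) (he : e ∈ F) (h : #{e' ∈ F | e'.1 = e.1} ≤ D) :
    pot E1 D F ≤ pot E1 D (F.filter fun e' => ¬ e'.1 = e.1) := by
  unfold pot
  have h1 : #((F.filter fun e' => ¬ e'.1 = e.1).image Prod.fst) + 1 ≤ #(F.image Prod.fst) := by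
    have h2 : (F.filter fun e' => ¬ e'.1 = e.1).image Prod.fst = (F.image Prod.fst).erase e.1 := by
      ext w
      simp only [mem_image, mem_filter, mem_erase]
      constructor
      · rintro ⟨x, ⟨hx, hx1⟩, rfl⟩
        exact ⟨hx1, x, hx, rfl⟩
      · rintro ⟨hw, x, hx, rfl⟩
        exact ⟨x, ⟨hx, hw⟩, rfl⟩
    rw [h2, card_erase_of_mem (mem_image_of_mem _ he)]
    have h3 : 0 < #(F.image Prod.fst) := card_pos.mpr ⟨e.1, mem_image_of_mem _ he⟩
    omega
  have h4 : ∑ v ∈ E1.image Prod.snd, max 0 (2 * (#{e' ∈ F | e'.2 = v} : ℤ) -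
        (#{e' ∈ E1 | e'.2 = v} : ℤ)) ≤
      ∑ v ∈ E1.image Prod.snd, max 0 (2 * (#{e' ∈ (F.filter fun e' => ¬ e'.1 = e.1) |
        e'.2 = v} : ℤ) - (#{e' ∈ E1 | e'.2 = v} : ℤ)) +
      2 * (∑ v ∈ E1.image Prod.snd, (#{e' ∈ (F.filter fun e' => e'.1 = e.1) | e'.2 = v} : ℤ)) := by
    rw [mul_sum, ← sum_add_distrib]
    apply sum_le_sum
    intro v _
    have h5 : #{e' ∈ F | e'.2 = v} = #{e' ∈ (F.filter fun e' => ¬ e'.1 = e.1) | e'.2 = v} +
        #{e' ∈ (F.filter fun e' => e'.1 = e.1) | e'.2 = v} := by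
      have h6 := card_filter_add_card_filter_not (s := F.filter fun e' => e'.2 = v)
        (fun e' => e'.1 = e.1)
      have h7 : (F.filter fun e' => e'.2 = v).filter (fun e' => e'.1 = e.1) =
          (F.filter fun e' => e'.1 = e.1).filter (fun e' => e'.2 = v) := by
        rw [filter_filter, filter_filter]
        apply filter_congr
        intro x _
        tauto
      have h8 : (F.filter fun e' => e'.2 = v).filter (fun e' => ¬ e'.1 = e.1) =
          (F.filter fun e' => ¬ e'.1 = e.1).filter (fun e' => e'.2 = v) := by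
        rw [filter_filter, filter_filter]
        apply filter_congr
        intro x _
        tauto
      rw [h7, h8] at h6
      omega
    have h9 : (#{e' ∈ F | e'.2 = v} : ℤ) =
        (#{e' ∈ (F.filter fun e' => ¬ e'.1 = e.1) | e'.2 = v} : ℤ) +
        (#{e' ∈ (F.filter fun e' => e'.1 = e.1) | e'.2 = v} : ℤ) := by
      exact_mod_cast h5
    omega
  have h10 : (∑ v ∈ E1.image Prod.snd,
      (#{e' ∈ (F.filter fun e' => e'.1 = e.1) | e'.2 = v} : ℤ)) ≤ D := by
    have h11 : #(F.filter fun e' => e'.1 = e.1) = ∑ v ∈ E1.image Prod.snd,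
        #{e' ∈ (F.filter fun e' => e'.1 = e.1) | e'.2 = v} := by
      apply card_eq_sum_card_fiberwise
      intro x hx
      have hx' : x ∈ F := (mem_filter.mp hx).1
      exact mem_image_of_mem _ (hF hx')
    have h12 : (∑ v ∈ E1.image Prod.snd,
      (#{e' ∈ (F.filter fun e' => e'.1 = e.1) | e'.2 = v} : ℤ)) =
        (#(F.filter fun e' => e'.1 = e.1) : ℤ) := by
      rw [h11]
      push_cast
      rfl
    rw [h12]
    exact_mod_cast h
  have h13 : (2 : ℤ) * D * (#((F.filter fun e' => ¬ e'.1 = e.1).image Prod.fst) + 1 : ℕ) ≤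
      2 * D * (#(F.image Prod.fst) : ℕ) := by
    apply mul_le_mul_of_nonneg_left
    · exact_mod_cast h1
    · positivity
  push_cast at h13
  linarith

theorem pot_right {α β : Type} (E1 : Finset (α × β)) (D : ℕ) (F : Finset (α × β))
    (e : α × β) (h : 2 * #{e' ∈ F | e'.2 = e.2} ≤ #{e' ∈ E1 | e'.2 = e.2}) :
    pot E1 D F ≤ pot E1 D (F.filter fun e' => ¬ e'.2 = e.2) := by
  unfold pot
  have h1 : #((F.filter fun e' => ¬ e'.2 = e.2).image Prod.fst) ≤ #(F.image Prod.fst) :=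
    card_le_card (image_subset_image (filter_subset _ _))
  have h4 : ∑ v ∈ E1.image Prod.snd, max 0 (2 * (#{e' ∈ F | e'.2 = v} : ℤ) -
        (#{e' ∈ E1 | e'.2 = v} : ℤ)) ≤
      ∑ v ∈ E1.image Prod.snd, max 0 (2 * (#{e' ∈ (F.filter fun e' => ¬ e'.2 = e.2) |
        e'.2 = v} : ℤ) - (#{e' ∈ E1 | e'.2 = v} : ℤ)) := by
    apply sum_le_sum
    intro v _
    by_cases hv : v = e.2
    · subst hv
      have h5 : (2 * (#{e' ∈ F | e'.2 = e.2} : ℤ)) ≤ #{e' ∈ E1 | e'.2 = e.2} := by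
        exact_mod_cast h
      rw [max_eq_left (by linarith)]
      exact le_max_left _ _
    · have h6 : (F.filter fun e' => ¬ e'.2 = e.2).filter (fun e' => e'.2 = v) =
          F.filter (fun e' => e'.2 = v) := by
        rw [filter_filter]
        apply filter_congr
        intro x _
        constructor
        · rintro ⟨_, h7⟩
          exact h7
        · intro h7
          refine ⟨?_, h7⟩
          rw [h7]
          exact hv
      rw [h6]
  have h13 : (2 : ℤ) * D * (#((F.filter fun e' => ¬ e'.2 = e.2).image Prod.fst) : ℕ) ≤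
      2 * D * (#(F.image Prod.fst) : ℕ) := by
    apply mul_le_mul_of_nonneg_left
    · exact_mod_cast h1
    · positivity
  linarith

/-- deletion of the vertices of small degree -/
theorem clean_aux {α β : Type} (E1 : Finset (α × β)) (D : ℕ) : ∀ (n : ℕ) (F : Finset (α × β)),
    #F = n → F ⊆ E1 → ∃ E' ⊆ F, (∀ e ∈ E', D ≤ #{e' ∈ E' | e'.1 = e.1}) ∧
      (∀ e ∈ E', #{e' ∈ E1 | e'.2 = e.2} ≤ 2 * #{e' ∈ E' | e'.2 = e.2}) ∧
      pot E1 D F ≤ pot E1 D E' := by
  intro n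
  induction n using Nat.strong_induction_on with
  | _ n ih =>
    intro F hn hF
    by_cases h1 : ∃ e ∈ F, #{e' ∈ F | e'.1 = e.1} < D
    · obtain ⟨e, he, hlt⟩ := h1
      have hss : F.filter (fun e' => ¬ e'.1 = e.1) ⊂ F := by
        rw [Finset.ssubset_iff_subset_ne]
        refine ⟨filter_subset _ _, ?_⟩
        intro heq
        have := heq ▸ he
        rw [← heq, mem_filter] at he
        exact he.2 rfl
      obtain ⟨E', h2, h3, h4, h5⟩ := ih _ (by rw [← hn]; exact card_lt_card hss) _ rfl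
        (hss.subset.trans hF)
      exact ⟨E', h2.trans hss.subset, h3, h4, (pot_left E1 D F hF e he hlt.le).trans h5⟩
    · by_cases h2 : ∃ e ∈ F, 2 * #{e' ∈ F | e'.2 = e.2} < #{e' ∈ E1 | e'.2 = e.2}
      · obtain ⟨e, he, hlt⟩ := h2
        have hss : F.filter (fun e' => ¬ e'.2 = e.2) ⊂ F := by
          rw [Finset.ssubset_iff_subset_ne]
          refine ⟨filter_subset _ _, ?_⟩
          intro heq
          rw [← heq, mem_filter] at he
          exact he.2 rfl
        obtain ⟨E', h2, h3, h4, h5⟩ := ih _ (by rw [← hn]; exact card_lt_card hss) _ rfl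
          (hss.subset.trans hF)
        exact ⟨E', h2.trans hss.subset, h3, h4, (pot_right E1 D F e hlt.le).trans h5⟩
      · push Not at h1 h2
        exact ⟨F, Subset.refl _, h1, h2, le_rfl⟩

theorem clean_graph {α β : Type} (E1 : Finset (α × β)) (D : ℕ) :
    ∃ E' ⊆ E1, (∀ e ∈ E', D ≤ #{e' ∈ E' | e'.1 = e.1}) ∧
      (∀ e ∈ E', #{e' ∈ E1 | e'.2 = e.2} ≤ 2 * #{e' ∈ E' | e'.2 = e.2}) ∧
      #E1 ≤ #E' + 2 * D * #(E1.image Prod.fst) := by
  obtain ⟨E', h1, h2, h3, h4⟩ := clean_aux E1 D _ E1 rfl (Subset.refl _)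
  refine ⟨E', h1, h2, h3, ?_⟩
  have h5 : pot E1 D E1 = #E1 - 2 * D * #(E1.image Prod.fst) := by
    unfold pot
    have h6 : #E1 = ∑ v ∈ E1.image Prod.snd, #{e' ∈ E1 | e'.2 = v} := by
      apply card_eq_sum_card_fiberwise
      intro x hx
      exact mem_image_of_mem _ hx
    have h7 : ∑ v ∈ E1.image Prod.snd, max 0 (2 * (#{e ∈ E1 | e.2 = v} : ℤ) -
        (#{e ∈ E1 | e.2 = v} : ℤ)) = ∑ v ∈ E1.image Prod.snd, (#{e ∈ E1 | e.2 = v} : ℤ) := by
      apply sum_congr rfl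
      intro v _
      rw [max_eq_right]
      · ring
      · have : (0 : ℤ) ≤ #{e ∈ E1 | e.2 = v} := Int.natCast_nonneg _
        linarith
    rw [h7]
    have h8 : ((#E1 : ℕ) : ℤ) = ∑ v ∈ E1.image Prod.snd, (#{e ∈ E1 | e.2 = v} : ℤ) := by
      conv_lhs => rw [h6]
      push_cast
      rfl
    rw [h8]
  have h9 : pot E1 D E' ≤ #E' := by
    unfold pot
    have h10 : #E' = ∑ v ∈ E1.image Prod.snd, #{e' ∈ E' | e'.2 = v} := by
      apply card_eq_sum_card_fiberwise
      intro x hx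
      exact mem_image_of_mem _ (h1 hx)
    have h11 : ∑ v ∈ E1.image Prod.snd, max 0 (2 * (#{e ∈ E' | e.2 = v} : ℤ) -
        (#{e ∈ E1 | e.2 = v} : ℤ)) ≤ ∑ v ∈ E1.image Prod.snd, (#{e ∈ E' | e.2 = v} : ℤ) := by
      apply sum_le_sum
      intro v _
      have h12 : (#{e ∈ E' | e.2 = v} : ℤ) ≤ #{e ∈ E1 | e.2 = v} := by
        exact_mod_cast card_le_card (filter_subset_filter _ h1)
      have h13 : (0 : ℤ) ≤ #{e ∈ E' | e.2 = v} := Int.natCast_nonneg _
      rw [max_le_iff]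
      constructor
      · exact h13
      · linarith
    have h14 : ((#E' : ℕ) : ℤ) = ∑ v ∈ E1.image Prod.snd, (#{e ∈ E' | e.2 = v} : ℤ) := by
      conv_lhs => rw [h10]
      push_cast
      rfl
    have h15 : (0 : ℤ) ≤ 2 * D * #(E'.image Prod.fst) := by positivity
    linarith
  have h16 : (#E1 : ℤ) ≤ #E' + 2 * D * #(E1.image Prod.fst) := by linarith
  exact_mod_cast h16

/-- SP2-D9 -/
theorem kernel_clean (a L D M3 : ℕ) : ∃ M4 f0 M1 : ℕ, ∀ {α β γ : Type} (E : Finset (α × β))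
    (A : α → Finset γ), (∀ e ∈ E, #(A e.1) ≤ a) →
    #E ≤ M3 * #{e ∈ E | f0 < #{e' ∈ E | e'.2 = e.2}} → M1 * #(E.image Prod.fst) ≤ #E →
    ∃ E' ⊆ E, ∃ Ker : β → Finset γ, #E ≤ M4 * #E' ∧
      (∀ e ∈ E', D ≤ #{e' ∈ E' | e'.1 = e.1}) ∧ (∀ e ∈ E', D ≤ #{e' ∈ E' | e'.2 = e.2}) ∧
      (∀ e ∈ E', Ker e.2 ⊆ A e.1) ∧
      ∀ e ∈ E', ∀ z, z ∉ Ker e.2 →
        L * #{e' ∈ E' | e'.2 = e.2 ∧ z ∈ A e'.1} ≤ #{e' ∈ E' | e'.2 = e.2} := by
  obtain ⟨L', hL'⟩ : ∃ L' : ℕ, L' = 2 * (L + 1) := ⟨_, rfl⟩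
  have hL1 : 1 ≤ L' := by omega
  refine ⟨2 * (M3 * L' ^ a), 2 * D * L' ^ a, 4 * D * (M3 * L' ^ a), ?_⟩
  intro α β γ E A hA hE hM
  have hker : ∀ v : β, ∃ N' ⊆ E.filter (fun e => e.2 = v), ∃ K : Finset γ,
      (∀ w ∈ N', K ⊆ A w.1) ∧ #(E.filter (fun e => e.2 = v)) ≤ L' ^ a * #N' ∧
      ∀ z, z ∉ K → L' * #{w ∈ N' | z ∈ A w.1} ≤ #N' := by
    intro v
    exact kernel_exists (fun e : α × β => A e.1) L' hL1 a (E.filter (fun e => e.2 = v)) ∅
      (fun w _ => empty_subset _) (fun w hw => by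
        rw [sdiff_empty]
        exact hA w (mem_filter.mp hw).1)
  choose N hN Ker hK1 hK2 hK3 using hker
  obtain ⟨f0, hf0⟩ : ∃ f0 : ℕ, f0 = 2 * D * L' ^ a := ⟨_, rfl⟩
  rw [← hf0] at hE
  obtain ⟨E0, hE0⟩ : ∃ E0 : Finset (α × β), E0 = E.filter
    (fun e => f0 < #(E.filter fun e' => e'.2 = e.2)) := ⟨_, rfl⟩
  obtain ⟨E1, hE1⟩ : ∃ E1 : Finset (α × β), E1 = E0.filter (fun e => e ∈ N e.2) := ⟨_, rfl⟩
  have hE1E : E1 ⊆ E := by
    rw [hE1, hE0]
    exact (filter_subset _ _).trans (filter_subset _ _)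
  -- the edges of `E1` at `v` are the elements of `N v`
  have hfib : ∀ e ∈ E1, E1.filter (fun e' => e'.2 = e.2) = N e.2 := by
    intro e he
    rw [hE1, mem_filter, hE0, mem_filter] at he
    ext x
    rw [mem_filter]
    constructor
    · rintro ⟨hx1, hx2⟩
      rw [hE1, mem_filter] at hx1
      rw [← hx2]
      exact hx1.2
    · intro hx
      have hx1 := hN _ hx
      rw [mem_filter] at hx1
      refine ⟨?_, hx1.2⟩
      rw [hE1, mem_filter, hE0, mem_filter, hx1.2]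
      exact ⟨⟨hx1.1, he.1.2⟩, hx⟩
  have hcard : #E0 ≤ L' ^ a * #E1 := by
    have h1 : #E0 = ∑ v ∈ E0.image Prod.snd, #{e' ∈ E0 | e'.2 = v} := by
      apply card_eq_sum_card_fiberwise
      intro x hx
      exact mem_image_of_mem _ hx
    have h2 : #E1 = ∑ v ∈ E0.image Prod.snd, #{e' ∈ E1 | e'.2 = v} := by
      apply card_eq_sum_card_fiberwise
      intro x hx
      apply mem_image_of_mem
      have hx' : x ∈ E1 := hx
      rw [hE1] at hx'
      exact (mem_filter.mp hx').1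
    rw [h1, h2, mul_sum]
    apply sum_le_sum
    intro v hv
    rw [mem_image] at hv
    obtain ⟨e, he, rfl⟩ := hv
    have he0 := he
    rw [hE0, mem_filter] at he
    have h3 : #{e' ∈ E0 | e'.2 = e.2} ≤ #(E.filter (fun e' => e'.2 = e.2)) := by
      apply card_le_card
      apply filter_subset_filter
      rw [hE0]
      exact filter_subset _ _
    have h4 : N e.2 ⊆ E1.filter (fun e' => e'.2 = e.2) := by
      intro x hx
      have hx1 := hN _ hx
      rw [mem_filter] at hx1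
      rw [mem_filter]
      refine ⟨?_, hx1.2⟩
      rw [hE1, mem_filter, hE0, mem_filter, hx1.2]
      exact ⟨⟨hx1.1, he.2⟩, hx⟩
    calc #{e' ∈ E0 | e'.2 = e.2} ≤ #(E.filter (fun e' => e'.2 = e.2)) := h3
      _ ≤ L' ^ a * #(N e.2) := hK2 _
      _ ≤ L' ^ a * #{e' ∈ E1 | e'.2 = e.2} := Nat.mul_le_mul_left _ (card_le_card h4)
  obtain ⟨E', hE', hl, hr, hc⟩ := clean_graph E1 D
  refine ⟨E', hE'.trans hE1E, Ker, ?_, hl, ?_, ?_, ?_⟩
  · have h1 : #(E1.image Prod.fst) ≤ #(E.image Prod.fst) := card_le_card (image_subset_image hE1E)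
    rw [← hE0] at hE
    have h2 : #E ≤ M3 * (L' ^ a * #E1) := hE.trans (Nat.mul_le_mul_left _ hcard)
    have h3 : M3 * (L' ^ a * #E1) ≤ M3 * (L' ^ a * (#E' + 2 * D * #(E.image Prod.fst))) := by
      apply Nat.mul_le_mul_left
      apply Nat.mul_le_mul_left
      refine hc.trans ?_
      apply Nat.add_le_add_left
      exact Nat.mul_le_mul_left _ h1
    have h4 : 2 * (M3 * (L' ^ a * (#E' + 2 * D * #(E.image Prod.fst)))) =
        2 * (M3 * L' ^ a) * #E' + 4 * D * (M3 * L' ^ a) * #(E.image Prod.fst) := by ring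
    omega
  · intro e he
    have h1 := hr e he
    have he1 := hE' he
    rw [hfib e he1] at h1
    rw [hE1, mem_filter, hE0, mem_filter] at he1
    have h2 : f0 < L' ^ a * #(N e.2) := he1.1.2.trans_le (hK2 e.2)
    have h3 : L' ^ a * (2 * D) < L' ^ a * #(N e.2) := by
      rw [hf0] at h2
      calc L' ^ a * (2 * D) = 2 * D * L' ^ a := by ring
        _ < _ := h2
    have h4 : 2 * D < #(N e.2) := Nat.lt_of_mul_lt_mul_left h3
    omega
  · intro e he
    have he1 := hE' he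
    rw [hE1, mem_filter] at he1
    exact hK1 e.2 e he1.2
  · intro e he z hz
    have h1 := hr e he
    have he1 := hE' he
    rw [hfib e he1] at h1
    have h2 := hK3 e.2 z hz
    have h3 : #{e' ∈ E' | e'.2 = e.2 ∧ z ∈ A e'.1} ≤ #{w ∈ N e.2 | z ∈ A w.1} := by
      apply card_le_card
      intro x hx
      rw [mem_filter] at hx ⊢
      refine ⟨?_, hx.2.2⟩
      rw [← hfib e he1, mem_filter]
      exact ⟨hE' hx.1, hx.2.1⟩
    have h4 : L' * #{e' ∈ E' | e'.2 = e.2 ∧ z ∈ A e'.1} ≤ L' * #{w ∈ N e.2 | z ∈ A w.1} :=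
      Nat.mul_le_mul_left _ h3
    have h5 : 2 * (L * #{e' ∈ E' | e'.2 = e.2 ∧ z ∈ A e'.1}) ≤
        L' * #{e' ∈ E' | e'.2 = e.2 ∧ z ∈ A e'.1} := by
      rw [hL', ← mul_assoc]
      apply Nat.mul_le_mul_right
      omega
    omega

end Pool.Agent.Helper14.SP
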