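import Pool.Agent.Helper14.SP2.F.Base
import Pool.Agent.Helper14.SP2.F.A1
import Pool.Agent.Helper14.SP2.F.A2
import Pool.Agent.Helper14.SP2.F.A5
import Pool.Agent.Helper14.SP2.F.FF
import Pool.Agent.Helper14.SP2.F.LemZ
import Pool.Agent.Helper14.SP2.F.B1
import Pool.Agent.Helper14.SP2.F.B4

/-! Project SP2: imports -/
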