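import Pool.Agent.Helper14.SP2.F.G1

set_option autoImplicit false

namespace Pool.Agent.Helper14.SP

open Finset Classical
open Pool.Agent.Helper97.RE (IsPath Rich PP Clean Cb)

theorem GA.tr {ι V : Type} [Fintype V] {G : SimpleGraph V} {k r B d : ℕ} {R : ℕ → ℕ}
    {i j : ι → ℕ} {x : Obj ι V} (h : GA G k r B d R j x) (hi : ∀ c, 1 ≤ i c)
    (hij : ∀ c, i c ≤ j c) : GA G k r B d R i (tr i x) where
  good := h.good.tr hi hij
  att c m h1 h2 := by
    rw [tr_snd_le x h2]
    exact h.att c m h1 (h2.trans (hij c))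
  vt := h.vt


end Pool.Agent.Helper14.SP
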