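import Pool.Agent.Helper14.SP2.F.G1

/-!
# Project SP2, piece C2: pruning, symmetry of richness, reindexing of worlds
-/

set_option autoImplicit false

namespace Pool.Agent.Helper14.SP

open Finset Classical
open Pool.Agent.Helper97.RE (IsPath Rich PP Clean Cb)

theorem Rich.symm {V : Type} {G : SimpleGraph V} {m r : ℕ} {x y : V} (h : Rich G m r x y) :
    Rich G m r y x := by
  intro Z hZ
  obtain ⟨p, hp, h0, h1, h2⟩ := h Z hZ
  refine ⟨fun i => p (Fin.rev i), ⟨?_, ?_⟩, ?_, ?_, ?_⟩
  · intro a b hab
    exact Fin.rev_injective (hp.1 hab)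
  · intro i
    have h3 := (hp.2 (Fin.rev i)).symm
    change G.Adj (p (Fin.rev i.castSucc)) (p (Fin.rev i.succ))
    rw [Fin.rev_castSucc, Fin.rev_succ]
    exact h3
  · change p (Fin.rev 0) = y
    rw [Fin.rev_zero, h1]
  · change p (Fin.rev (Fin.last m)) = x
    rw [Fin.rev_last, h0]
  · intro i hi hi'
    refine h2 _ ?_ ?_
    · intro h3
      apply hi'
      rw [← Fin.rev_rev i, h3, Fin.rev_zero]
    · intro h3
      apply hi
      rw [← Fin.rev_rev i, h3, Fin.rev_last]

theorem prune {V : Type} (G : SimpleGraph V) (W0 A0 : Finset V) (D r : ℕ) (hDr : D ≤ r)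
    (hW : ∀ w ∈ W0, r ≤ #{a ∈ A0 | G.Adj w a}) :
    ∃ W ⊆ W0, ∃ A ⊆ A0, (∀ w ∈ W, D ≤ #{a ∈ A | G.Adj w a}) ∧
      (∀ a ∈ A, D ≤ #{w ∈ W | G.Adj a w}) ∧ (r - D) * #(W0 \ W) ≤ D * #A0 := by
  have key : ∀ n : ℕ, ∀ W ⊆ W0, ∀ A ⊆ A0, #W + #A = n →
      (r - D) * #(W0 \ W) + ∑ w ∈ W, #{a ∈ A0 \ A | G.Adj w a} ≤ D * #(A0 \ A) →
      ∃ W ⊆ W0, ∃ A ⊆ A0, (∀ w ∈ W, D ≤ #{a ∈ A | G.Adj w a}) ∧
        (∀ a ∈ A, D ≤ #{w ∈ W | G.Adj a w}) ∧ (r - D) * #(W0 \ W) ≤ D * #A0 := by
    intro n
    induction n with
    | zero =>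
      intro W hWW A hAA hn hinv
      have hW0 : W = ∅ := card_eq_zero.1 (by omega)
      have hA0 : A = ∅ := card_eq_zero.1 (by omega)
      subst hW0 hA0
      refine ⟨∅, empty_subset _, ∅, empty_subset _, by simp, by simp, ?_⟩
      simpa using hinv
    | succ n ih =>
      intro W hWW A hAA hn hinv
      by_cases h1 : ∃ w ∈ W, #{a ∈ A | G.Adj w a} < D
      · obtain ⟨w, hw, hlt⟩ := h1
        refine ih (W.erase w) ((erase_subset _ _).trans hWW) A hAA ?_ ?_
        · rw [card_erase_of_mem hw]
          have := card_pos.2 ⟨w, hw⟩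
          omega
        · have e1 : W0 \ W.erase w = insert w (W0 \ W) := by
            ext v
            simp only [mem_sdiff, mem_erase, mem_insert]
            constructor
            · rintro ⟨a, b⟩
              by_cases hv : v = w
              · exact Or.inl hv
              · exact Or.inr ⟨a, fun c => b ⟨hv, c⟩⟩
            · rintro (rfl | ⟨a, b⟩)
              · exact ⟨hWW hw, fun c => c.1 rfl⟩
              · exact ⟨a, fun c => b c.2⟩
          have e2 : w ∉ W0 \ W := by
            simp [hw]
          have e3 : ∑ v ∈ W, #{a ∈ A0 \ A | G.Adj v a} =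
              #{a ∈ A0 \ A | G.Adj w a} + ∑ v ∈ W.erase w, #{a ∈ A0 \ A | G.Adj v a} :=
            (add_sum_erase W _ hw).symm
          have e4 : r ≤ #{a ∈ A | G.Adj w a} + #{a ∈ A0 \ A | G.Adj w a} := by
            refine (hW w (hWW hw)).trans ?_
            rw [← card_union_of_disjoint]
            · refine card_le_card ?_
              intro a ha
              rw [mem_filter] at ha
              by_cases haA : a ∈ A
              · exact mem_union_left _ (mem_filter.2 ⟨haA, ha.2⟩)
              · exact mem_union_right _ (mem_filter.2 ⟨mem_sdiff.2 ⟨ha.1, haA⟩, ha.2⟩)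
            · rw [disjoint_left]
              intro a ha hb
              rw [mem_filter] at ha hb
              exact (mem_sdiff.1 hb.1).2 ha.1
          rw [e1, card_insert_of_notMem e2, Nat.mul_add, Nat.mul_one]
          omega
      · by_cases h2 : ∃ a ∈ A, #{w ∈ W | G.Adj a w} < D
        · obtain ⟨a, ha, hlt⟩ := h2
          refine ih W hWW (A.erase a) ((erase_subset _ _).trans hAA) ?_ ?_
          · rw [card_erase_of_mem ha]
            have := card_pos.2 ⟨a, ha⟩
            omega
          · have e1 : A0 \ A.erase a = insert a (A0 \ A) := by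
              ext v
              simp only [mem_sdiff, mem_erase, mem_insert]
              constructor
              · rintro ⟨b, c⟩
                by_cases hv : v = a
                · exact Or.inl hv
                · exact Or.inr ⟨b, fun d => c ⟨hv, d⟩⟩
              · rintro (rfl | ⟨b, c⟩)
                · exact ⟨hAA ha, fun c => c.1 rfl⟩
                · exact ⟨b, fun d => c d.2⟩
            have e2 : a ∉ A0 \ A := by
              simp [ha]
            have e3 : ∑ w ∈ W, #{b ∈ insert a (A0 \ A) | G.Adj w b} =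
                #{w ∈ W | G.Adj a w} + ∑ w ∈ W, #{b ∈ A0 \ A | G.Adj w b} := by
              rw [card_filter, ← sum_add_distrib]
              refine sum_congr rfl fun w _ => ?_
              rw [filter_insert]
              by_cases hwa : G.Adj w a
              · rw [if_pos hwa, if_pos hwa.symm, card_insert_of_notMem]
                · omega
                · simp [ha]
              · rw [if_neg hwa, if_neg fun c => hwa c.symm]
                omega
            rw [e1, e3, card_insert_of_notMem e2, Nat.mul_add, Nat.mul_one]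
            omega
        · push Not at h1 h2
          refine ⟨W, hWW, A, hAA, h1, h2, ?_⟩
          have h3 : D * #(A0 \ A) ≤ D * #A0 := Nat.mul_le_mul_left _ (card_le_card sdiff_subset)
          omega
  refine key _ W0 (Subset.refl _) A0 (Subset.refl _) rfl ?_
  simp

theorem World.congr {ι ι' : Type} [Fintype ι] [Fintype ι'] {j : ι → ℕ} {N0 K l : ℕ}
    (h : World j N0 K l) (e : ι' ≃ ι) : World (fun c => j (e c)) N0 K l := by
  intro E
  obtain ⟨E', hE'⟩ := h E
  refine ⟨E', fun R => ?_⟩
  obtain ⟨r, A, hr⟩ := hE' R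
  refine ⟨r, A, ?_⟩
  intro V _ _ G d hdeg hA hrare hmany
  have hc : Fintype.card ι' = Fintype.card ι := Fintype.card_congr e
  have hs : ∑ c, j (e c) = ∑ c, j c := Equiv.sum_comp e j
  rw [hc, hs] at hA
  obtain ⟨X, hX⟩ := hr V G d hdeg hA hrare hmany
  exact ⟨_, hX.congr e⟩

end Pool.Agent.Helper14.SP
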