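import Pool.Agent.Helper14.SP2.F.G1
import Pool.Agent.Helper14.SP2.F.GATr
import Pool.Agent.Helper14.SP2.F.B3
import Pool.Agent.Helper14.SP2.F.B2
import Pool.Agent.Helper14.SP2.F.Prune
import Pool.Agent.Helper14.SP2.F.Pick
import Pool.Agent.Helper14.SP2.F.C7
import Pool.Agent.Helper14.SP2.F.D9
import Pool.Agent.Helper14.SP2.F.HubRich

/-! Project SP2: imports -/
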