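import Pool.Agent.Helper14.SP2.F.G3

/-!
# Project SP2, piece B6: most vertices are centres of many good copies
-/

set_option autoImplicit false

namespace Pool.Agent.Helper14.SP

open Finset Classical
open Pool.Agent.Helper97.RE (IsPath Rich PP Clean Cb)

section manyGood

variable {ι : Type} [Fintype ι]

/-- the number of bad centres -/
theorem many_good_bad {V : Type} [Fintype V] (G : SimpleGraph V) (j : ι → ℕ) (L d : ℕ)
    (R : ℕ → ℕ) :
    #(univ.filter fun u : V => d ^ (∑ c, j c) <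
        8 * #{x ∈ WK G j | x.1 = u ∧ Sp G j x ∧ ¬ Good G L R j x}) * d ^ (∑ c, j c) ≤
      8 * #{x ∈ WK G j | Sp G j x ∧ ¬ Good G L R j x} := by
  set Bad : Finset V := univ.filter fun u : V => d ^ (∑ c, j c) <
        8 * #{x ∈ WK G j | x.1 = u ∧ Sp G j x ∧ ¬ Good G L R j x} with hBad
  have h1 : #Bad * d ^ (∑ c, j c) ≤
      ∑ u ∈ Bad, 8 * #{x ∈ WK G j | x.1 = u ∧ Sp G j x ∧ ¬ Good G L R j x} := by
    rw [← smul_eq_mul]
    refine Finset.card_nsmul_le_sum _ _ _ fun u hu => ?_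
    rw [hBad, mem_filter] at hu
    exact hu.2.le
  refine h1.trans ?_
  rw [← mul_sum]
  refine Nat.mul_le_mul_left 8 ?_
  have h2 : ∑ u ∈ Bad, #{x ∈ WK G j | x.1 = u ∧ Sp G j x ∧ ¬ Good G L R j x} =
      #(Bad.biUnion fun u => {x ∈ WK G j | x.1 = u ∧ Sp G j x ∧ ¬ Good G L R j x}) := by
    symm
    refine card_biUnion ?_
    intro u _ v _ huv
    rw [Function.onFun, disjoint_left]
    intro x hx hx'
    rw [mem_filter] at hx hx'
    exact huv (hx.2.1.symm.trans hx'.2.1)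
  rw [h2]
  refine card_le_card ?_
  intro x hx
  rw [mem_biUnion] at hx
  obtain ⟨u, _, hx⟩ := hx
  rw [mem_filter] at hx ⊢
  exact ⟨hx.1, hx.2.2⟩

/-- SP2-B6 -/
theorem many_good (j : ι → ℕ) (hj : ∀ c, 1 ≤ j c) (L : ℕ) (hL : ∀ c, j c ≤ L)
    (hL2 : 2 ≤ L ∨ Subsingleton ι) (K E : ℕ) : ∃ E' : ℕ, ∀ NY : ℕ, ∃ d0 : ℕ,
      ∀ {V : Type} [Fintype V] (G : SimpleGraph V) (d : ℕ) (R : ℕ → ℕ),
      (∀ w, d ≤ G.degree w ∧ G.degree w ≤ K * d) → d0 ≤ d → Rare G E' d L R →
      ∃ Bad : Finset V, E * #Bad ≤ Fintype.card V ∧ ∀ u ∉ Bad, ∀ Y : Finset V, #Y ≤ NY → u ∉ Y →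
        d ^ (∑ c, j c) ≤ 2 * #{x ∈ WK G j | Good G L R j x ∧ x.1 = u ∧
          ∀ c m, m ≤ j c → x.2 c m ∉ Y} := by
  obtain ⟨M, hM⟩ := card_not_good j hj L hL hL2 K
  refine ⟨8 * (M + 1) * E, fun NY => ?_⟩
  refine ⟨4 * (((∑ c, (j c + 1)) ^ 2 + (∑ c, j c) * NY) * K ^ (∑ c, j c - 1)) + 1, ?_⟩
  intro V _ G d R hdeg hd0 hRare
  have hd1 : 1 ≤ d := by omega
  have hdS : 0 < d ^ (∑ c, j c) := pow_pos (by omega) _
  refine ⟨univ.filter fun u : V => d ^ (∑ c, j c) <
        8 * #{x ∈ WK G j | x.1 = u ∧ Sp G j x ∧ ¬ Good G L R j x}, ?_, ?_⟩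
  · -- few bad centres
    have h1 := many_good_bad G j L d R
    set B := #(univ.filter fun u : V => d ^ (∑ c, j c) <
        8 * #{x ∈ WK G j | x.1 = u ∧ Sp G j x ∧ ¬ Good G L R j x}) with hB
    have h2 := hM G d (8 * (M + 1) * E) R (fun w => (hdeg w).2) hd1 hRare
    have h3 : (8 * (M + 1) * E) * (B * d ^ (∑ c, j c)) ≤
        8 * (M * (Fintype.card V * d ^ (∑ c, j c))) := by
      calc (8 * (M + 1) * E) * (B * d ^ (∑ c, j c))
          ≤ (8 * (M + 1) * E) * (8 * #{x ∈ WK G j | Sp G j x ∧ ¬ Good G L R j x}) :=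
            Nat.mul_le_mul_left _ h1
        _ = 8 * ((8 * (M + 1) * E) * #{x ∈ WK G j | Sp G j x ∧ ¬ Good G L R j x}) := by ring
        _ ≤ 8 * (M * (Fintype.card V * d ^ (∑ c, j c))) := Nat.mul_le_mul_left _ h2
    have h4 : (8 * (M + 1) * d ^ (∑ c, j c)) * (E * B) ≤
        (8 * (M + 1) * d ^ (∑ c, j c)) * Fintype.card V := by
      calc (8 * (M + 1) * d ^ (∑ c, j c)) * (E * B)
          = (8 * (M + 1) * E) * (B * d ^ (∑ c, j c)) := by ring
        _ ≤ 8 * (M * (Fintype.card V * d ^ (∑ c, j c))) := h3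
        _ ≤ 8 * ((M + 1) * (Fintype.card V * d ^ (∑ c, j c))) :=
            Nat.mul_le_mul_left _ (Nat.mul_le_mul_right _ (Nat.le_succ M))
        _ = (8 * (M + 1) * d ^ (∑ c, j c)) * Fintype.card V := by ring
    exact Nat.le_of_mul_le_mul_left h4 (by positivity)
  · intro u hu Y hY huY
    rw [mem_filter] at hu
    have hb : 8 * #{x ∈ WK G j | x.1 = u ∧ Sp G j x ∧ ¬ Good G L R j x} ≤ d ^ (∑ c, j c) := by
      by_contra hcon
      exact hu ⟨mem_univ _, not_le.mp hcon⟩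
    have hall := card_wk_ge G d (fun w => (hdeg w).1) j u
    have hns := card_wk_not_sp G (K * d) (fun w => (hdeg w).2) j {u}
    have hht := card_wk_hit G (K * d) (fun w => (hdeg w).2) j {u} Y
    rw [card_singleton, one_mul] at hns hht
    have hsub : ({x ∈ WK G j | x.1 = u} : Finset (Obj ι V)) ⊆
        (({x ∈ WK G j | Good G L R j x ∧ x.1 = u ∧ ∀ c m, m ≤ j c → x.2 c m ∉ Y} : Finset (Obj ι V)) ∪
        ({x ∈ WK G j | x.1 = u ∧ Sp G j x ∧ ¬ Good G L R j x} : Finset (Obj ι V))) ∪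
        (({x ∈ WK G j | x.1 ∈ ({u} : Finset V) ∧ ¬ Sp G j x} : Finset (Obj ι V)) ∪
        ({x ∈ WK G j | x.1 ∈ ({u} : Finset V) ∧ ∃ c m, 1 ≤ m ∧ m ≤ j c ∧ x.2 c m ∈ Y} :
          Finset (Obj ι V))) := by
      intro x hx
      rw [mem_filter] at hx
      rw [mem_union, mem_union, mem_union, mem_filter, mem_filter, mem_filter, mem_filter,
        mem_singleton]
      by_cases hsp : Sp G j x
      · by_cases hg : Good G L R j x
        · by_cases hy : ∃ c m, 1 ≤ m ∧ m ≤ j c ∧ x.2 c m ∈ Y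
          · exact Or.inr (Or.inr ⟨hx.1, hx.2, hy⟩)
          · refine Or.inl (Or.inl ⟨hx.1, hg, hx.2, ?_⟩)
            intro c m hm hmem
            rcases Nat.eq_zero_or_pos m with h0 | h0
            · rw [h0, hsp.start c, hx.2] at hmem
              exact huY hmem
            · exact hy ⟨c, m, h0, hm, hmem⟩
        · exact Or.inl (Or.inr ⟨hx.1, hx.2, hsp, hg⟩)
      · exact Or.inr (Or.inl ⟨hx.1, hx.2, hsp⟩)
    have hcard := (card_le_card hsub).trans ((card_union_le _ _).trans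
      (Nat.add_le_add (card_union_le _ _) (card_union_le _ _)))
    -- the terms of lower order
    have hlow : 4 * (((∑ c, (j c + 1)) ^ 2 * (K * d) ^ (∑ c, j c - 1)) +
        (∑ c, j c) * (#Y * (K * d) ^ (∑ c, j c - 1))) ≤ d ^ (∑ c, j c) := by
      rcases Nat.eq_zero_or_pos (∑ c, j c) with h0 | h0
      · have hemp : IsEmpty ι := by
          by_contra hne
          rw [not_isEmpty_iff] at hne
          obtain ⟨c⟩ := hne
          have h5 : j c = 0 := by
            have := (Finset.sum_eq_zero_iff.mp h0) c (mem_univ c)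
            exact this
          have := hj c
          omega
        have h6 : ∑ c, (j c + 1) = 0 := by
          rw [univ_eq_empty, sum_empty]
        rw [h6, h0]
        simp
      · obtain ⟨s, hs⟩ : ∃ s, ∑ c, j c = s + 1 := ⟨∑ c, j c - 1, by omega⟩
        rw [hs] at hd0 ⊢
        rw [Nat.add_sub_cancel] at hd0 ⊢
        calc 4 * (((∑ c, (j c + 1)) ^ 2 * (K * d) ^ s) + (s + 1) * (#Y * (K * d) ^ s))
            ≤ 4 * (((∑ c, (j c + 1)) ^ 2 * (K * d) ^ s) + (s + 1) * (NY * (K * d) ^ s)) := by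
              refine Nat.mul_le_mul_left _ (Nat.add_le_add_left (Nat.mul_le_mul_left _
                (Nat.mul_le_mul_right _ hY)) _)
          _ = (4 * (((∑ c, (j c + 1)) ^ 2 + (s + 1) * NY) * K ^ s)) * d ^ s := by
              rw [mul_pow]
              ring
          _ ≤ d * d ^ s := Nat.mul_le_mul_right _ (by omega)
          _ = d ^ (s + 1) := by ring
    have h8 := hall.trans (hcard.trans (Nat.add_le_add_left (Nat.add_le_add hns hht) _))
    omega

end manyGood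

end Pool.Agent.Helper14.SP
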