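import Pool.Agent.Helper14.SP2.F.G3

/-!
# Project SP2: Theorem L (restricted centres)
-/

set_option autoImplicit false

namespace Pool.Agent.Helper14.SP

open Finset Classical
open Pool.Agent.Helper97.RE (IsPath Rich PP Clean Cb)

/-- pairs with trivial second component -/
private noncomputable def upl {ι V : Type} (Ω : Finset (Obj ι V)) : Finset (Obj ι V × Unit) :=
  Ω.image fun x => (x, ())

private theorem mem_upl {ι V : Type} {Ω : Finset (Obj ι V)} {ω : Obj ι V × Unit} :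
    ω ∈ upl Ω ↔ ω.1 ∈ Ω := by
  unfold upl
  rw [mem_image]
  constructor
  · rintro ⟨x, hx, rfl⟩
    exact hx
  · intro h
    exact ⟨ω.1, h, rfl⟩

private theorem card_upl {ι V : Type} (Ω : Finset (Obj ι V)) : #(upl Ω) = #Ω := by
  unfold upl
  refine card_image_of_injective _ ?_
  intro x y h
  exact (Prod.mk.inj h).1

/-- few good copies have their centre in a small set determined by the roots -/
private theorem thmL_case2 {ι V : Type} [Fintype ι] [Fintype V] (G : SimpleGraph V) (L : ℕ)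
    (R : ℕ → ℕ) (j : ι → ℕ) (hL : ∀ c, j c ≤ L) (Ω : Finset (Obj ι V))
    (hΩ : ∀ x ∈ Ω, Good G L R j x) (N : ℕ) (T : (ι → V) × Unit → Finset V)
    (hT : ∀ ρ, #(T ρ) ≤ N) :
    #{ω ∈ upl Ω | ω.1.1 ∈ T (ends j ω.1, ω.2)} ≤
      Fintype.card V ^ (Fintype.card ι) * (N * ∏ c, Cb R (j c)) := by
  have h1 : #{ω ∈ upl Ω | ω.1.1 ∈ T (ends j ω.1, ω.2)} ≤
      #((univ : Finset (ι → V)).biUnion fun X => (T (X, ())).biUnion fun u =>
        (Ω.filter fun x => x.1 = u ∧ ends j x = X).image fun x => (x, ())) := by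
    refine card_le_card ?_
    intro ω hω
    rw [mem_filter, mem_upl] at hω
    rw [mem_biUnion]
    refine ⟨ends j ω.1, mem_univ _, ?_⟩
    rw [mem_biUnion]
    refine ⟨ω.1.1, hω.2, ?_⟩
    rw [mem_image]
    exact ⟨ω.1, mem_filter.2 ⟨hω.1, rfl, rfl⟩, rfl⟩
  refine h1.trans (card_biUnion_le.trans ?_)
  have h2 : ∀ X ∈ (univ : Finset (ι → V)), #((T (X, ())).biUnion fun u =>
        (Ω.filter fun x => x.1 = u ∧ ends j x = X).image fun x => (x, ())) ≤
          N * ∏ c, Cb R (j c) := by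
    intro X _
    refine card_biUnion_le.trans ?_
    refine (sum_le_card_nsmul _ _ (∏ c, Cb R (j c)) ?_).trans ?_
    · intro u _
      exact card_image_le.trans (card_good_le G L R j hL Ω hΩ u X)
    · rw [smul_eq_mul]
      exact Nat.mul_le_mul_right _ (hT _)
  refine (sum_le_card_nsmul _ _ _ h2).trans ?_
  rw [smul_eq_mul, card_univ, Fintype.card_fun]

/-- Theorem L: a positive proportion of the copies with centre in `C` is good, and
`n ^ |ι|` is small against `|C| d ^ |j|`; then some tuple of roots is flexible, with centres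
in `C`. -/
theorem thmL {ι : Type} [Fintype ι] [Nonempty ι] (j : ι → ℕ) (hj : ∀ c, 1 ≤ j c) (L : ℕ) (hL : ∀ c, j c ≤ L)
    (K E N0 : ℕ) (R : ℕ → ℕ) : ∃ A : ℕ, ∀ {V : Type} [Fintype V] [Nonempty V]
      (G : SimpleGraph V) (d : ℕ), (∀ w, G.degree w ≤ K * d) → A ≤ d →
      ∀ (C Y : Finset V) (Ω : Finset (Obj ι V)) (Ψ : V → Finset V → Prop),
      (∀ x ∈ Ω, Good G L R j x ∧ x.1 ∈ C ∧ x.1 ∉ Y ∧ ∀ c m, m ≤ j c → x.2 c m ∉ Y) →
      #C * d ^ (∑ c, j c) ≤ E * #Ω →
      A * Fintype.card V ^ (Fintype.card ι) ≤ #C * d ^ (∑ c, j c) →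
      (∀ u Z Z', Z ⊆ Z' → Ψ u Z' → Ψ u Z) →
      (∀ u ∈ C, ∀ Z : Finset V, #Z ≤ N0 + 3 * (∑ c, (j c + 1) + 1) → Ψ u Z) →
      ∃ X : ι → V, (∀ c, X c ∉ Y) ∧ ∀ Z : Finset V, #Z ≤ N0 → (∀ c, X c ∉ Z) →
        ∃ x : Obj ι V, Sp G j x ∧ (∀ c, x.2 c (j c) = X c) ∧ x.1 ∉ Z ∧ x.1 ∉ Y ∧
          (∀ c m, 1 ≤ m → m < j c → x.2 c m ∉ Z ∧ x.2 c m ∉ Y) ∧ Ψ x.1 (Z ∪ vs j x) := by
  obtain ⟨Nm, hacl⟩ := acl j hj (R 2) (fun _ => 4 * nmin j N0 + 1)
  refine ⟨E * (Nm * (Nm * ∏ c, Cb R (j c))) + 1 +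
    (4 * (Nm * E) * (Fintype.card ι * nmin j N0 * K ^ (∑ c, j c - 1)) + 1), ?_⟩
  intro V _ _ G d hdeg hAd C Y Ω Ψ hΩ hE hA hΨ hΨC
  set S : ℕ := ∑ c, j c with hS
  set P : ℕ := ∏ c, Cb R (j c) with hP
  set n : ℕ := Fintype.card V ^ (Fintype.card ι) with hn
  have hn0 : 0 < n := Nat.pow_pos Fintype.card_pos
  have hd0 : 0 < d := by omega
  have hS1 : 1 ≤ S := by
    obtain ⟨c⟩ := (inferInstance : Nonempty ι)
    exact (hj c).trans (single_le_sum (f := j) (fun _ _ => Nat.zero_le _) (mem_univ c))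
  have hpos : 0 < #C * d ^ S := by
    refine lt_of_lt_of_le ?_ hA
    exact Nat.mul_pos (by omega) hn0
  have hΩpos : 0 < E * #Ω := hpos.trans_le hE
  have hΩ0 : 0 < #Ω := by
    rcases Nat.eq_zero_or_pos (#Ω) with h0 | h0
    · rw [h0, mul_zero] at hΩpos
      exact absurd hΩpos (lt_irrefl _)
    · exact h0
  have hC0 : 0 < #C := by
    rcases Nat.eq_zero_or_pos (#C) with h0 | h0
    · rw [h0, zero_mul] at hpos
      exact absurd hpos (lt_irrefl _)
    · exact h0
  have hgood : ∀ x ∈ Ω, Good G L R j x := fun x hx => (hΩ x hx).1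
  have hne : (upl Ω).Nonempty := by
    rw [← card_pos, card_upl]
    exact hΩ0
  have hctr : ∀ c c', c ≠ c' → ∀ w w', #(((upl Ω).filter fun ω => ω.1.2 c 1 = w ∧
      ω.1.2 c' 1 = w').image fun ω => ω.1.1) ≤ R 2 := by
    intro c c' hc w w'
    refine le_trans (card_le_card ?_) (card_centre_le G L R j hj Ω hgood c c' hc w w')
    intro v hv
    rw [mem_image] at hv ⊢
    obtain ⟨ω, hω, rfl⟩ := hv
    rw [mem_filter, mem_upl] at hω
    exact ⟨ω.1, mem_filter.2 ⟨hω.1, hω.2⟩, rfl⟩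
  obtain ⟨N, hN1, hNm, hcase⟩ := hacl (upl Ω) hne hctr
  rcases hcase with ⟨T, hT, hcard⟩ | ⟨m, Ω1, Ω2, hm, hm1, hsub1, hsub2, hc1, hc2, -, hit⟩
  · -- case (ii)
    exfalso
    have h1 := thmL_case2 G L R j hL Ω hgood N T hT
    rw [card_upl] at hcard
    have h2 : #Ω ≤ N * (n * (N * P)) := hcard.trans (Nat.mul_le_mul_left _ h1)
    have h3 : N * (n * (N * P)) ≤ Nm * (n * (Nm * P)) :=
      Nat.mul_le_mul hNm (Nat.mul_le_mul_left _ (Nat.mul_le_mul_right _ hNm))
    have h4 : #C * d ^ S ≤ E * (Nm * (Nm * P)) * n := by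
      calc #C * d ^ S ≤ E * #Ω := hE
        _ ≤ E * (Nm * (n * (Nm * P))) := Nat.mul_le_mul_left _ (h2.trans h3)
        _ = E * (Nm * (Nm * P)) * n := by ring
    have h5 : (E * (Nm * (Nm * P)) + 1) * n ≤ #C * d ^ S := by
      refine le_trans ?_ hA
      refine Nat.mul_le_mul_right _ ?_
      omega
    have h6 : E * (Nm * (Nm * P)) * n < (E * (Nm * (Nm * P)) + 1) * n := by
      rw [add_mul, one_mul]
      omega
    omega
  · -- case (i)
    have hmem : ∀ ω ∈ Ω2, ω.1 ∈ Ω := fun ω hω => mem_upl.1 (hsub1 (hsub2 hω))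
    set H : ℕ := (K * d) ^ (∑ c, (j c - m c)) with hH
    have hΩ2 : #Ω ≤ 2 * N * #Ω2 := by
      have h1 : #Ω ≤ N * #Ω1 := by
        rw [← card_upl Ω]
        exact hc1
      calc #Ω ≤ N * #Ω1 := h1
        _ ≤ N * (2 * #Ω2) := Nat.mul_le_mul_left _ hc2
        _ = 2 * N * #Ω2 := by ring
    have hΩ2pos : 0 < #Ω2 := by
      rcases Nat.eq_zero_or_pos (#Ω2) with h0 | h0
      · rw [h0, mul_zero] at hΩ2
        omega
      · exact h0
    have hcov : ∀ T : (ι → V) × Unit → Finset V, (∀ ρ, #(T ρ) ≤ nmin j N0) →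
        2 * #{ω ∈ Ω2 | ¬ Disjoint (inn m ω.1) (T (ends m ω.1, ω.2))} ≤ #Ω2 := by
      intro T hT
      exact cov_of_hit m (nmin j N0) 1 (4 * nmin j N0 + 1) Ω1 Ω2 Ω2 hc2 (Subset.refl _)
        (by rw [one_mul]) (by omega) (by omega) hit T hT
    have hfib : ∀ y, #{ω ∈ Ω2 | (tr m ω.1, ω.2) = y} ≤ H := by
      intro y
      refine le_trans ?_ (card_wk_fiber G (K * d) hdeg m j (fun c => (hm c).2) y.1)
      refine card_le_card_of_injOn (fun ω => ω.1) ?_ ?_
      · intro ω hω
        rw [mem_coe, mem_filter] at hω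
        rw [mem_coe, mem_filter, mem_WK]
        refine ⟨(hgood ω.1 (hmem ω hω.1)).wk, ?_⟩
        rw [← hω.2]
      · intro ω _ ω' _ h
        exact Prod.ext h rfl
    have hsum : ∀ l, ∑ c, dn m l c = ∑ c, m c - 1 := by
      intro l
      unfold dn
      rw [← add_sum_erase univ (Function.update m l (m l - 1)) (mem_univ l),
        ← add_sum_erase univ m (mem_univ l), Function.update_self]
      have h1 : ∑ x ∈ univ.erase l, Function.update m l (m l - 1) x = ∑ x ∈ univ.erase l, m x := by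
        refine sum_congr rfl fun x hx => ?_
        rw [Function.update_of_ne (ne_of_mem_erase hx)]
      rw [h1]
      have := (hm l).1
      omega
    have hdn : ∀ l c, dn m l c ≤ m c := by
      intro l c
      unfold dn
      by_cases hcl : c = l
      · subst hcl
        rw [Function.update_self]
        omega
      · rw [Function.update_of_ne hcl]
    have himg : ∀ l, #(Ω2.image fun ω => (tr (dn m l) ω.1, ω.2)) ≤
        #C * (K * d) ^ (∑ c, m c - 1) := by
      intro l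
      refine le_trans ?_ ((card_wk_le G (K * d) hdeg (dn m l) C).trans (le_of_eq ?_))
      · refine card_le_card_of_injOn (fun ω => ω.1) ?_ ?_
        · intro ω hω
          rw [mem_coe, mem_image] at hω
          obtain ⟨ω', hω', rfl⟩ := hω
          rw [mem_coe, mem_filter, mem_WK]
          have hx := hΩ ω'.1 (hmem ω' hω')
          have hle : ∀ c, dn m l c ≤ j c := fun c => (hdn l c).trans (hm c).2
          have hsp : Sp G (dn m l) (tr (dn m l) ω'.1) := (hx.1.sp.mono hle).tr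
          exact ⟨⟨tr_idem _ _, hsp.start, hsp.adj⟩, hx.2.1⟩
        · intro ω _ ω' _ h
          exact Prod.ext h rfl
      · rw [hsum]
    have hm0 : 1 ≤ ∑ c, m c := by
      obtain ⟨c⟩ := (inferInstance : Nonempty ι)
      exact (hm c).1.trans (single_le_sum (f := m) (fun _ _ => Nat.zero_le _) (mem_univ c))
    have hmS : ∑ c, (j c - m c) + ∑ c, m c = S := by
      rw [← sum_add_distrib]
      refine sum_congr rfl fun c _ => ?_
      have := (hm c).2
      omega
    have hst : ∀ l, m l < j l → 2 * (Fintype.card ι * (nmin j N0 * H *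
        #(Ω2.image fun ω => (tr (dn m l) ω.1, ω.2)))) < #Ω2 := by
      intro l _
      have e1 : (K * d) ^ (∑ c, (j c - m c)) * (K * d) ^ (∑ c, m c - 1) =
          K ^ (S - 1) * d ^ (S - 1) := by
        rw [← pow_add, ← mul_pow]
        congr 1
        omega
      have e2 : 2 * (Fintype.card ι * (nmin j N0 * H *
          #(Ω2.image fun ω => (tr (dn m l) ω.1, ω.2)))) ≤
          2 * (Fintype.card ι * nmin j N0 * K ^ (S - 1)) * (#C * d ^ (S - 1)) := by
        calc 2 * (Fintype.card ι * (nmin j N0 * H *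
              #(Ω2.image fun ω => (tr (dn m l) ω.1, ω.2))))
            ≤ 2 * (Fintype.card ι * (nmin j N0 * H * (#C * (K * d) ^ (∑ c, m c - 1)))) :=
              Nat.mul_le_mul_left _ (Nat.mul_le_mul_left _ (Nat.mul_le_mul_left _ (himg l)))
          _ = 2 * (Fintype.card ι * nmin j N0) * #C *
              ((K * d) ^ (∑ c, (j c - m c)) * (K * d) ^ (∑ c, m c - 1)) := by
              rw [hH]
              ring
          _ = 2 * (Fintype.card ι * nmin j N0 * K ^ (S - 1)) * (#C * d ^ (S - 1)) := by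
              rw [e1]
              ring
      refine lt_of_le_of_lt e2 ?_
      -- multiply by `2 N E`
      have e3 : #C * (d * d ^ (S - 1)) ≤ (2 * N * E) * #Ω2 := by
        have e4 : d * d ^ (S - 1) = d ^ S := by
          rw [← pow_succ']
          congr 1
          omega
        rw [e4]
        calc #C * d ^ S ≤ E * #Ω := hE
          _ ≤ E * (2 * N * #Ω2) := Nat.mul_le_mul_left _ hΩ2
          _ = (2 * N * E) * #Ω2 := by ring
      have e5 : (2 * N * E) * (2 * (Fintype.card ι * nmin j N0 * K ^ (S - 1)) *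
          (#C * d ^ (S - 1))) < #C * (d * d ^ (S - 1)) := by
        have hX : 0 < #C * d ^ (S - 1) := Nat.mul_pos hC0 (Nat.pow_pos hd0)
        have hlt : 4 * (Nm * E) * (Fintype.card ι * nmin j N0 * K ^ (S - 1)) < d := by
          omega
        calc (2 * N * E) * (2 * (Fintype.card ι * nmin j N0 * K ^ (S - 1)) *
              (#C * d ^ (S - 1)))
            = 4 * (N * E) * (Fintype.card ι * nmin j N0 * K ^ (S - 1)) *
              (#C * d ^ (S - 1)) := by ring
          _ ≤ 4 * (Nm * E) * (Fintype.card ι * nmin j N0 * K ^ (S - 1)) *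
              (#C * d ^ (S - 1)) := by
              refine Nat.mul_le_mul_right _ (Nat.mul_le_mul_right _ ?_)
              exact Nat.mul_le_mul_left _ (Nat.mul_le_mul_right _ hNm)
          _ < d * (#C * d ^ (S - 1)) := Nat.mul_lt_mul_of_pos_right hlt hX
          _ = #C * (d * d ^ (S - 1)) := by ring
      exact lt_of_mul_lt_mul_left (e5.trans_le e3) (Nat.zero_le _)
    obtain ⟨F, hFsub, hFne, hFa, hFb⟩ := ff m j (fun c => (hm c).1) (nmin j N0) H Ω2
      (fun ω B => ¬ Disjoint (inn m ω.1) B) (fun T hT => (Nat.mul_le_mul_left _ (le_of_eq card_filter_inst)).trans (hcov T hT))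
      (fun y => (le_of_eq card_filter_inst).trans (hfib y))
      (fun l hl => lt_of_le_of_lt (Nat.mul_le_mul_left _ (Nat.mul_le_mul_left _
        (Nat.mul_le_mul_left _ (le_of_eq card_image_inst)))) (hst l hl)) (card_pos.1 hΩ2pos)
    have hFmem : ∀ ω ∈ F, ω.1 ∈ Ω := fun ω hω => hmem ω (hFsub hω)
    refine lemZ G m j hm hm1 (nmin j N0) N0 le_rfl Y Ψ hΨ {x | (x, ()) ∈ F} ?_ ?_ ?_ ?_
    · obtain ⟨ω, hω⟩ := hFne
      exact ⟨ω.1, hω⟩
    · intro x hx
      have hx' := hΩ x (hFmem _ hx)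
      exact ⟨hx'.1.sp.mono fun c => (hm c).2, hx'.2.2.1,
        fun c a ha => hx'.2.2.2 c a (ha.trans (hm c).2)⟩
    · intro x hx B hB
      obtain ⟨ω', hω', -, h2, h3⟩ := hFa (x, ()) hx B hB
      refine ⟨ω'.1, hω', fun c => congrFun h2 c, not_not.1 h3, ?_⟩
      have hy := hΩ ω'.1 (hFmem _ hω')
      refine hΨC _ hy.2.1 _ ?_
      refine (card_union_le _ _).trans ?_
      have h4 := card_vs_le m ω'.1
      have h5 : ∑ c, (m c + 1) ≤ ∑ c, (j c + 1) :=
        sum_le_sum fun c _ => Nat.add_le_add_right (hm c).2 1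
      unfold nmin at hB
      omega
    · intro x hx l hl B hB
      obtain ⟨ω', hω', -, h2, h3⟩ := hFb (x, ()) hx l hl B hB
      rw [tr_eq_iff] at h2
      refine ⟨ω'.1, hω', h2.1, ?_, h3⟩
      intro c a ha hcl
      refine h2.2 c a ?_
      unfold dn
      by_cases hc : c = l
      · subst hc
        rw [Function.update_self]
        have := hcl rfl
        omega
      · rw [Function.update_of_ne hc]
        exact ha

end Pool.Agent.Helper14.SP
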