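import Pool.Agent.Helper14.SP2.F.G3

/-!
# Project SP2, piece D6: truncated copies
-/

set_option autoImplicit false

namespace Pool.Agent.Helper14.SP

open Finset Classical
open Pool.Agent.Helper97.RE (IsPath Rich PP Clean Cb)

theorem trunc {ι : Type} [Fintype ι] [Nonempty ι] (i j : ι → ℕ) (k K N : ℕ) (R : ℕ → ℕ)
    (hi : ∀ c, 1 ≤ i c ∧ i c ≤ j c) (hj : ∀ c, j c < k) : ∃ C5 C6 : ℕ, ∀ E2 : ℕ, ∃ EN : ℕ,
    ∀ {V : Type} [Fintype V] [Nonempty V] (G : SimpleGraph V) (d : ℕ),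
      (∀ w, G.degree w ≤ K * d) → 1 ≤ d → ∀ Ω1 Ω2 : Finset (Obj ι V),
      (∀ x ∈ Ω1, Good G (k - 1) R j x) → Ω2 ⊆ Ω1 →
      Fintype.card V * d ^ (∑ c, j c) ≤ N * #Ω2 →
      ∀ T : (ι → V) → Finset (ι → V), (∀ X, #(T X) ≤ N) →
      (∀ x ∈ Ω1, ends i x ∈ T (ends j x)) →
      (∀ (W : ι → V) (β : V), EN * #{x ∈ Ω2 | ends i x = W ∧ β ∈ inn i x} ≤
        #{x ∈ Ω1 | ends i x = W}) →
      ∃ T1 ⊆ Ω2.image (tr i),
        (∀ (W : ι → V) (β : V), E2 * #{x ∈ T1 | ends i x = W ∧ β ∈ inn i x} ≤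
          #{x ∈ T1 | ends i x = W}) ∧
        (∀ x ∈ T1, d ^ (∑ c, j c) ≤ C5 * (Fintype.card V ^ (Fintype.card ι - 1) *
          #{x' ∈ T1 | ends i x' = ends i x})) ∧
        Fintype.card V * d ^ (∑ c, i c) ≤ C6 * #T1 := by
  obtain ⟨s, hs⟩ : ∃ s, s = ∑ c, i c := ⟨_, rfl⟩
  obtain ⟨S, hS⟩ : ∃ S, S = ∑ c, j c := ⟨_, rfl⟩
  obtain ⟨ρ, hρ⟩ : ∃ ρ, ρ = ∑ c, (j c - i c) := ⟨_, rfl⟩
  obtain ⟨q, hq⟩ : ∃ q, q = Fintype.card ι - 1 := ⟨_, rfl⟩
  have hq' : Fintype.card ι = q + 1 := by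
    have : 0 < Fintype.card ι := Fintype.card_pos
    omega
  have hSρ : S = s + ρ := by
    rw [hs, hS, hρ, ← sum_add_distrib]
    exact sum_congr rfl fun c _ => by have := (hi c).2; omega
  obtain ⟨Pc, hPc⟩ : ∃ Pc, Pc = ∏ c, Cb R (j c - i c) := ⟨_, rfl⟩
  have hPc1 : 1 ≤ Pc := by
    rw [hPc]
    exact Finset.one_le_prod' fun c _ => Pool.Agent.Helper97.RE.Cb_pos R _
  obtain ⟨K1, hK1⟩ : ∃ K1, K1 = K + 1 := ⟨_, rfl⟩
  obtain ⟨N1, hN1⟩ : ∃ N1, N1 = N + 1 := ⟨_, rfl⟩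
  have hK1p : 1 ≤ K1 := by omega
  have hN1p : 1 ≤ N1 := by omega
  obtain ⟨Ks, hKs⟩ : ∃ Ks, Ks = K1 ^ s := ⟨_, rfl⟩
  obtain ⟨Kρ, hKρ⟩ : ∃ Kρ, Kρ = K1 ^ ρ := ⟨_, rfl⟩
  obtain ⟨KS, hKS⟩ : ∃ KS, KS = K1 ^ S := ⟨_, rfl⟩
  have hKsp : 0 < Ks := by rw [hKs]; positivity
  have hKρp : 0 < Kρ := by rw [hKρ]; positivity
  have hKSp : 0 < KS := by rw [hKS]; positivity
  obtain ⟨C1, hC1⟩ : ∃ C1, C1 = 2 * (Ks * N1) := ⟨_, rfl⟩
  obtain ⟨C4, hC4⟩ : ∃ C4, C4 = 8 * (KS * N1 * Kρ) := ⟨_, rfl⟩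
  obtain ⟨C5, hC5⟩ : ∃ C5, C5 = 8 * (C1 * Pc * N1 * N1 * Kρ) := ⟨_, rfl⟩
  obtain ⟨C6, hC6⟩ : ∃ C6, C6 = 4 * (N1 * Kρ) := ⟨_, rfl⟩
  have hC1p : 0 < C1 := by rw [hC1]; positivity
  have hC4p : 0 < C4 := by rw [hC4]; positivity
  rw [← hs, ← hS]
  refine ⟨C5, C6, fun E2 => ⟨E2 * (C1 * C4), ?_⟩⟩
  intro V _ _ G d hdeg hd Ω1 Ω2 hgood hsub hΩ2 T hT hTm hhit
  obtain ⟨n, hn⟩ : ∃ n, n = Fintype.card V := ⟨_, rfl⟩
  have hn1 : 0 < n := by rw [hn]; exact Fintype.card_pos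
  rw [← hn] at hΩ2
  rw [← hn, ← hq]
  have hdρ : 0 < d ^ ρ := by positivity
  have hnq : 0 < n ^ q := by positivity
  have hdeg' : ∀ w, G.degree w ≤ K1 * d := fun w =>
    (hdeg w).trans (Nat.mul_le_mul_right _ (by omega))
  have hL : ∀ c, j c ≤ k - 1 := fun c => by have := hj c; omega
  have hΩ2' : n * d ^ S ≤ N1 * #Ω2 := hΩ2.trans (Nat.mul_le_mul_right _ (by omega))
  have hdS : d ^ S = d ^ s * d ^ ρ := by rw [hSρ, pow_add]
  -- fibres of the truncation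
  obtain ⟨ext, hext⟩ : ∃ ext : Obj ι V → Finset (Obj ι V), ext = fun y => {x ∈ Ω2 | tr i x = y} :=
    ⟨_, rfl⟩
  have hext_mem : ∀ x y, x ∈ ext y ↔ x ∈ Ω2 ∧ tr i x = y := by
    intro x y
    rw [hext]
    simp only [mem_filter]
  have hext_le : ∀ y, #(ext y) ≤ Kρ * d ^ ρ := by
    intro y
    rw [hKρ, ← mul_pow, hρ]
    refine le_trans (card_le_card ?_) (card_wk_fiber G (K1 * d) hdeg' i j (fun c => (hi c).2) y)
    intro x hx
    rw [hext_mem] at hx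
    rw [mem_filter]
    exact ⟨mem_WK.2 (hgood x (hsub hx.1)).wk, hx.2⟩
  obtain ⟨Im, hIm⟩ : ∃ Im, Im = Ω2.image (tr i) := ⟨_, rfl⟩
  rw [← hIm]
  have hIm_le : #Im ≤ n * (Ks * d ^ s) := by
    rw [hKs, ← mul_pow, hs, hn, ← Finset.card_univ]
    refine le_trans (card_le_card (t := {x ∈ WK G i | x.1 ∈ (univ : Finset V)}) ?_)
      (card_wk_le G (K1 * d) hdeg' i univ)
    intro y hy
    rw [hIm] at hy
    obtain ⟨x, hx, rfl⟩ := mem_image.1 hy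
    rw [mem_filter, mem_WK]
    exact ⟨((hgood x (hsub hx)).tr (fun c => (hi c).1) (fun c => (hi c).2)).wk, mem_univ _⟩
  have hΩ1_le : #Ω1 ≤ n * (KS * d ^ S) := by
    rw [hKS, ← mul_pow, hS, hn, ← Finset.card_univ]
    refine le_trans (card_le_card (t := {x ∈ WK G j | x.1 ∈ (univ : Finset V)}) ?_)
      (card_wk_le G (K1 * d) hdeg' j univ)
    intro y hy
    rw [mem_filter, mem_WK]
    exact ⟨(hgood y hy).wk, mem_univ _⟩
  have hsum : #Ω2 = ∑ y ∈ Im, #(ext y) := by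
    rw [hIm, hext]
    exact card_eq_sum_card_image (tr i) Ω2
  -- popular truncations
  obtain ⟨T0, hT0⟩ : ∃ T0, T0 = {y ∈ Im | d ^ ρ ≤ C1 * #(ext y)} := ⟨_, rfl⟩
  have hT0_mem : ∀ y, y ∈ T0 ↔ y ∈ Im ∧ d ^ ρ ≤ C1 * #(ext y) := by
    intro y
    rw [hT0, mem_filter]
  have hT0c : n * d ^ s ≤ 2 * (N1 * Kρ * #T0) := by
    have h1 : ∑ y ∈ T0, #(ext y) + ∑ y ∈ Im.filter (fun y => ¬ d ^ ρ ≤ C1 * #(ext y)), #(ext y) =
        #Ω2 := by
      rw [hsum, hT0]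
      exact sum_filter_add_sum_filter_not _ _ _
    have h2 : ∑ y ∈ T0, #(ext y) ≤ #T0 * (Kρ * d ^ ρ) := by
      refine (sum_le_card_nsmul T0 _ (Kρ * d ^ ρ) fun y _ => hext_le y).trans ?_
      rw [smul_eq_mul]
    have h3 : C1 * ∑ y ∈ Im.filter (fun y => ¬ d ^ ρ ≤ C1 * #(ext y)), #(ext y) ≤
        #Im * d ^ ρ := by
      rw [mul_sum]
      refine (sum_le_card_nsmul _ _ (d ^ ρ) fun y hy => ?_).trans ?_
      · rw [mem_filter] at hy
        exact (not_le.1 hy.2).le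
      · rw [smul_eq_mul]
        exact Nat.mul_le_mul_right _ (card_filter_le _ _)
    generalize ∑ y ∈ Im.filter (fun y => ¬ d ^ ρ ≤ C1 * #(ext y)), #(ext y) = b at h1 h3
    generalize ∑ y ∈ T0, #(ext y) = a at h1 h2
    have h4 : #Im * d ^ ρ ≤ Ks * (N1 * #Ω2) := by
      calc #Im * d ^ ρ ≤ n * (Ks * d ^ s) * d ^ ρ := Nat.mul_le_mul_right _ hIm_le
        _ = Ks * (n * d ^ S) := by rw [hdS]; ring
        _ ≤ Ks * (N1 * #Ω2) := Nat.mul_le_mul_left _ hΩ2'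
    have h5 : 2 * b ≤ #Ω2 := by
      refine Nat.le_of_mul_le_mul_left (c := Ks * N1) ?_ (by positivity)
      calc Ks * N1 * (2 * b) = C1 * b := by rw [hC1]; ring
        _ ≤ #Im * d ^ ρ := h3
        _ ≤ Ks * (N1 * #Ω2) := h4
        _ = Ks * N1 * #Ω2 := by ring
    have h6 : #Ω2 ≤ 2 * (#T0 * (Kρ * d ^ ρ)) := by omega
    refine Nat.le_of_mul_le_mul_left (c := d ^ ρ) ?_ hdρ
    calc d ^ ρ * (n * d ^ s) = n * d ^ S := by rw [hdS]; ring
      _ ≤ N1 * #Ω2 := hΩ2'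
      _ ≤ N1 * (2 * (#T0 * (Kρ * d ^ ρ))) := Nat.mul_le_mul_left _ h6
      _ = d ^ ρ * (2 * (N1 * Kρ * #T0)) := by ring
  -- members over `W`
  obtain ⟨T0W, hT0W⟩ : ∃ T0W : (ι → V) → Finset (Obj ι V),
      T0W = fun W => {y ∈ T0 | ends i y = W} := ⟨_, rfl⟩
  have hT0W_mem : ∀ W y, y ∈ T0W W ↔ y ∈ T0 ∧ ends i y = W := by
    intro W y
    rw [hT0W]
    simp only [mem_filter]
  obtain ⟨Ω1W, hΩ1W⟩ : ∃ Ω1W : (ι → V) → Finset (Obj ι V),
      Ω1W = fun W => {y ∈ Ω1 | ends i y = W} := ⟨_, rfl⟩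
  have hΩ1W_mem : ∀ W y, y ∈ Ω1W W ↔ y ∈ Ω1 ∧ ends i y = W := by
    intro W y
    rw [hΩ1W]
    simp only [mem_filter]
  obtain ⟨g1, hg1⟩ : ∃ g1 : (ι → V) → Prop, g1 = fun W => #(Ω1W W) ≤ C4 * (#(T0W W) * d ^ ρ) :=
    ⟨_, rfl⟩
  obtain ⟨g2, hg2⟩ : ∃ g2 : (ι → V) → Prop, g2 = fun W => d ^ S ≤ C5 * (n ^ q * #(T0W W)) :=
    ⟨_, rfl⟩
  obtain ⟨T1, hT1⟩ : ∃ T1, T1 = {y ∈ T0 | g1 (ends i y) ∧ g2 (ends i y)} := ⟨_, rfl⟩
  have hT1_mem : ∀ y, y ∈ T1 ↔ y ∈ T0 ∧ g1 (ends i y) ∧ g2 (ends i y) := by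
    intro y
    rw [hT1, mem_filter]
  -- `T1` over good `W`
  have hT1W : ∀ W, g1 W → g2 W → {y ∈ T1 | ends i y = W} = T0W W := by
    intro W h1 h2
    ext y
    rw [mem_filter, hT1_mem, hT0W_mem]
    constructor
    · rintro ⟨⟨a, _⟩, b⟩
      exact ⟨a, b⟩
    · rintro ⟨a, b⟩
      exact ⟨⟨a, b ▸ h1, b ▸ h2⟩, b⟩
  -- bad sets
  obtain ⟨B1, hB1⟩ : ∃ B1, B1 = {y ∈ T0 | ¬ g1 (ends i y)} := ⟨_, rfl⟩
  obtain ⟨B2, hB2⟩ : ∃ B2, B2 = {y ∈ T0 | ¬ g2 (ends i y)} := ⟨_, rfl⟩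
  have hcover : #T0 ≤ #T1 + #B1 + #B2 := by
    refine (card_le_card (t := T1 ∪ B1 ∪ B2) ?_).trans ((card_union_le _ _).trans
      (Nat.add_le_add_right (card_union_le _ _) _))
    intro y hy
    rw [mem_union, mem_union, hT1_mem, hB1, hB2, mem_filter, mem_filter]
    tauto
  have hb1 : C4 * (d ^ ρ * #B1) ≤ #Ω1 := by
    have h1 : #B1 = ∑ W ∈ B1.image (ends i), #{y ∈ B1 | ends i y = W} :=
      card_eq_sum_card_image (ends i) B1
    have h2 : ∑ W ∈ B1.image (ends i), #(Ω1W W) ≤ #Ω1 := by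
      have h3 : ∑ W ∈ B1.image (ends i), #(Ω1W W) = #{x ∈ Ω1 | ends i x ∈ B1.image (ends i)} := by
        rw [hΩ1W]
        exact sum_card_fiberwise_eq_card_filter Ω1 (B1.image (ends i)) (ends i)
      rw [h3]
      exact card_filter_le _ _
    refine le_trans ?_ h2
    rw [h1, mul_sum, mul_sum]
    refine sum_le_sum fun W hW => ?_
    obtain ⟨y, hy, rfl⟩ := mem_image.1 hW
    rw [hB1, mem_filter, hg1] at hy
    have h4 := (not_le.1 hy.2).le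
    refine le_trans ?_ h4
    rw [mul_comm (d ^ ρ)]
    refine Nat.mul_le_mul_left _ (Nat.mul_le_mul_right _ (card_le_card ?_))
    intro y' hy'
    rw [mem_filter, hB1, mem_filter] at hy'
    rw [hT0W_mem]
    exact ⟨hy'.1.1, hy'.2⟩
  have hb1' : 4 * #B1 ≤ #T0 := by
    refine Nat.le_of_mul_le_mul_left (c := 2 * (KS * N1 * Kρ * d ^ ρ)) ?_ (by positivity)
    calc 2 * (KS * N1 * Kρ * d ^ ρ) * (4 * #B1) = C4 * (d ^ ρ * #B1) := by rw [hC4]; ring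
      _ ≤ #Ω1 := hb1
      _ ≤ n * (KS * d ^ S) := hΩ1_le
      _ = KS * d ^ ρ * (n * d ^ s) := by rw [hdS]; ring
      _ ≤ KS * d ^ ρ * (2 * (N1 * Kρ * #T0)) := Nat.mul_le_mul_left _ hT0c
      _ = 2 * (KS * N1 * Kρ * d ^ ρ) * #T0 := by ring
  -- the number of `W`
  have hA : #(T0.image (ends i)) * d ^ ρ ≤ C1 * Pc * N1 * (n ^ q * n) := by
    have h1 : ∀ W ∈ T0.image (ends i), d ^ ρ ≤ C1 * (Pc * #{X : ι → V | W ∈ T X}) := by
      intro W hW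
      obtain ⟨y, hy, rfl⟩ := mem_image.1 hW
      refine ((hT0_mem y).1 hy).2.trans (Nat.mul_le_mul_left _ ?_)
      have h2 : #(ext y) ≤ Pc * #((ext y).image (ends j)) := by
        refine card_le_mul_card_image _ _ fun X _ => ?_
        rw [hPc]
        refine le_trans (card_le_card ?_) (card_good_fiber G (k - 1) R i j (fun c => (hi c).2) hL
          Ω2 (fun x hx => hgood x (hsub hx)) y X)
        intro x hx
        rw [mem_filter, hext_mem] at hx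
        rw [mem_filter]
        exact ⟨hx.1.1, hx.1.2, hx.2⟩
      refine h2.trans (Nat.mul_le_mul_left _ (card_le_card ?_))
      intro X hX
      obtain ⟨x, hx, rfl⟩ := mem_image.1 hX
      rw [hext_mem] at hx
      rw [mem_filter]
      refine ⟨mem_univ _, ?_⟩
      rw [← hx.2, ends_tr]
      exact hTm x (hsub hx.1)
    have h2 : ∑ W ∈ T0.image (ends i), #{X : ι → V | W ∈ T X} ≤ (n ^ q * n) * N1 := by
      have h3 : ∑ W ∈ T0.image (ends i), #{X : ι → V | W ∈ T X} =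
          ∑ X : ι → V, #{W ∈ T0.image (ends i) | W ∈ T X} :=
        sum_card_bipartiteAbove_eq_sum_card_bipartiteBelow (fun W X => W ∈ T X)
      rw [h3]
      have h4 : ∑ X : ι → V, #{W ∈ T0.image (ends i) | W ∈ T X} ≤ ∑ X : ι → V, N1 := by
        refine sum_le_sum fun X _ => ?_
        refine (card_le_card (t := T X) fun W hW => (mem_filter.1 hW).2).trans ((hT X).trans ?_)
        omega
      refine h4.trans ?_
      rw [sum_const, smul_eq_mul, Finset.card_univ, Fintype.card_fun, hq', pow_succ, hn]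
    calc #(T0.image (ends i)) * d ^ ρ = ∑ W ∈ T0.image (ends i), d ^ ρ := by
          rw [sum_const, smul_eq_mul]
      _ ≤ ∑ W ∈ T0.image (ends i), C1 * (Pc * #{X : ι → V | W ∈ T X}) := sum_le_sum h1
      _ = C1 * (Pc * ∑ W ∈ T0.image (ends i), #{X : ι → V | W ∈ T X}) := by
          rw [← mul_sum, ← mul_sum]
      _ ≤ C1 * (Pc * ((n ^ q * n) * N1)) :=
          Nat.mul_le_mul_left _ (Nat.mul_le_mul_left _ h2)
      _ = C1 * Pc * N1 * (n ^ q * n) := by ring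
  have hb2 : C5 * (n ^ q * #B2) ≤ #(T0.image (ends i)) * d ^ S := by
    have h1 : #B2 = ∑ W ∈ B2.image (ends i), #{y ∈ B2 | ends i y = W} :=
      card_eq_sum_card_image (ends i) B2
    have h2 : #(B2.image (ends i)) * d ^ S ≤ #(T0.image (ends i)) * d ^ S := by
      refine Nat.mul_le_mul_right _ (card_le_card (image_subset_image ?_))
      rw [hB2]
      exact filter_subset _ _
    refine le_trans ?_ h2
    rw [h1, mul_sum, mul_sum, ← smul_eq_mul, ← sum_const]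
    refine sum_le_sum fun W hW => ?_
    obtain ⟨y, hy, rfl⟩ := mem_image.1 hW
    rw [hB2, mem_filter, hg2] at hy
    have h4 := (not_le.1 hy.2).le
    refine le_trans ?_ h4
    refine Nat.mul_le_mul_left _ (Nat.mul_le_mul_left _ (card_le_card ?_))
    intro y' hy'
    rw [mem_filter, hB2, mem_filter] at hy'
    rw [hT0W_mem]
    exact ⟨hy'.1.1, hy'.2⟩
  have hb2' : 4 * #B2 ≤ #T0 := by
    refine Nat.le_of_mul_le_mul_left (c := 2 * (C1 * Pc * N1 * N1 * Kρ * n ^ q * d ^ ρ)) ?_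
      (by positivity)
    calc 2 * (C1 * Pc * N1 * N1 * Kρ * n ^ q * d ^ ρ) * (4 * #B2)
        = C5 * (n ^ q * #B2) * d ^ ρ := by rw [hC5]; ring
      _ ≤ #(T0.image (ends i)) * d ^ S * d ^ ρ := Nat.mul_le_mul_right _ hb2
      _ = #(T0.image (ends i)) * d ^ ρ * d ^ S := by ring
      _ ≤ C1 * Pc * N1 * (n ^ q * n) * d ^ S := Nat.mul_le_mul_right _ hA
      _ = C1 * Pc * N1 * n ^ q * d ^ ρ * (n * d ^ s) := by rw [hdS]; ring
      _ ≤ C1 * Pc * N1 * n ^ q * d ^ ρ * (2 * (N1 * Kρ * #T0)) := Nat.mul_le_mul_left _ hT0c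
      _ = 2 * (C1 * Pc * N1 * N1 * Kρ * n ^ q * d ^ ρ) * #T0 := by ring
  have hT01 : #T0 ≤ 2 * #T1 := by omega
  refine ⟨T1, ?_, ?_, ?_, ?_⟩
  · intro y hy
    exact ((hT0_mem y).1 ((hT1_mem y).1 hy).1).1
  · intro W β
    by_cases hW : g1 W ∧ g2 W
    · rw [hT1W W hW.1 hW.2]
      have h1 : d ^ ρ * #{x ∈ T1 | ends i x = W ∧ β ∈ inn i x} ≤
          C1 * #{x ∈ Ω2 | ends i x = W ∧ β ∈ inn i x} := by
        have h2 : ∑ y ∈ {x ∈ T1 | ends i x = W ∧ β ∈ inn i x}, #(ext y) ≤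
            #{x ∈ Ω2 | ends i x = W ∧ β ∈ inn i x} := by
          have h3 : ∀ y ∈ {x ∈ T1 | ends i x = W ∧ β ∈ inn i x},
              ext y = {x ∈ {x ∈ Ω2 | ends i x = W ∧ β ∈ inn i x} | tr i x = y} := by
            intro y hy
            rw [mem_filter] at hy
            ext x
            rw [hext_mem, mem_filter, mem_filter]
            constructor
            · rintro ⟨a, b⟩
              refine ⟨⟨a, ?_, ?_⟩, b⟩
              · rw [← ends_tr, b]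
                exact hy.2.1
              · rw [← inn_tr, b]
                exact hy.2.2
            · rintro ⟨⟨a, _⟩, b⟩
              exact ⟨a, b⟩
          rw [sum_congr rfl fun y hy => congrArg Finset.card (h3 y hy),
            sum_card_fiberwise_eq_card_filter]
          exact card_filter_le _ _
        calc d ^ ρ * #{x ∈ T1 | ends i x = W ∧ β ∈ inn i x}
            = ∑ y ∈ {x ∈ T1 | ends i x = W ∧ β ∈ inn i x}, d ^ ρ := by
              rw [sum_const, smul_eq_mul, mul_comm]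
          _ ≤ ∑ y ∈ {x ∈ T1 | ends i x = W ∧ β ∈ inn i x}, C1 * #(ext y) := by
              refine sum_le_sum fun y hy => ?_
              rw [mem_filter, hT1_mem, hT0_mem] at hy
              exact hy.1.1.2
          _ = C1 * ∑ y ∈ {x ∈ T1 | ends i x = W ∧ β ∈ inn i x}, #(ext y) := by rw [← mul_sum]
          _ ≤ C1 * #{x ∈ Ω2 | ends i x = W ∧ β ∈ inn i x} := Nat.mul_le_mul_left _ h2
      have h4 := hhit W β
      have h5 : #(Ω1W W) ≤ C4 * (#(T0W W) * d ^ ρ) := by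
        have := hW.1
        rw [hg1] at this
        exact this
      rw [hΩ1W] at h5
      generalize #{x ∈ T1 | ends i x = W ∧ β ∈ inn i x} = a at h1 ⊢
      generalize #{x ∈ Ω2 | ends i x = W ∧ β ∈ inn i x} = b at h1 h4
      refine Nat.le_of_mul_le_mul_left (c := C1 * C4 * d ^ ρ) ?_ (by positivity)
      calc C1 * C4 * d ^ ρ * (E2 * a) = E2 * (C1 * C4) * (d ^ ρ * a) := by ring
        _ ≤ E2 * (C1 * C4) * (C1 * b) := Nat.mul_le_mul_left _ h1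
        _ = C1 * (E2 * (C1 * C4) * b) := by ring
        _ ≤ C1 * (C4 * (#(T0W W) * d ^ ρ)) := Nat.mul_le_mul_left _ (h4.trans h5)
        _ = C1 * C4 * d ^ ρ * #(T0W W) := by ring
    · have h1 : {x ∈ T1 | ends i x = W ∧ β ∈ inn i x} = ∅ := by
        rw [filter_eq_empty_iff]
        intro x hx h
        rw [hT1_mem, h.1] at hx
        exact hW hx.2
      rw [h1, card_empty, mul_zero]
      exact Nat.zero_le _
  · intro x hx
    have h := (hT1_mem x).1 hx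
    rw [hT1W _ h.2.1 h.2.2]
    have h2 := h.2.2
    rw [hg2] at h2
    exact h2
  · calc n * d ^ s ≤ 2 * (N1 * Kρ * #T0) := hT0c
      _ ≤ 2 * (N1 * Kρ * (2 * #T1)) :=
        Nat.mul_le_mul_left _ (Nat.mul_le_mul_left _ hT01)
      _ = C6 * #T1 := by rw [hC6]; ring

end Pool.Agent.Helper14.SP
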