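import Pool.Agent.Helper14.SP2.F.G3
import Pool.Agent.Helper14.SP2.F.ManyGood
import Pool.Agent.Helper14.SP2.F.ThmL
import Pool.Agent.Helper14.SP2.F.WorldZero
import Pool.Agent.Helper14.SP2.F.CommonBase
import Pool.Agent.Helper14.SP2.F.D1
import Pool.Agent.Helper14.SP2.F.D2
import Pool.Agent.Helper14.SP2.F.Trunc
import Pool.Agent.Helper14.SP2.F.StepB1
import Pool.Agent.Helper14.SP2.F.D7

/-! Project SP2: imports -/
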