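import Pool.Agent.Helper14.SP2.F.G4

/-!
# Project SP2, piece D10: the zigzag leg (by helper23)
-/

set_option autoImplicit false

namespace Pool.Agent.Helper14.SP

open Finset Classical

/-- append a vertex to a path given as a function on `ℕ` -/
theorem leg_append {V : Type} (G : SimpleGraph V) (Z : Finset V) (u v w : V) (n : ℕ)
    (q : ℕ → V) (h0 : q 0 = u) (hn : q n = v)
    (hadj : ∀ m, m < n → G.Adj (q m) (q (m + 1)))
    (hinj : ∀ m m', m ≤ n → m' ≤ n → q m = q m' → m = m')
    (hZ : ∀ m, 1 ≤ m → m < n → q m ∉ Z ∧ q m ≠ w) (hvZ : v ∉ Z) (hvw : G.Adj v w)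
    (huw : u ≠ w) :
    ∃ q' : ℕ → V, q' 0 = u ∧ q' (n + 1) = w ∧
      (∀ m, m < n + 1 → G.Adj (q' m) (q' (m + 1))) ∧
      (∀ m m', m ≤ n + 1 → m' ≤ n + 1 → q' m = q' m' → m = m') ∧
      ∀ m, 1 ≤ m → m < n + 1 → q' m ∉ Z := by
  have hne : ∀ m, m ≤ n → q m ≠ w := by
    intro m hm he
    rcases Nat.eq_zero_or_pos m with h | h
    · subst h
      exact huw (h0.symm.trans he)
    · rcases Nat.lt_or_ge m n with h' | h'
      · exact (hZ m h h').2 he
      · have : m = n := le_antisymm hm h'
        subst this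
        rw [hn] at he
        rw [he] at hvw
        exact hvw.ne rfl
  refine ⟨fun m => if m ≤ n then q m else w, ?_, ?_, ?_, ?_, ?_⟩
  · simp [h0]
  · simp
  · intro m hm
    rcases Nat.lt_or_ge m n with h | h
    · have h1 : m ≤ n := h.le
      have h2 : m + 1 ≤ n := h
      simp only [h1, h2, if_true]
      exact hadj m h
    · have h1 : m = n := by omega
      subst h1
      simp only [le_refl, if_true, Nat.not_succ_le_self, if_false]
      rw [hn]
      exact hvw
  · intro m m' hm hm' he
    dsimp only at he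
    split_ifs at he with h1 h2 h2
    · exact hinj m m' h1 h2 he
    · exact absurd he (hne m h1)
    · exact absurd he.symm (hne m' h2)
    · omega
  · intro m h1 h2
    have h3 : m ≤ n := by omega
    simp only [h3, if_true]
    rcases Nat.lt_or_ge m n with h | h
    · exact (hZ m h1 h).1
    · have : m = n := by omega
      subst this
      rw [hn]
      exact hvZ

theorem pth_subset_inn {ι V : Type} [Fintype ι] (i : ι → ℕ) (b : ι) (x : Obj ι V) :
    pth i b x ⊆ inn i x := by
  intro v hv
  unfold pth at hv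
  rw [mem_image] at hv
  obtain ⟨m, hm, rfl⟩ := hv
  rw [mem_Ico] at hm
  rw [mem_inn]
  exact Or.inr ⟨b, m, hm.1, hm.2, rfl⟩

theorem leg_walk {ι V : Type} [Fintype ι] (G : SimpleGraph V) (i : ι → ℕ) (b : ι)
    (hb : 1 ≤ i b) (h N : ℕ) (E' : Finset (Obj ι V × (V × (ι → V))))
    (Ker : V × (ι → V) → Finset V)
    (hE : ∀ e ∈ E', Sp G i e.1 ∧ e.2.1 = e.1.1 ∧ (∀ c, c ≠ b → e.2.2 c = e.1.2 c (i c)) ∧
      G.Adj (e.1.2 b (i b)) (e.2.2 b) ∧ e.2.2 b ∉ inn i e.1)
    (huniq : ∀ e ∈ E', ∀ e' ∈ E', e.1.1 = e'.1.1 → ends i e.1 = ends i e'.1 → e.1 = e'.1)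
    (hl : ∀ e ∈ E', 2 * (N + h) + 3 ≤ #{e' ∈ E' | e'.1 = e.1})
    (hr : ∀ e ∈ E', 4 * (N + h) + 4 ≤ #{e' ∈ E' | e'.2 = e.2})
    (hK : ∀ e ∈ E', Ker e.2 ⊆ pth i b e.1)
    (hK' : ∀ e ∈ E', ∀ z, z ∉ Ker e.2 →
      (2 * (N + h) + 2) * #{e' ∈ E' | e'.2 = e.2 ∧ z ∈ pth i b e'.1} ≤
        #{e' ∈ E' | e'.2 = e.2})
    (e : Obj ι V × (V × (ι → V))) (he : e ∈ E') (Z : Finset V) (hZ : #Z ≤ N)
    (hZA : Disjoint (pth i b e.1) Z) (hu : e.1.1 ∉ Z) :
    ∃ q : ℕ → V, q 0 = e.1.1 ∧
      q (i b + h) = (if Even h then e.1.2 b (i b) else e.2.2 b) ∧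
      (∀ m, m < i b + h → G.Adj (q m) (q (m + 1))) ∧
      (∀ m m', m ≤ i b + h → m' ≤ i b + h → q m = q m' → m = m') ∧
      ∀ m, 1 ≤ m → m < i b + h → q m ∉ Z := by
  induction h generalizing N e Z with
  | zero =>
    have hS := (hE e he).1
    refine ⟨e.1.2 b, hS.start b, by simp, fun m hm => hS.adj b m (by simpa using hm),
      fun m m' h1 h2 h3 => hS.inj_leg (by simpa using h1) (by simpa using h2) h3, ?_⟩
    intro m h1 h2 h3
    have h2' : m < i b := by simpa using h2
    refine (disjoint_left.mp hZA) ?_ h3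
    unfold pth
    exact mem_image_of_mem _ (mem_Ico.mpr ⟨h1, h2'⟩)
  | succ h ih =>
    have hS := (hE e he).1
    have hNh : N + 1 + h = N + (h + 1) := by omega
    by_cases hpar : Even h
    · -- `h + 1` is odd: the end is `e.2.2 b`
      have hpar' : ¬ Even (h + 1) := by
        rw [Nat.even_add_one]
        exact fun hh => hh hpar
      rw [if_neg hpar']
      set S := N + (h + 1) with hSdef
      -- choose `e'`
      have hex : ∃ e' ∈ E', e'.2 = e.2 ∧ Disjoint (pth i b e'.1) Z ∧
          e'.1.2 b (i b) ∉ Z := by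
        by_contra hcon
        push Not at hcon
        set Rr := {e' ∈ E' | e'.2 = e.2} with hRr
        have hcard := hr e he
        have hsub : Rr ⊆ (Z.biUnion fun z => {e' ∈ E' | e'.2 = e.2 ∧ z ∈ pth i b e'.1}) ∪
            {e' ∈ Rr | e'.1.2 b (i b) ∈ Z} := by
          intro e' he'
          have he'' := he'
          rw [hRr, mem_filter] at he''
          rw [mem_union, mem_biUnion, mem_filter]
          by_cases hd : Disjoint (pth i b e'.1) Z
          · exact Or.inr ⟨he', hcon e' he''.1 he''.2 hd⟩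
          · rw [not_disjoint_iff] at hd
            obtain ⟨z, hz1, hz2⟩ := hd
            exact Or.inl ⟨z, hz2, mem_filter.mpr ⟨he''.1, he''.2, hz1⟩⟩
        have hinj : #{e' ∈ Rr | e'.1.2 b (i b) ∈ Z} ≤ #Z := by
          refine card_le_card_of_injOn (fun e' => e'.1.2 b (i b)) ?_ ?_
          · intro e' he'
            rw [mem_coe, mem_filter] at he'
            exact he'.2
          · intro e1 he1 e2 he2 h12
            rw [mem_coe, mem_filter, hRr, mem_filter] at he1 he2
            obtain ⟨⟨h1a, h1b⟩, _⟩ := he1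
            obtain ⟨⟨h2a, h2b⟩, _⟩ := he2
            have h3 : e1.2 = e2.2 := h1b.trans h2b.symm
            have h4 : e1.1 = e2.1 := by
              refine huniq e1 h1a e2 h2a ?_ ?_
              · rw [← (hE e1 h1a).2.1, ← (hE e2 h2a).2.1, h3]
              · funext c
                by_cases hc : c = b
                · subst hc
                  exact h12
                · change e1.1.2 c (i c) = e2.1.2 c (i c)
                  rw [← (hE e1 h1a).2.2.1 c hc, ← (hE e2 h2a).2.2.1 c hc, h3]
            exact Prod.ext h4 h3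
        have hbi : (2 * S + 2) *
            #(Z.biUnion fun z => {e' ∈ E' | e'.2 = e.2 ∧ z ∈ pth i b e'.1}) ≤ N * #Rr := by
          calc (2 * S + 2) * #(Z.biUnion fun z => {e' ∈ E' | e'.2 = e.2 ∧ z ∈ pth i b e'.1})
              ≤ (2 * S + 2) * ∑ z ∈ Z, #{e' ∈ E' | e'.2 = e.2 ∧ z ∈ pth i b e'.1} :=
                Nat.mul_le_mul_left _ card_biUnion_le
            _ = ∑ z ∈ Z, (2 * S + 2) * #{e' ∈ E' | e'.2 = e.2 ∧ z ∈ pth i b e'.1} := by
                rw [mul_sum]
            _ ≤ ∑ _z ∈ Z, #Rr := by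
                refine sum_le_sum fun z hz => hK' e he z fun hzK => ?_
                exact (disjoint_left.mp hZA) (hK e he hzK) hz
            _ = #Z * #Rr := by rw [sum_const, smul_eq_mul]
            _ ≤ N * #Rr := Nat.mul_le_mul_right _ hZ
        have hle : #Rr ≤ #(Z.biUnion fun z => {e' ∈ E' | e'.2 = e.2 ∧ z ∈ pth i b e'.1}) + N :=
          (card_le_card hsub).trans ((card_union_le _ _).trans
            (Nat.add_le_add_left (hinj.trans hZ) _))
        set B := #(Z.biUnion fun z => {e' ∈ E' | e'.2 = e.2 ∧ z ∈ pth i b e'.1})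
        have hNS : N ≤ S := by omega
        have hR : 4 * S + 4 ≤ #Rr := hcard
        have h5 : (2 * S + 2) * #Rr ≤ N * #Rr + (2 * S + 2) * N := by
          calc (2 * S + 2) * #Rr ≤ (2 * S + 2) * (B + N) := Nat.mul_le_mul_left _ hle
            _ = (2 * S + 2) * B + (2 * S + 2) * N := by ring
            _ ≤ N * #Rr + (2 * S + 2) * N := Nat.add_le_add_right hbi _
        have h6 : N * #Rr ≤ S * #Rr := Nat.mul_le_mul_right _ hNS
        have h7 : (2 * S + 2) * N ≤ (2 * S + 2) * S := Nat.mul_le_mul_left _ hNS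
        nlinarith
      obtain ⟨e', he', h2, hd, hw⟩ := hex
      have hV : e'.2.2 b = e.2.2 b := by rw [h2]
      have hcen : e'.1.1 = e.1.1 := by rw [← (hE e' he').2.1, ← (hE e he).2.1, h2]
      have hVinn : e.2.2 b ∉ inn i e'.1 := by
        rw [← hV]
        exact (hE e' he').2.2.2.2
      have hVinn' : e.2.2 b ∉ inn i e.1 := (hE e he).2.2.2.2
      have huV : e.1.1 ≠ e.2.2 b := by
        intro hh
        apply hVinn'
        rw [← hh, mem_inn]
        exact Or.inl rfl
      obtain ⟨q, hq0, hqn, hqa, hqi, hqZ⟩ := ih (N + 1)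
        (fun x hx => by rw [hNh]; exact hl x hx) (fun x hx => by rw [hNh]; exact hr x hx)
        (fun x hx z hz => by rw [hNh]; exact hK' x hx z hz) e' he' (insert (e.2.2 b) Z)
        ((card_insert_le _ _).trans (Nat.add_le_add_right hZ 1))
        (by
          rw [disjoint_insert_right]
          exact ⟨fun hh => hVinn (pth_subset_inn i b e'.1 hh), hd⟩)
        (by
          rw [mem_insert, hcen]
          rintro (hh | hh)
          · exact huV hh
          · exact hu hh)
      rw [if_pos hpar] at hqn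
      have hadj : G.Adj (e'.1.2 b (i b)) (e.2.2 b) := by
        rw [← hV]
        exact (hE e' he').2.2.2.1
      have := leg_append G Z e.1.1 (e'.1.2 b (i b)) (e.2.2 b) (i b + h) q
        (hq0.trans hcen) hqn hqa hqi
        (fun m h1 h2 => by
          have h3 := hqZ m h1 h2
          rw [mem_insert, not_or] at h3
          exact ⟨h3.2, h3.1⟩) hw hadj huV
      exact this
    · -- `h + 1` is even: the end is `e.1.2 b (i b)`
      have hpar' : Even (h + 1) := by
        rw [Nat.even_add_one]
        exact hpar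
      rw [if_pos hpar']
      set w := e.1.2 b (i b) with hwdef
      have hex : ∃ e' ∈ E', e'.1 = e.1 ∧ e'.2.2 b ∉ Z := by
        by_contra hcon
        push Not at hcon
        have hcard := hl e he
        have hinj : #{e' ∈ E' | e'.1 = e.1} ≤ #Z := by
          refine card_le_card_of_injOn (fun e' => e'.2.2 b) ?_ ?_
          · intro e' he'
            rw [mem_coe, mem_filter] at he'
            exact hcon e' he'.1 he'.2
          · intro e1 he1 e2 he2 h12
            rw [mem_coe, mem_filter] at he1 he2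
            obtain ⟨h1a, h1b⟩ := he1
            obtain ⟨h2a, h2b⟩ := he2
            have h3 : e1.1 = e2.1 := h1b.trans h2b.symm
            refine Prod.ext h3 (Prod.ext ?_ ?_)
            · rw [(hE e1 h1a).2.1, (hE e2 h2a).2.1, h3]
            · funext c
              by_cases hc : c = b
              · subst hc
                exact h12
              · rw [(hE e1 h1a).2.2.1 c hc, (hE e2 h2a).2.2.1 c hc, h3]
        omega
      obtain ⟨e', he', h1, hv⟩ := hex
      have hwc : e.1.1 ≠ w := fun hh => hS.ne_centre hb le_rfl hh.symm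
      have hwp : w ∉ pth i b e.1 := by
        intro hh
        unfold pth at hh
        rw [mem_image] at hh
        obtain ⟨m, hm, hm2⟩ := hh
        rw [mem_Ico] at hm
        have := hS.inj_leg hm.2.le le_rfl hm2
        omega
      obtain ⟨q, hq0, hqn, hqa, hqi, hqZ⟩ := ih (N + 1)
        (fun x hx => by rw [hNh]; exact hl x hx) (fun x hx => by rw [hNh]; exact hr x hx)
        (fun x hx z hz => by rw [hNh]; exact hK' x hx z hz) e' he' (insert w Z)
        ((card_insert_le _ _).trans (Nat.add_le_add_right hZ 1))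
        (by
          rw [disjoint_insert_right, h1]
          exact ⟨hwp, hZA⟩)
        (by
          rw [mem_insert, h1]
          rintro (hh | hh)
          · exact hwc hh
          · exact hu hh)
      rw [if_neg hpar] at hqn
      have hadj : G.Adj (e'.2.2 b) w := by
        have := (hE e' he').2.2.2.1
        rw [h1] at this
        exact this.symm
      exact leg_append G Z e.1.1 (e'.2.2 b) w (i b + h) q
        (by rw [hq0, h1]) hqn hqa hqi
        (fun m h1 h2 => by
          have h3 := hqZ m h1 h2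
          rw [mem_insert, not_or] at h3
          exact ⟨h3.2, h3.1⟩) hv hadj hwc

end Pool.Agent.Helper14.SP
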