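import Pool.Agent.Helper14.SP2.F.G4

/-!
# Project SP2, piece D4: `stepA` (some leg of the closure has full length)
-/

set_option autoImplicit false

namespace Pool.Agent.Helper14.SP

open Finset Classical
open Pool.Agent.Helper97.RE (IsPath Rich PP Clean Cb)

/-- the number of stems -/
theorem card_stems_le {ι V : Type} [Fintype ι] [Fintype V] (G : SimpleGraph V) (Δ : ℕ)
    (hΔ : ∀ w, G.degree w ≤ Δ) (i j : ι → ℕ) (hi : ∀ c, 1 ≤ i c ∧ i c ≤ j c) (a l : ι)
    (hl : i l < j l) (ha : i a = j a)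
    (Ω : Finset (Obj ι V)) (hΩ : ∀ x ∈ Ω, Wk G j x) :
    #(Ω.image fun x => (tr (dn i l) x, x.2 a (j a))) ≤
      Fintype.card V * Δ ^ (∑ c, dn i l c) := by
  have hla : l ≠ a := by
    rintro rfl
    omega
  have hdn : ∀ c, dn i l c ≤ i c := by
    intro c
    unfold dn
    by_cases hc : c = l
    · subst hc
      rw [Function.update_self]
      omega
    · rw [Function.update_of_ne hc]
  have hda : dn i l a = j a := by
    unfold dn
    rw [Function.update_of_ne (Ne.symm hla), ha]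
  have h1 : (Ω.image fun x => (tr (dn i l) x, x.2 a (j a))) ⊆
      ({x ∈ WK G (dn i l) | x.1 ∈ (univ : Finset V)}).image
        fun x => (x, x.2 a (j a)) := by
    intro y hy
    rw [mem_image] at hy
    obtain ⟨x, hx, rfl⟩ := hy
    rw [mem_image]
    refine ⟨tr (dn i l) x, ?_, ?_⟩
    · rw [mem_filter, mem_WK]
      refine ⟨⟨tr_idem _ _, fun c => ?_, fun c m hm => ?_⟩, mem_univ _⟩
      · rw [tr_snd_le x (Nat.zero_le _)]
        exact (hΩ x hx).start c
      · rw [tr_snd_le x hm.le, tr_snd_le x hm]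
        exact (hΩ x hx).adj c m (by have := hdn c; have := (hi c).2; omega)
    · rw [tr_snd_le x (le_of_eq hda.symm)]
  refine (card_le_card h1).trans (card_image_le.trans ?_)
  have := card_wk_le G Δ hΔ (dn i l) (univ : Finset V)
  rwa [card_univ] at this

theorem sum_dn {ι : Type} [Fintype ι] (i j : ι → ℕ) (hi : ∀ c, 1 ≤ i c ∧ i c ≤ j c) (l : ι) :
    (∑ c, (j c - i c)) + (∑ c, dn i l c) + 1 = ∑ c, j c := by
  have h1 : (∑ c, dn i l c) + 1 = ∑ c, i c := by
    unfold dn
    rw [sum_update_of_mem (mem_univ l), ← add_sum_erase univ i (mem_univ l), sdiff_singleton_eq_erase]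
    have := (hi l).1
    omega
  rw [add_assoc, h1, ← sum_add_distrib]
  refine sum_congr rfl fun c _ => ?_
  have := (hi c).2
  omega

/-- D4: some leg of the closure has full length (5.2) -/
theorem stepA {ι : Type} [Fintype ι] (F : Type) [Fintype F] (i j : ι → ℕ) (k K B N0 : ℕ)
    (R : ℕ → ℕ) (hi : ∀ c, 1 ≤ i c ∧ i c ≤ j c) (hj : ∀ c, j c < k)
    (hi1 : ∀ c c', i c = 1 → i c' = 1 → c = c') (a : ι) (ha : i a = j a) : ∃ EN : ℕ,
    ∀ N : ℕ, ∃ d0 : ℕ, ∀ {V : Type} [Fintype V] [Nonempty V] (G : SimpleGraph V) (d r : ℕ),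
      (∀ w, G.degree w ≤ K * d) → d0 ≤ d → rmin j F k N0 ≤ r → ∀ Ω1 Ω2 : Finset (Obj ι V),
      (∀ x ∈ Ω1, GA G k r B d R j x) → Ω2 ⊆ Ω1 → #Ω1 ≤ 2 * #Ω2 →
      Fintype.card V * d ^ (∑ c, j c) ≤ N * #Ω2 →
      (∀ (W : ι → V) (β : V), EN * #{x ∈ Ω2 | ends i x = W ∧ β ∈ inn i x} ≤
        #{x ∈ Ω1 | ends i x = W}) →
      ∃ X : ι ⊕ F → V, Flex G (Sum.elim j fun _ => k) N0 X := by
  have hja : 1 ≤ j a := by have := (hi a).1; omega
  obtain ⟨C, d1, hatt⟩ := attach F k (j a) K B (∑ c, (i c + 1) + 1) R hja (hj a)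
  refine ⟨4 * nmin j N0 * C + 1, fun N => ?_⟩
  refine ⟨max d1 (N * C * (2 * (Fintype.card ι * (nmin j N0 * K ^ (∑ c, j c - 1)))) + 1), ?_⟩
  intro V _ _ G d r hdeg hd hr Ω1 Ω2 hGA h21 hcard hbig hhit
  have hd1 : d1 ≤ d := (le_max_left _ _).trans hd
  have hd2 : N * C * (2 * (Fintype.card ι * (nmin j N0 * K ^ (∑ c, j c - 1)))) + 1 ≤ d :=
    (le_max_right _ _).trans hd
  have hdpos : 0 < d := by omega
  have hVpos : 0 < Fintype.card V := Fintype.card_pos
  -- attachments
  obtain ⟨ζ, hζ⟩ := hatt G d r hdeg hd1 Ω2 (fun x : Obj ι V => x.1)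
    (fun x : Obj ι V => x.2 a (j a)) (fun x => vs i x)
    (fun x hx => ⟨(hGA x (h21 hx)).att a (j a) hja le_rfl, card_vs_le i x⟩)
  set Ω3 : Finset (Obj ι V) := {x ∈ Ω2 | Function.Injective (ζ (x.2 a (j a))) ∧
    ∀ f, Rich G k r x.1 (ζ (x.2 a (j a)) f) ∧ ζ (x.2 a (j a)) f ∉ vs i x} with hΩ3
  have hΩ32 : Ω3 ⊆ Ω2 := filter_subset _ _
  let g : Obj ι V → Obj ι V × V := fun x => (x, x.2 a (j a))
  have hg : Function.Injective g := fun x y h => (Prod.mk.inj h).1
  have hΩ2pos : 0 < #Ω2 := by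
    rcases Nat.eq_zero_or_pos (#Ω2) with h0 | h0
    · rw [h0, mul_zero] at hbig
      have : 0 < Fintype.card V * d ^ (∑ c, j c) := Nat.mul_pos hVpos (pow_pos hdpos _)
      omega
    · exact h0
  have hΩ3pos : 0 < #Ω3 := by
    rcases Nat.eq_zero_or_pos (#Ω3) with h0 | h0
    · rw [h0, mul_zero] at hζ
      omega
    · exact h0
  have hwk : ∀ x ∈ Ω3, Wk G j x := fun x hx => (hGA x (h21 (hΩ32 hx))).good.wk
  -- the family
  refine flex_of_family G i j k N0 r ((K * d) ^ (∑ c, (j c - i c))) hi hi1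
    (by have := hj a; omega) hr (Ω3.image g) ζ ?_ ?_ ?_ ?_ ?_
  · exact (card_pos.mp hΩ3pos).image g
  · intro ω hω
    rw [mem_image] at hω
    obtain ⟨x, hx, rfl⟩ := hω
    have hx2 := (mem_filter.mp hx).2
    exact ⟨(hGA x (h21 (hΩ32 hx))).good.sp.mono fun c => (hi c).2, hx2.1, hx2.2⟩
  · -- covering
    refine cov_of_hit i (nmin j N0) C (4 * nmin j N0 * C + 1) (Ω1.image g) (Ω2.image g)
      (Ω3.image g) ?_ (image_subset_image hΩ32) ?_ (Nat.le_succ _) (Nat.le_add_left 1 _) ?_
    · rw [card_image_of_injective _ hg, card_image_of_injective _ hg]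
      exact hcard
    · rw [card_image_of_injective _ hg, card_image_of_injective _ hg]
      exact hζ
    · intro κ β
      have e1 : #{ω ∈ Ω2.image g | (ends i ω.1, ω.2) = κ ∧ β ∈ inn i ω.1} =
          #{x ∈ Ω2 | (ends i x, x.2 a (j a)) = κ ∧ β ∈ inn i x} := by
        rw [filter_image, card_image_of_injective _ hg]
      have e2 : #{ω ∈ Ω1.image g | (ends i ω.1, ω.2) = κ} =
          #{x ∈ Ω1 | (ends i x, x.2 a (j a)) = κ} := by
        rw [filter_image, card_image_of_injective _ hg]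
      rw [e1, e2]
      by_cases hκ : κ.2 = κ.1 a
      · have e3 : ∀ x : Obj ι V, (ends i x, x.2 a (j a)) = κ ↔ ends i x = κ.1 := by
          intro x
          constructor
          · intro h
            exact congrArg Prod.fst h
          · intro h
            refine Prod.ext h ?_
            change x.2 a (j a) = κ.2
            rw [hκ, ← h, ← ha]
            rfl
        simp only [e3]
        exact hhit κ.1 β
      · have e4 : ∀ x : Obj ι V, ¬ (ends i x, x.2 a (j a)) = κ := by
          intro x h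
          apply hκ
          rw [← h]
          change x.2 a (j a) = x.2 a (i a)
          rw [ha]
        have e5 : #{x ∈ Ω2 | (ends i x, x.2 a (j a)) = κ ∧ β ∈ inn i x} = 0 := by
          rw [card_eq_zero, filter_eq_empty_iff]
          exact fun x _ h => e4 x h.1
        rw [e5, mul_zero]
        exact Nat.zero_le _
  · -- fibres
    rintro ⟨y, v⟩
    have h1 : #{ω ∈ Ω3.image g | (tr i ω.1, ω.2) = (y, v)} ≤ #{x ∈ WK G j | tr i x = y} := by
      rw [filter_image, card_image_of_injective _ hg]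
      refine card_le_card fun x hx => ?_
      rw [mem_filter] at hx ⊢
      exact ⟨mem_WK.mpr (hwk x hx.1), congrArg Prod.fst hx.2⟩
    exact h1.trans (card_wk_fiber G (K * d) hdeg i j (fun c => (hi c).2) y)
  · -- stems
    intro l hl
    have h1 : #((Ω3.image g).image fun ω => (tr (dn i l) ω.1, ω.2)) ≤
        Fintype.card V * (K * d) ^ (∑ c, dn i l c) := by
      rw [image_image]
      exact card_stems_le G (K * d) hdeg i j hi a l hl ha Ω3 hwk
    rw [card_image_of_injective _ hg]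
    by_contra hcon
    push Not at hcon
    have h2 := sum_dn i j hi l
    set J := ∑ c, j c with hJ
    have h3 : (K * d) ^ (∑ c, (j c - i c)) * (Fintype.card V * (K * d) ^ (∑ c, dn i l c)) =
        Fintype.card V * (K ^ (J - 1) * d ^ (J - 1)) := by
      have : J - 1 = (∑ c, (j c - i c)) + (∑ c, dn i l c) := by omega
      rw [this, ← mul_pow, pow_add]
      ring
    have h4 : #Ω3 ≤ 2 * (Fintype.card ι * (nmin j N0 *
        (Fintype.card V * (K ^ (J - 1) * d ^ (J - 1))))) := by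
      refine hcon.trans ?_
      rw [← h3, ← mul_assoc (nmin j N0)]
      gcongr
    have h5 : Fintype.card V * d ^ J ≤ N * (C * (2 * (Fintype.card ι * (nmin j N0 *
        (Fintype.card V * (K ^ (J - 1) * d ^ (J - 1))))))) := by
      refine hbig.trans (Nat.mul_le_mul_left _ (hζ.trans (Nat.mul_le_mul_left _ h4)))
    have h6 : N * (C * (2 * (Fintype.card ι * (nmin j N0 *
        (Fintype.card V * (K ^ (J - 1) * d ^ (J - 1))))))) =
        (Fintype.card V * d ^ (J - 1)) *
          (N * C * (2 * (Fintype.card ι * (nmin j N0 * K ^ (J - 1))))) := by ring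
    have h7 : d ^ J = d ^ (J - 1) * d := by
      rw [← pow_succ]
      congr 1
      omega
    rw [h6, h7, ← mul_assoc] at h5
    have h8 := Nat.le_of_mul_le_mul_left h5 (Nat.mul_pos hVpos (pow_pos hdpos _))
    omega

end Pool.Agent.Helper14.SP
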