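import Pool.Agent.Helper14.SP2.F.G4
import Pool.Agent.Helper14.SP2.F.C9
import Pool.Agent.Helper14.SP2.F.Mid
import Pool.Agent.Helper14.SP2.F.StepA
import Pool.Agent.Helper14.SP2.F.StepC
import Pool.Agent.Helper14.SP2.F.LegWalk
import Pool.Agent.Helper14.SP2.F.D11

/-! Project SP2: imports -/
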