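import Pool.Agent.Helper14.SP2.F.G6
import Pool.Agent.Helper14.SP2.F.WorldK

/-! Project SP2: imports -/
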