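import Pool.Agent.Helper14.SP2.F.G7
import Pool.Agent.Helper55.JS.Reg

/-!
# Project SP2: induction over the worlds, and the final theorem
-/

set_option autoImplicit false

namespace Pool.Agent.Helper14.SP

open Finset Classical
open Pool.Agent.Helper97.RE (IsPath Rich PP Clean Cb)
open Pool.Agent.Helper55.JS (BV pt blow RG.regularize)

section worlds

variable {ι : Type} [Fintype ι] [Nonempty ι]

omit [Nonempty ι] in
theorem sum_compl (j : ι → ℕ) (p : ι → Prop) [DecidablePred p] [Fintype {c // p c}]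
    [Fintype {c // ¬ p c}] :
    ∑ c, j c = ∑ c : {c // p c}, j c + ∑ c : {c // ¬ p c}, j c := by
  rw [← Equiv.sum_comp (Equiv.sumCompl p) j, Fintype.sum_sum_type]
  rfl

omit [Nonempty ι] in
theorem card_compl (p : ι → Prop) [DecidablePred p] [Fintype {c // p c}]
    [Fintype {c // ¬ p c}] :
    Fintype.card ι = Fintype.card {c // p c} + Fintype.card {c // ¬ p c} := by
  rw [← Fintype.card_sum]
  exact (Fintype.card_congr (Equiv.sumCompl p)).symm

omit [Fintype ι] [Nonempty ι] in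
theorem elim_compl (j : ι → ℕ) (p : ι → Prop) [DecidablePred p] (f : {c // ¬ p c} → ℕ)
    (hf : ∀ c, f c = j c) :
    (fun c => Sum.elim (fun c : {c // p c} => j c) f ((Equiv.sumCompl p).symm c)) = j := by
  funext c
  obtain ⟨x, rfl⟩ := (Equiv.sumCompl p).surjective c
  rw [Equiv.symm_apply_apply]
  rcases x with x | x
  · rfl
  · exact hf x

theorem world_all (j : ι → ℕ) (k N0 K : ℕ) (hK : 1 ≤ K) (hj : ∀ c, 1 ≤ j c ∧ j c ≤ k)
    (hb : (Fintype.card ι - 1) * k < ∑ c, j c)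
    (hcond : ∀ l, 2 ≤ l → l < k → (∃ c, j c < l) →
      (∑ c, j c) * #{c | j c < l} ≤
        (Fintype.card ι - 1) * (l - 2 + ∑ c with j c < l, j c))
    (hk' : ∃ c, j c = k) (l : ℕ) (hl : 2 ≤ l) (hlk : l ≤ k) : World j N0 K l := by
  by_cases h0 : ∀ c, l ≤ j c
  · exact world_zero j N0 K l hK hl h0
  push Not at h0
  obtain ⟨c0, hc0⟩ := h0
  obtain ⟨c1, hc1⟩ := hk'
  have hn1 : Nonempty {c // j c < l} := ⟨⟨c0, hc0⟩⟩
  have hn2 : Nonempty {c // ¬ j c < l} := ⟨⟨c1, by omega⟩⟩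
  have hs1 : 1 ≤ Fintype.card {c // j c < l} := Fintype.card_pos
  have hs2 : 1 ≤ Fintype.card {c // ¬ j c < l} := Fintype.card_pos
  have hsum := sum_compl j (fun c => j c < l)
  have hcard := card_compl (ι := ι) (fun c => j c < l)
  have hq : #{c | j c < l} = Fintype.card {c // j c < l} := by
    rw [Fintype.card_subtype]
  have hS : ∑ c with j c < l, j c = ∑ c : {c // j c < l}, j c := by
    rw [← Finset.sum_subtype_eq_sum_filter]
    simp
  rcases Nat.lt_or_ge l k with hlt | hge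
  · -- l < k
    have hc := hcond l hl hlt ⟨c0, hc0⟩
    rw [hq, hS] at hc
    have hl3 : 3 ≤ l := by
      by_contra hcon
      have hl2 : l = 2 := by omega
      subst hl2
      have h1 : ∑ c : {c // j c < 2}, j c = Fintype.card {c // j c < 2} := by
        rw [sum_congr rfl fun c _ => (by have := (hj c.1).1; have := c.2; omega : j c.1 = 1)]
        simp
      rw [h1] at hc
      simp only [Nat.sub_self, Nat.zero_add] at hc
      have h2 : ∑ c, j c ≤ Fintype.card ι - 1 := Nat.le_of_mul_le_mul_right hc (by omega)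
      have h3 : Fintype.card ι - 1 ≤ (Fintype.card ι - 1) * k := Nat.le_mul_of_pos_right _ (by omega)
      omega
    obtain ⟨h, rfl⟩ : ∃ h, l = h + 2 := ⟨l - 2, by omega⟩
    have hw := world_mid (ι := {c // j c < h + 2}) (F := {c // ¬ j c < h + 2})
      (fun c => j c) (fun c => j c) N0 K h hK (by omega) (fun c => (hj c.1).1)
      (fun c => c.2) (fun c => not_lt.1 c.2) (by
        rw [← hsum, ← hcard]
        exact hc)
    have hw' := hw.congr (Equiv.sumCompl (fun c => j c < h + 2)).symm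
    have he := elim_compl j (fun c => j c < h + 2) (fun c => j c) (fun c => rfl)
    rw [he] at hw'
    exact hw'
  · -- l = k
    obtain rfl : l = k := by omega
    have hF : ∀ c : {c // ¬ j c < l}, j c = l := fun c => by
      have := (hj c.1).2; have := c.2; omega
    have hT : (Fintype.card {c // j c < l} - 1) * l + 1 ≤ ∑ c : {c // j c < l}, j c := by
      have h1 : ∑ c : {c // ¬ j c < l}, j c = Fintype.card {c // ¬ j c < l} * l := by
        rw [sum_congr rfl fun c _ => hF c]; simp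
      rw [h1] at hsum
      have h2 : (Fintype.card ι - 1) * l =
          (Fintype.card {c // j c < l} - 1) * l + Fintype.card {c // ¬ j c < l} * l := by
        rw [← Nat.add_mul]
        congr 1
        omega
      omega
    have hw := world_k (ι := {c // j c < l}) (F := {c // ¬ j c < l}) (fun c => j c) l N0 K hK
      (fun c => (hj c.1).1) (fun c => c.2) hl hT
    have hw' := hw.congr (Equiv.sumCompl (fun c => j c < l)).symm
    have he := elim_compl j (fun c => j c < l) (fun _ => l) (fun c => (hF c).symm)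
    rw [he] at hw'
    exact hw'

omit [Nonempty ι] in
theorem rare_all (j : ι → ℕ) (k N0 K : ℕ)
    (hw : ∀ l, 2 ≤ l → l ≤ k → World j N0 K l) : ∀ l, l ≤ k → ∀ E : ℕ,
    ∃ (R : ℕ → ℕ) (A : ℕ), ∀ (V : Type) [Fintype V] [Nonempty V] (G : SimpleGraph V) (d : ℕ),
      (∀ w, d ≤ G.degree w ∧ G.degree w ≤ K * d) →
      A * Fintype.card V ^ (Fintype.card ι - 1) ≤ d ^ (∑ c, j c) →
      (¬ ∃ X : ι → V, Flex G j N0 X) → Rare G E d l R := by
  intro l
  induction l with
  | zero =>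
    intro _ E
    refine ⟨fun _ => 0, 0, ?_⟩
    intro V _ _ G d _ _ _ m h1 h2
    omega
  | succ l ih =>
    intro hl E
    rcases Nat.lt_or_ge l 1 with h1 | h1
    · refine ⟨fun _ => 0, 0, ?_⟩
      intro V _ _ G d _ _ _ m h1 h2
      omega
    obtain ⟨E', hE'⟩ := hw (l + 1) (by omega) hl E
    obtain ⟨R, A, hR⟩ := ih (by omega) (max E E')
    obtain ⟨r, A', hr⟩ := hE' R
    refine ⟨Function.update R (l + 1) r, max A A', ?_⟩
    intro V _ _ G d hdeg hA hflex
    have h2 := hR V G d hdeg (le_trans (Nat.mul_le_mul_right _ (le_max_left _ _)) hA) hflex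
    intro m hm2 hml
    rcases Nat.lt_or_ge m (l + 1) with hlt | hge
    · rw [Function.update_of_ne (by omega)]
      exact (Nat.mul_le_mul_right _ (le_max_left _ _)).trans (h2 m hm2 (by omega))
    · obtain rfl : m = l + 1 := by omega
      rw [Function.update_self]
      by_contra hcon
      apply hflex
      refine hr V G d hdeg (le_trans (Nat.mul_le_mul_right _ (le_max_right _ _)) hA) ?_ ?_
      · intro m' h3 h4
        exact (Nat.mul_le_mul_right _ (le_max_right _ _)).trans (h2 m' h3 (by omega))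
      · exact not_le.1 hcon

theorem main_flex (j : ι → ℕ) (k N0 K : ℕ) (hj : ∀ c, 1 ≤ j c ∧ j c ≤ k) (hk : 2 ≤ k)
    (hw : ∀ l, 2 ≤ l → l ≤ k → World j N0 K l) : ∃ A : ℕ,
    ∀ (V : Type) [Fintype V] [Nonempty V] (G : SimpleGraph V) (d : ℕ),
      (∀ w, d ≤ G.degree w ∧ G.degree w ≤ K * d) →
      A * Fintype.card V ^ (Fintype.card ι - 1) ≤ d ^ (∑ c, j c) →
      ∃ X : ι → V, Flex G j N0 X := by
  obtain ⟨E', hl⟩ := world_light j N0 K k (fun c => (hj c).1) (fun c => (hj c).2) hk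
  obtain ⟨R, A, hR⟩ := rare_all j k N0 K hw k le_rfl E'
  obtain ⟨A', hA'⟩ := hl R
  refine ⟨max A A', ?_⟩
  intro V _ _ G d hdeg hA
  by_contra hflex
  exact hflex (hA' V G d hdeg (le_trans (Nat.mul_le_mul_right _ (le_max_right _ _)) hA)
    (hR V G d hdeg (le_trans (Nat.mul_le_mul_right _ (le_max_left _ _)) hA) hflex))

end worlds

/-- from flexible roots in almost regular graphs to the extremal number -/
theorem extremal_of_flex (s t : ℕ) (hs : 2 ≤ s) (j : Fin s → ℕ) (hj : ∀ c, 1 ≤ j c)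
    (h : ∀ K N0 : ℕ, 1 ≤ K → ∃ A : ℕ, ∀ (V : Type) [Fintype V] [Nonempty V]
      (G : SimpleGraph V) (d : ℕ), (∀ w, d ≤ G.degree w ∧ G.degree w ≤ K * d) →
      A * Fintype.card V ^ (s - 1) ≤ d ^ (∑ c, j c) → ∃ X : Fin s → V, Flex G j N0 X) :
    ∃ C : ℝ, ∀ n : ℕ, (SimpleGraph.extremalNumber n (blow s t j) : ℝ) ≤
      C * (n : ℝ) ^ (1 + ((s - 1 : ℕ) : ℝ) / ((∑ c, j c : ℕ) : ℝ)) := by
  by_contra hcon
  have he : s ≤ ∑ c, j c := by
    calc s = ∑ _c : Fin s, 1 := by simp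
      _ ≤ ∑ c, j c := sum_le_sum fun c _ => hj c
  have he0 : (0 : ℝ) < ((∑ c, j c : ℕ) : ℝ) := by
    have : 0 < ∑ c, j c := by omega
    exact_mod_cast this
  have hs1 : (0 : ℝ) < ((s - 1 : ℕ) : ℝ) := by
    have : 0 < s - 1 := by omega
    exact_mod_cast this
  have hy : 0 < ((s - 1 : ℕ) : ℝ) / ((∑ c, j c : ℕ) : ℝ) := by positivity
  have hy1 : ((s - 1 : ℕ) : ℝ) / ((∑ c, j c : ℕ) : ℝ) ≤ 1 := by
    rw [div_le_one he0]
    have : s - 1 ≤ ∑ c, j c := by omega
    exact_mod_cast this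
  obtain ⟨K, hK, hreg⟩ := RG.regularize _ hy hy1
  obtain ⟨A, hA⟩ := h K (t * (∑ c, j c + 1)) hK
  obtain ⟨V, _, _, G, _, c, d, hne, hfree, hc, hdeg, hd⟩ := hreg _ (blow s t j) hcon
    (max 1 (A : ℝ))
  have hn1 : (1 : ℝ) ≤ Fintype.card V := by exact_mod_cast Fintype.card_pos
  have hB1 : (1 : ℝ) ≤ max 1 (A : ℝ) := le_max_left _ _
  apply hfree
  obtain ⟨X, hX⟩ := hA V G d (fun w => by
      have := hdeg w
      constructor
      · exact this.1.trans (le_of_eq degree_inst)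
      · exact (le_of_eq degree_inst).trans this.2) (by
    have h1 : (max 1 (A : ℝ) * (Fintype.card V : ℝ) ^
        (((s - 1 : ℕ) : ℝ) / ((∑ c, j c : ℕ) : ℝ))) ^ (∑ c, j c) ≤ (d : ℝ) ^ (∑ c, j c) :=
      pow_le_pow_left₀ (by positivity) hd _
    rw [mul_pow, ← Real.rpow_natCast ((Fintype.card V : ℝ) ^ _), ← Real.rpow_mul (by positivity),
      div_mul_cancel₀ _ he0.ne', Real.rpow_natCast] at h1
    have h2 : (A : ℝ) ≤ max 1 (A : ℝ) ^ (∑ c, j c) := by
      refine (le_max_right 1 (A : ℝ)).trans ?_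
      exact le_self_pow₀ hB1 (by omega)
    have h3 : (A : ℝ) * (Fintype.card V : ℝ) ^ (s - 1) ≤ (d : ℝ) ^ (∑ c, j c) :=
      le_trans (mul_le_mul_of_nonneg_right h2 (by positivity)) h1
    exact_mod_cast h3)
  exact blow_of_flex hj G X _ le_rfl hX

theorem spider (s t k : ℕ) (hs : 2 ≤ s) (hk : 2 ≤ k) (j : Fin s → ℕ)
    (hj : ∀ c, 1 ≤ j c ∧ j c ≤ k) (hk' : ∃ c, j c = k) (hb : (s - 1) * k < ∑ c, j c)
    (hcond : ∀ l, 2 ≤ l → l < k → (∃ c, j c < l) →
      (∑ c, j c) * #{c | j c < l} ≤ (s - 1) * (l - 2 + ∑ c with j c < l, j c)) :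
    ∃ C : ℝ, ∀ n : ℕ, (SimpleGraph.extremalNumber n (blow s t j) : ℝ) ≤
      C * (n : ℝ) ^ (1 + ((s - 1 : ℕ) : ℝ) / ((∑ c, j c : ℕ) : ℝ)) := by
  have : Nonempty (Fin s) := ⟨⟨0, by omega⟩⟩
  refine extremal_of_flex s t hs j (fun c => (hj c).1) ?_
  intro K N0 hK
  obtain ⟨A, hA⟩ := main_flex j k N0 K hj hk (fun l hl hlk => world_all j k N0 K hK hj
    (by rw [Fintype.card_fin]; exact hb) (by rw [Fintype.card_fin]; exact hcond) hk' l hl hlk)
  rw [Fintype.card_fin] at hA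
  exact ⟨A, hA⟩

/-- all spiders with legs of length `k - 1` and `k` -/
theorem spider_two (s t k : ℕ) (hs : 2 ≤ s) (hk : 2 ≤ k) (j : Fin s → ℕ)
    (hj : ∀ c, j c = k - 1 ∨ j c = k) (hk' : ∃ c, j c = k) (hb : (s - 1) * k < ∑ c, j c) :
    ∃ C : ℝ, ∀ n : ℕ, (SimpleGraph.extremalNumber n (blow s t j) : ℝ) ≤
      C * (n : ℝ) ^ (1 + ((s - 1 : ℕ) : ℝ) / ((∑ c, j c : ℕ) : ℝ)) := by
  refine spider s t k hs hk j (fun c => ?_) hk' hb ?_
  · rcases hj c with h | h <;> omega
  · rintro l h1 h2 ⟨c, hc⟩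
    rcases hj c with h | h <;> omega

end Pool.Agent.Helper14.SP
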